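import Pool.Agent.TH839.TU.Conv

/-!
# Project TU: inequalities of Turan type bound the completed function
-/

set_option autoImplicit false

open Complex MeasureTheory Filter Topology Set
open scoped ComplexConjugate

namespace Pool.Agent.TH839.TU

open Pool.Agent.W169.HF H353.E Pool.Agent.W355.UN Pool.Agent.TH839.UH Pool.Agent.TH839.LD Pool.Agent.TH839.SC

/-- for real `u` this is `|X (1/2 + iT + u)| ^ 2` -/
noncomputable def Sq (X : ℂ → ℂ) (T : ℝ) (u : ℂ) : ℂ :=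
  X (1 / 2 + (T : ℂ) * I + u) * conj (X (1 / 2 + (T : ℂ) * I + conj u))

/-- inequalities of Turan type for the moduli of the coefficients of `Φ` -/
def Tur (Φ : ℂ → ℂ) (c x : ℝ) : Prop := ∀ n : ℕ, (n : ℝ) ≤ x → co Φ (n + 1) ≠ 0 ∧
  (((n : ℝ) + 2) / (n + 1)) ^ c * co Φ n * co Φ (n + 2) ≤ co Φ (n + 1) ^ 2

lemma sq_diff {X : ℂ → ℂ} (hX : Differentiable ℂ X) (T : ℝ) : Differentiable ℂ (Sq X T) := by
  have h1 : Differentiable ℂ fun u : ℂ => X (1 / 2 + (T : ℂ) * I + u) := hX.comp (by fun_prop)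
  have h2 : Differentiable ℂ fun u : ℂ => conj (X (1 / 2 + (T : ℂ) * I + conj u)) := fun u =>
    differentiableAt_conj_conj_iff.2 (h1 (conj u))
  exact h1.mul h2

lemma sq_even {X : ℂ → ℂ} (hfe : ∃ ε : ℂ, ‖ε‖ = 1 ∧ ∀ s : ℂ, X s = ε * conj (X (1 - conj s))) (T : ℝ)
    (u : ℂ) : Sq X T (-u) = Sq X T u := by
  obtain ⟨ε, -, h⟩ := hfe
  have h1 : ∀ v : ℂ, X (1 / 2 + (T : ℂ) * I + v) = ε * conj (X (1 / 2 + (T : ℂ) * I + -conj v)) := by
    intro v
    rw [h]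
    congr 3
    simp only [map_add, map_mul, Complex.conj_ofReal, Complex.conj_I, map_div₀, map_one, map_ofNat]
    ring
  unfold Sq
  rw [h1 (-u), h1 u]
  simp only [map_neg, neg_neg]
  ring

theorem appT (m : ℕ) (b c κ ε : ℝ) (hb : 0 ≤ b) (hc0 : 0 ≤ c) (hc2 : c ≤ 2) (hκ : 0 < κ) (hε : 0 < ε) :
    ∃ a1 R κ' W h0 : ℝ, 1 / 2 < a1 ∧ a1 ≤ 1 ∧ 1 / 2 < R ∧ R ≤ 3 / 4 ∧ 0 < κ' ∧
      ∀ (B : ℝ → ℝ) (N : ℝ) (μ : Fin m → ℂ) (X L : ℂ → ℂ),
      UL m B N 1 μ X L → B 1 = b → ∀ T : ℝ, h0 ≤ hc N μ T →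
      (∀ T' : ℝ, |T' - T| ≤ W → ‖X (1 / 2 + (T' : ℂ) * I + a1)‖ ≤ ‖X (7 / 2 + (T' : ℂ) * I)‖ *
        Real.exp (-(3 * hc N μ T') + (a1 + κ') * hc N μ T')) →
      ‖X (7 / 2 + (T : ℂ) * I)‖ * Real.exp (-(3 * hc N μ T)) * Real.exp ((R - κ') * hc N μ T) ≤
        ‖X (1 / 2 + (T : ℂ) * I + R)‖ →
      (Tur (Sq X T) c ((1 / 4 + κ) * (2 * hc N μ T)) ∨ (T = 0 ∧ (∀ s, X (1 - s) = X s) ∧
        Tur (fun u => X (1 / 2 + u)) c ((1 / 4 + κ) * hc N μ T))) →
      ‖X (1 / 2 + (T : ℂ) * I)‖ ≤ ‖X (7 / 2 + (T : ℂ) * I)‖ * Real.exp (-(3 * hc N μ T)) *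
        Real.exp (((2 - c) / 4 + ε) * hc N μ T) := by
  obtain ⟨R, ε1, H0, hR1, hR2, hε1, HA⟩ := coreA c κ ε hc0 hc2 hκ hε
  obtain ⟨a1, ha1⟩ : ∃ a1 : ℝ, a1 = 1 / 2 + min (ε1 / 2) (1 / 2) := ⟨_, rfl⟩
  have ha1p : 1 / 2 < a1 := by
    rw [ha1]
    have : 0 < min (ε1 / 2) (1 / 2) := by positivity
    linarith
  have ha11 : a1 ≤ 1 := by
    rw [ha1]
    have := min_le_right (ε1 / 2) (1 / 2 : ℝ)
    linarith
  have ha12 : a1 ≤ 1 / 2 + ε1 / 2 := by
    rw [ha1]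
    have := min_le_left (ε1 / 2) (1 / 2 : ℝ)
    linarith
  obtain ⟨κ1, W, h0, hκ1, HC⟩ := conv m b a1 (ε1 / 2) hb (by linarith) ha11 (by positivity)
  obtain ⟨κ', hκ'⟩ : ∃ κ' : ℝ, κ' = min κ1 ε1 := ⟨_, rfl⟩
  have hκ'0 : 0 < κ' := by rw [hκ']; positivity
  have hκ'1 : κ' ≤ κ1 := by rw [hκ']; exact min_le_left _ _
  have hκ'2 : κ' ≤ ε1 := by rw [hκ']; exact min_le_right _ _
  refine ⟨a1, R, κ', W, max (max h0 H0) 1, ha1p, ha11, hR1, hR2, hκ'0, ?_⟩
  intro B N μ X L h hBb T hh0 hsm hlow hT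
  have hcpos : ∀ T' : ℝ, 0 ≤ hc N μ T' := fun T' => hc_nonneg h.hN μ T'
  have CV := HC B N μ X L h hBb T (((le_max_left _ _).trans (le_max_left _ _)).trans hh0)
    (fun T' hT' => (hsm T' hT').trans (mul_le_mul_of_nonneg_left (Real.exp_le_exp.2 (by
      have := mul_le_mul_of_nonneg_right hκ'1 (hcpos T')
      linarith)) (norm_nonneg _)))
  have hh1 : 1 ≤ hc N μ T := (le_max_right _ _).trans hh0
  have hhH : H0 ≤ hc N μ T := ((le_max_right _ _).trans (le_max_left _ _)).trans hh0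
  obtain ⟨l, hl⟩ : ∃ l : ℝ, l = hc N μ T := ⟨_, rfl⟩
  rw [← hl] at CV hh1 hhH hlow hT ⊢
  obtain ⟨P, hP⟩ : ∃ P : ℝ, P = ‖X (7 / 2 + (T : ℂ) * I)‖ * Real.exp (-(3 * l)) := ⟨_, rfl⟩
  have hP0 : 0 < P := by
    rw [hP]
    have := norm_pos_iff.2 (prf h le_rfl 0 T).1
    positivity
  rw [← hP] at CV hlow ⊢
  have hl0 : 0 < l := by linarith
  -- the bound in the disc
  have hdisc : ∀ u : ℂ, ‖u‖ ≤ 3 / 4 →
      ‖X (1 / 2 + (T : ℂ) * I + u)‖ ≤ P * Real.exp (l * max ‖u‖ (1 / 2) + ε1 * l) := by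
    intro u hu
    have h1 := Complex.abs_re_le_norm u
    have h2 := Complex.abs_im_le_norm u
    refine (CV u (by linarith) (by linarith)).trans (mul_le_mul_of_nonneg_left (Real.exp_le_exp.2 ?_) hP0.le)
    have h3 : max |u.re| a1 ≤ max ‖u‖ (1 / 2) + ε1 / 2 := by
      apply max_le
      · have := le_max_left ‖u‖ (1 / 2 : ℝ)
        linarith
      · have := le_max_right ‖u‖ (1 / 2 : ℝ)
        linarith
    have h4 := mul_le_mul_of_nonneg_right h3 hl0.le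
    linarith
  have hlow' : P * Real.exp (l * R - ε1 * l) ≤ ‖X (1 / 2 + (T : ℂ) * I + R)‖ := by
    refine le_trans (mul_le_mul_of_nonneg_left (Real.exp_le_exp.2 ?_) hP0.le) hlow
    have := mul_le_mul_of_nonneg_right hκ'2 hl0.le
    linarith
  rcases hT with hT | ⟨hT0, hev, hT⟩
  · have key := HA (2 * l) (P ^ 2) (Sq X T) (by linarith) (by positivity) (sq_diff h.slow.1 T)
      (sq_even h.fe T) ?_ ?_ hT
    · have e1 : ‖Sq X T 0‖ = ‖X (1 / 2 + (T : ℂ) * I)‖ ^ 2 := by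
        unfold Sq
        rw [map_zero, add_zero, norm_mul, Complex.norm_conj, sq]
      rw [e1] at key
      have e2 : P ^ 2 * Real.exp (((2 - c) / 4 + ε) * (2 * l)) =
          (P * Real.exp (((2 - c) / 4 + ε) * l)) ^ 2 := by
        rw [mul_pow, ← Real.exp_nat_mul]
        congr 2
        push_cast
        ring
      rw [e2] at key
      exact le_of_sq_le_sq key (by positivity)
    · intro u hu
      have hu' : ‖conj u‖ ≤ 3 / 4 := by rw [Complex.norm_conj]; exact hu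
      have h1 := hdisc u hu
      have h2 := hdisc (conj u) hu'
      rw [Complex.norm_conj] at h2
      unfold Sq
      rw [norm_mul, Complex.norm_conj]
      calc _ ≤ (P * Real.exp (l * max ‖u‖ (1 / 2) + ε1 * l)) * (P * Real.exp (l * max ‖u‖ (1 / 2) + ε1 * l)) :=
            mul_le_mul h1 h2 (norm_nonneg _) (by positivity)
        _ = P ^ 2 * (Real.exp (l * max ‖u‖ (1 / 2) + ε1 * l) * Real.exp (l * max ‖u‖ (1 / 2) + ε1 * l)) := by
            ring
        _ = _ := by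
            rw [← Real.exp_add]
            congr 2
            ring
    · unfold Sq
      rw [norm_mul, Complex.norm_conj, Complex.conj_ofReal]
      calc P ^ 2 * Real.exp (2 * l * R - ε1 * (2 * l)) =
            (P * Real.exp (l * R - ε1 * l)) * (P * Real.exp (l * R - ε1 * l)) := by
            have : Real.exp (2 * l * R - ε1 * (2 * l)) =
                Real.exp (l * R - ε1 * l) * Real.exp (l * R - ε1 * l) := by
              rw [← Real.exp_add]
              congr 1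
              ring
            rw [this]
            ring
        _ ≤ _ := mul_le_mul hlow' hlow' (by positivity) (norm_nonneg _)
  · have e0 : ∀ u : ℂ, X (1 / 2 + (T : ℂ) * I + u) = X (1 / 2 + u) := by
      intro u
      rw [hT0]
      simp
    have key := HA l P (fun u => X (1 / 2 + u)) hhH hP0 (h.slow.1.comp (by fun_prop)) ?_ ?_ ?_ hT
    · rw [add_zero] at key
      have e1 : X (1 / 2 + (T : ℂ) * I) = X (1 / 2) := by
        rw [hT0]
        simp
      rw [e1]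
      exact key
    · intro u
      have := hev (1 / 2 + u)
      rw [← this]
      congr 1
      ring
    · intro u hu
      rw [← e0]
      exact hdisc u hu
    · rw [← e0]
      exact hlow'

end Pool.Agent.TH839.TU
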