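import Pool.Agent.W186.LH.Sab

/-!
# Project CN: a thin zero-free cone; the estimate in the cone
-/

set_option autoImplicit false

open Complex Filter Topology Set Metric
open scoped ComplexConjugate

namespace Pool.Agent.TH839.CN

open Pool.Agent.W186.LH

/-- the Cayley map of the ball with centre and radius `5` onto the right half plane -/
noncomputable def cay (z : ℂ) : ℂ := z / (10 - z)

lemma ball_aux {z : ℂ} {δ : ℝ} (hδ : 0 < δ) (hz : ‖z - 5‖ < 5 - δ) :
    δ ≤ ‖z‖ ∧ δ ≤ ‖10 - z‖ ∧ ‖z‖ ≤ 10 ∧ ‖10 - z‖ ≤ 10 := by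
  have h1 : ‖(5 : ℂ)‖ = 5 := by simp
  have h2 := norm_sub_norm_le (5 : ℂ) (5 - z)
  have h3 := norm_sub_norm_le (5 : ℂ) (z - 5)
  have h4 := norm_add_le (5 : ℂ) (z - 5)
  have h5 := norm_add_le (5 : ℂ) (5 - z)
  have e1 : (5 : ℂ) - (5 - z) = z := by ring
  have e2 : (5 : ℂ) - (z - 5) = 10 - z := by ring
  have e3 : (5 : ℂ) + (z - 5) = z := by ring
  have e4 : (5 : ℂ) + (5 - z) = 10 - z := by ring
  have e5 : ‖5 - z‖ = ‖z - 5‖ := norm_sub_rev _ _
  rw [e1, h1, e5] at h2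
  rw [e2, h1] at h3
  rw [e3, h1] at h4
  rw [e4, h1, e5] at h5
  refine ⟨by linarith, by linarith, by linarith, by linarith⟩

lemma cay_re {z : ℂ} (hz : ‖z - 5‖ < 5) : 0 < (cay z).re := by
  have h0 : 10 - z ≠ 0 := by
    intro h
    have : z = 10 := by linear_combination -h
    rw [this] at hz
    norm_num at hz
  have h1 : 0 < Complex.normSq (10 - z) := Complex.normSq_pos.2 h0
  have h2 : Complex.normSq (z - 5) < 25 := by
    rw [Complex.normSq_eq_norm_sq]
    have := norm_nonneg (z - 5)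
    nlinarith
  unfold cay
  rw [Complex.div_re, ← add_div]
  apply div_pos _ h1
  rw [Complex.normSq_apply] at h2
  simp at h2 ⊢
  nlinarith

lemma cay_norm {z : ℂ} {δ : ℝ} (hδ : 0 < δ) (hz : ‖z - 5‖ < 5 - δ) :
    δ / 10 ≤ ‖cay z‖ ∧ ‖cay z‖ ≤ 10 / δ := by
  obtain ⟨h1, h2, h3, h4⟩ := ball_aux hδ hz
  have h5 : 0 < ‖10 - z‖ := by linarith
  unfold cay
  rw [norm_div]
  constructor
  · rw [div_le_div_iff₀ (by norm_num) h5]
    exact mul_le_mul h1 h4 (by linarith) (by linarith)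
  · rw [div_le_div_iff₀ h5 hδ]
    exact mul_le_mul h3 h2 hδ.le (by norm_num)

/-- the map of the ball onto the cone -/
noncomputable def phi (a : ℝ) (z : ℂ) : ℂ := 5 * cexp ((a : ℂ) * Complex.log (cay z))

lemma cay_small {z : ℂ} (hz : ‖z - 5‖ < 16 / 5) : ‖Complex.log (cay z)‖ ≤ 4 := by
  obtain ⟨h1, h2, h3, h4⟩ := ball_aux (z := z) (δ := 9 / 5) (by norm_num) (by linarith)
  have h3' : ‖z‖ ≤ 41 / 5 := by
    have := norm_add_le (5 : ℂ) (z - 5)
    have e3 : (5 : ℂ) + (z - 5) = z := by ring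
    have h5 : ‖(5 : ℂ)‖ = 5 := by simp
    rw [e3, h5] at this
    linarith
  have h4' : ‖10 - z‖ ≤ 41 / 5 := by
    have := norm_add_le (5 : ℂ) (5 - z)
    have e3 : (5 : ℂ) + (5 - z) = 10 - z := by ring
    have h5 : ‖(5 : ℂ)‖ = 5 := by simp
    rw [e3, h5, norm_sub_rev 5 z] at this
    linarith
  have h5 : 0 < ‖10 - z‖ := by linarith
  have hy1 : 1 / 5 ≤ ‖cay z‖ := by
    unfold cay
    rw [norm_div, div_le_div_iff₀ (by norm_num) h5]
    linarith
  have hy2 : ‖cay z‖ ≤ 5 := by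
    unfold cay
    rw [norm_div, div_le_iff₀ h5]
    linarith
  have hre := cay_re (z := z) (by linarith)
  have harg : |arg (cay z)| < Real.pi / 2 := Complex.abs_arg_lt_pi_div_two_iff.2 (Or.inl hre)
  have hpi := Real.pi_lt_d2
  have he : (5 : ℝ) ≤ Real.exp 2 := by
    have h6 := Real.add_one_le_exp (1 : ℝ)
    have h7 := Real.exp_one_gt_d9
    have h8 : Real.exp 2 = Real.exp 1 * Real.exp 1 := by rw [← Real.exp_add]; norm_num
    rw [h8]
    nlinarith
  have hl1 : Real.log ‖cay z‖ ≤ 2 := by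
    rw [Real.log_le_iff_le_exp (by linarith)]
    linarith
  have hl2 : -2 ≤ Real.log ‖cay z‖ := by
    rw [Real.le_log_iff_exp_le (by linarith), Real.exp_neg]
    refine le_trans ?_ hy1
    rw [one_div]
    exact inv_anti₀ (by norm_num) he
  have h9 := Complex.norm_le_abs_re_add_abs_im (Complex.log (cay z))
  rw [Complex.log_re, Complex.log_im] at h9
  have h10 : |Real.log ‖cay z‖| ≤ 2 := abs_le.2 ⟨hl2, hl1⟩
  linarith

/-- estimates for the points of the cone -/
lemma phi_cone {a : ℝ} (ha : 0 < a) (ha1 : a ≤ 1 / 40) {z : ℂ} (hz : ‖z - 5‖ < 5) :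
    ‖phi a z‖ / 2 ≤ (phi a z).re ∧ |(phi a z).im| < 4 * a * (phi a z).re ∧ 0 < (phi a z).re := by
  have hre := cay_re hz
  have harg : |arg (cay z)| < Real.pi / 2 := Complex.abs_arg_lt_pi_div_two_iff.2 (Or.inl hre)
  have hpi := Real.pi_lt_d2
  obtain ⟨θ, hθ⟩ : ∃ θ : ℝ, θ = a * arg (cay z) := ⟨_, rfl⟩
  have hθ1 : |θ| ≤ a * (Real.pi / 2) := by
    rw [hθ, abs_mul, abs_of_pos ha]
    exact mul_le_mul_of_nonneg_left harg.le ha.le
  have hθ2 : |θ| ≤ 1 := by
    have : a * (Real.pi / 2) ≤ 1 / 40 * (3.15 / 2) := by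
      apply mul_le_mul ha1 (by linarith) (by positivity) (by norm_num)
    norm_num at this
    linarith
  have hcos : 1 / 2 ≤ Real.cos θ := by
    have h1 := Real.one_sub_sq_div_two_le_cos (x := θ)
    have h2 : θ ^ 2 ≤ 1 := by
      rw [← sq_abs]
      have := abs_nonneg θ
      nlinarith
    linarith
  have hsin : |Real.sin θ| ≤ |θ| := Real.abs_sin_le_abs
  obtain ⟨R, hR⟩ : ∃ R : ℝ, R = Real.exp (a * Real.log ‖cay z‖) := ⟨_, rfl⟩
  have hR0 : 0 < R := by rw [hR]; exact Real.exp_pos _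
  have er : ((a : ℂ) * Complex.log (cay z)).re = a * Real.log ‖cay z‖ := by
    simp [Complex.log_re]
  have ei : ((a : ℂ) * Complex.log (cay z)).im = θ := by
    rw [hθ]
    simp [Complex.log_im]
  have e1 : (phi a z).re = 5 * (R * Real.cos θ) := by
    unfold phi
    rw [Complex.mul_re, Complex.exp_re, er, ei, ← hR]
    simp
  have e2 : (phi a z).im = 5 * (R * Real.sin θ) := by
    unfold phi
    rw [Complex.mul_im, Complex.exp_im, er, ei, ← hR]
    simp
  have e3 : ‖phi a z‖ = 5 * R := by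
    unfold phi
    rw [norm_mul, Complex.norm_exp, er, ← hR]
    simp
  have hRc : R * (1 / 2) ≤ R * Real.cos θ := mul_le_mul_of_nonneg_left hcos hR0.le
  have hpos : 0 < R * Real.cos θ := by
    have : 0 < R * (1 / 2) := by positivity
    linarith
  rw [e1, e2, e3]
  refine ⟨by linarith, ?_, by linarith⟩
  rw [abs_mul, abs_mul, abs_of_pos hR0, abs_of_pos (by norm_num : (0 : ℝ) < 5)]
  have h5 : |Real.sin θ| ≤ a * (Real.pi / 2) := hsin.trans hθ1
  have h6 : R * |Real.sin θ| ≤ R * (a * (Real.pi / 2)) := mul_le_mul_of_nonneg_left h5 hR0.le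
  have h7 : a * Real.pi * (R * (1 / 2)) ≤ a * Real.pi * (R * Real.cos θ) :=
    mul_le_mul_of_nonneg_left hRc (by positivity)
  have h8 : a * Real.pi * (R * Real.cos θ) < a * 4 * (R * Real.cos θ) := by
    apply mul_lt_mul_of_pos_right _ hpos
    apply mul_lt_mul_of_pos_left _ ha
    linarith
  linarith

lemma phi_diff {a : ℝ} : DifferentiableOn ℂ (phi a) (ball 5 5) := by
  intro z hz
  rw [mem_ball, dist_eq_norm] at hz
  have hre := cay_re hz
  have h0 : 10 - z ≠ 0 := by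
    intro h
    have : z = 10 := by linear_combination -h
    rw [this] at hz
    norm_num at hz
  have h1 : DifferentiableAt ℂ cay z := by
    unfold cay
    exact differentiableAt_id.div (by fun_prop) h0
  have h2 : DifferentiableAt ℂ (fun z => Complex.log (cay z)) z := h1.clog (Or.inl hre)
  have h3 : DifferentiableAt ℂ (phi a) z := by
    unfold phi
    exact ((h2.const_mul _).cexp).const_mul _
  exact h3.differentiableWithinAt

/-- the inverse map -/
lemma phi_inv {a ρ : ℝ} (ha : 0 < a) (ha1 : a ≤ 1 / 40) (hρ0 : 0 < ρ)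
    {u : ℂ} (hu : 0 < u.re) (hρ : ρ ≤ Real.exp (Real.log (‖u‖ / 5) / a)) (hu1 : ‖u‖ ≤ 1)
    (hs : |u.im| ≤ Real.sin (a * (Real.pi / 4)) * ‖u‖) :
    ∃ z : ℂ, ‖z - 5‖ ≤ 5 - 5 * ρ / 4 ∧ phi a z = u := by
  have hpi := Real.pi_lt_d2
  have hpi0 := Real.pi_pos
  have hu0 : u ≠ 0 := by
    intro h
    rw [h] at hu
    simp at hu
  have hun : 0 < ‖u‖ := norm_pos_iff.2 hu0
  obtain ⟨θ, hθ⟩ : ∃ θ : ℝ, θ = arg u := ⟨_, rfl⟩
  have hθh : |θ| < Real.pi / 2 := by
    rw [hθ]
    exact Complex.abs_arg_lt_pi_div_two_iff.2 (Or.inl hu)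
  have hsinθ : |Real.sin θ| ≤ Real.sin (a * (Real.pi / 4)) := by
    rw [hθ, Complex.sin_arg, abs_div, abs_of_pos hun, div_le_iff₀ hun]
    exact hs
  have haπ : a * (Real.pi / 4) ≤ Real.pi / 2 := by
    have : a * (Real.pi / 4) ≤ 1 * (Real.pi / 4) := mul_le_mul_of_nonneg_right (by linarith) (by positivity)
    linarith
  have haπ0 : 0 < a * (Real.pi / 4) := by positivity
  have hθa : |θ| ≤ a * (Real.pi / 4) := by
    by_contra hcon
    have h1 := not_le.1 hcon
    have h2 : Real.sin (a * (Real.pi / 4)) < Real.sin |θ| :=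
      Real.sin_lt_sin_of_lt_of_le_pi_div_two (by linarith) hθh.le h1
    have h3 : Real.sin |θ| ≤ |Real.sin θ| := by
      rcases abs_cases θ with ⟨h, -⟩ | ⟨h, -⟩
      · rw [h]; exact le_abs_self _
      · rw [h, Real.sin_neg]; exact neg_le_abs _
    linarith
  have h50 : u / 5 ≠ 0 := div_ne_zero hu0 (by norm_num)
  have hn5 : ‖u / 5‖ = ‖u‖ / 5 := by rw [norm_div]; simp
  obtain ⟨w, hw⟩ : ∃ w : ℂ, w = Complex.log (u / 5) := ⟨_, rfl⟩
  have hwre : w.re = Real.log (‖u‖ / 5) := by rw [hw, Complex.log_re, hn5]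
  have hwim : w.im = θ := by
    rw [hw, Complex.log_im, hθ]
    have e : u / 5 = ((1 / 5 : ℝ) : ℂ) * u := by push_cast; ring
    rw [e, Complex.arg_real_mul u (by norm_num)]
  have hwe : cexp w = u / 5 := by rw [hw, Complex.exp_log h50]
  obtain ⟨v, hv⟩ : ∃ v : ℂ, v = w / (a : ℂ) := ⟨_, rfl⟩
  have hac : (a : ℂ) ≠ 0 := by exact_mod_cast ha.ne'
  have hvre : v.re = Real.log (‖u‖ / 5) / a := by rw [hv, Complex.div_ofReal_re, hwre]
  have hvim : v.im = θ / a := by rw [hv, Complex.div_ofReal_im, hwim]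
  have hvim1 : |v.im| ≤ Real.pi / 4 := by
    rw [hvim, abs_div, abs_of_pos ha, div_le_iff₀ ha]
    linarith
  obtain ⟨y, hy⟩ : ∃ y : ℂ, y = cexp v := ⟨_, rfl⟩
  have hly : Complex.log y = v := by
    rw [hy, Complex.log_exp]
    · linarith [(abs_le.1 hvim1).1]
    · linarith [(abs_le.1 hvim1).2]
  have hyn : ‖y‖ = Real.exp (Real.log (‖u‖ / 5) / a) := by rw [hy, Complex.norm_exp, hvre]
  have hy1 : ‖y‖ ≤ 1 := by
    rw [hyn, Real.exp_le_one_iff]
    apply div_nonpos_of_nonpos_of_nonneg _ ha.le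
    apply Real.log_nonpos (by positivity)
    linarith
  have hyρ : ρ ≤ ‖y‖ := by rw [hyn]; exact hρ
  have hyre : ‖y‖ / 2 ≤ y.re := by
    have e : y.re = ‖y‖ * Real.cos v.im := by
      rw [hy, Complex.exp_re, Complex.norm_exp]
    rw [e]
    have hcos : 1 / 2 ≤ Real.cos v.im := by
      have h1 := Real.one_sub_sq_div_two_le_cos (x := v.im)
      have h2 : v.im ^ 2 ≤ 1 := by
        rw [← sq_abs]
        have := abs_nonneg v.im
        nlinarith
      linarith
    have := mul_le_mul_of_nonneg_left hcos (norm_nonneg y)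
    linarith
  have hy1p : 1 + y ≠ 0 := by
    intro h
    have h1 := congrArg Complex.re h
    simp at h1
    have := norm_nonneg y
    linarith
  have hyp : 0 < ‖1 + y‖ := norm_pos_iff.2 hy1p
  refine ⟨10 * y / (1 + y), ?_, ?_⟩
  · have e1 : 10 * y / (1 + y) - 5 = 5 * ((y - 1) / (1 + y)) := by
      field_simp
      ring
    rw [e1, norm_mul, norm_div]
    have h5 : ‖(5 : ℂ)‖ = 5 := by simp
    rw [h5]
    have h6 : ‖y - 1‖ ^ 2 = ‖1 + y‖ ^ 2 - 4 * y.re := by
      rw [← Complex.normSq_eq_norm_sq, ← Complex.normSq_eq_norm_sq, Complex.normSq_apply,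
        Complex.normSq_apply]
      simp
      ring
    have h7 : ‖1 + y‖ ≤ 2 := by
      have := norm_add_le (1 : ℂ) y
      simp at this
      linarith
    have hρ1 : ρ ≤ 1 := hyρ.trans hy1
    have h8 : ‖y - 1‖ ≤ (1 - ρ / 4) * ‖1 + y‖ := by
      apply (abs_le_of_sq_le_sq' _ (mul_nonneg (by linarith) (norm_nonneg _))).2
      rw [h6, mul_pow]
      have h9 : ‖1 + y‖ ^ 2 ≤ 4 := by nlinarith
      have h10 : ρ / 2 ≤ y.re := by linarith
      have h11 : ‖1 + y‖ ^ 2 * (ρ / 2) ≤ 4 * (ρ / 2) := mul_le_mul_of_nonneg_right h9 (by linarith)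
      have h12 : (1 - ρ / 4) ^ 2 * ‖1 + y‖ ^ 2 = ‖1 + y‖ ^ 2 - ‖1 + y‖ ^ 2 * (ρ / 2) +
        ρ ^ 2 / 16 * ‖1 + y‖ ^ 2 := by ring
      have h13 : 0 ≤ ρ ^ 2 / 16 * ‖1 + y‖ ^ 2 := by positivity
      rw [h12]
      linarith
    have h14 : ‖y - 1‖ / ‖1 + y‖ ≤ 1 - ρ / 4 := by
      rw [div_le_iff₀ hyp]
      exact h8
    linarith
  · have e2 : cay (10 * y / (1 + y)) = y := by
      unfold cay
      have : 10 - 10 * y / (1 + y) = 10 / (1 + y) := by
        field_simp
        ring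
      rw [this]
      field_simp
    unfold phi
    rw [e2, hly, hv]
    have : (a : ℂ) * (w / a) = w := by field_simp
    rw [this, hwe]
    ring

end Pool.Agent.TH839.CN
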