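import Pool.Agent.TH839.TU.Cn1

/-!
# Project CN: the estimate in the cone
-/

set_option autoImplicit false

open Complex Filter Topology Set Metric
open scoped ComplexConjugate

namespace Pool.Agent.TH839.CN

open Pool.Agent.W186.LH

/-- the estimate in the cone, zero-free version -/
theorem cone0 (a r η : ℝ) (ha : 0 < a) (ha1 : a ≤ 1 / 40) (hr : 0 < r) (hη : 0 < η) :
    ∃ r' R : ℝ, 0 < r' ∧ 6 ≤ R ∧ ∀ M1 : ℝ, 0 < M1 → ∃ κ : ℝ, 0 < κ ∧ κ ≤ 1 ∧
      ∀ (h : ℝ) (G : ℂ → ℂ), 0 < h → Differentiable ℂ G →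
      (∀ u : ℂ, ‖u‖ ≤ R → ‖G u‖ ≤ Real.exp (M1 * h)) →
      (∀ u : ℂ, ‖u - 5‖ ≤ 1 → Real.exp (h * u.re - κ * h) ≤ ‖G u‖ ∧ ‖G u‖ ≤ Real.exp (h * u.re + κ * h)) →
      (∀ u : ℂ, ‖u‖ ≤ R → r' ≤ u.re → |u.im| ≤ 4 * a * u.re → G u ≠ 0) →
      ∀ u : ℂ, 0 < u.re → r ≤ ‖u‖ → ‖u‖ ≤ 1 → |u.im| ≤ Real.sin (a * (Real.pi / 4)) * ‖u‖ →
        ‖G u‖ ≤ Real.exp (h * u.re + η * h) := by
  obtain ⟨ρ, hρ⟩ : ∃ ρ : ℝ, ρ = min (Real.exp (Real.log (r / 5) / a)) (1 / 5) := ⟨_, rfl⟩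
  have hρ0 : 0 < ρ := by rw [hρ]; apply lt_min (Real.exp_pos _) (by norm_num)
  have hρ1 : ρ ≤ 1 / 5 := by rw [hρ]; exact min_le_right _ _
  have hρ2 : ρ ≤ Real.exp (Real.log (r / 5) / a) := by rw [hρ]; exact min_le_left _ _
  obtain ⟨η0, hη0⟩ : ∃ η0 : ℝ, η0 = 5 * ρ / 4 := ⟨_, rfl⟩
  have hη00 : 0 < η0 := by rw [hη0]; positivity
  have hη01 : η0 ≤ 1 / 4 := by rw [hη0]; linarith
  obtain ⟨Λ, hΛ⟩ : ∃ Λ : ℝ, Λ = 40 / η0 := ⟨_, rfl⟩
  have hΛ1 : 1 ≤ Λ := by
    rw [hΛ, le_div_iff₀ hη00]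
    linarith
  have hΛ0 : 0 < Λ := by linarith
  refine ⟨5 / Λ / 2, 5 * Λ + 10, by positivity, by linarith, ?_⟩
  intro M1 hM1
  obtain ⟨ε, hε, hε1, H⟩ := sabB η0 η M1 hη00 hη01 hη hM1
  refine ⟨ε, hε, hε1, ?_⟩
  intro h G hh hG hup hsm hz0 u hu hur hu1 hus
  -- bounds for phi
  have hphi : ∀ z : ℂ, ‖z - 5‖ < 5 - η0 / 4 → 5 / Λ ≤ ‖phi a z‖ ∧ ‖phi a z‖ ≤ 5 * Λ := by
    intro z hz
    obtain ⟨c1, c2⟩ := cay_norm (z := z) (δ := η0 / 4) (by positivity) hz
    have hΛ' : 10 / (η0 / 4) = Λ := by rw [hΛ]; field_simp; norm_num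
    have hΛ'' : η0 / 4 / 10 = 1 / Λ := by rw [hΛ]; field_simp; norm_num
    rw [hΛ'] at c2
    rw [hΛ''] at c1
    have hc0 : 0 < ‖cay z‖ := lt_of_lt_of_le (by positivity) c1
    have l1 : Real.log ‖cay z‖ ≤ Real.log Λ := Real.log_le_log hc0 c2
    have l2 : -Real.log Λ ≤ Real.log ‖cay z‖ := by
      rw [← Real.log_inv, ← one_div]
      exact Real.log_le_log (by positivity) c1
    have lΛ : 0 ≤ Real.log Λ := Real.log_nonneg hΛ1
    have er : ((a : ℂ) * Complex.log (cay z)).re = a * Real.log ‖cay z‖ := by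
      simp [Complex.log_re]
    have e3 : ‖phi a z‖ = 5 * Real.exp (a * Real.log ‖cay z‖) := by
      unfold phi
      rw [norm_mul, Complex.norm_exp, er]
      simp
    have hΛe : Real.exp (Real.log Λ) = Λ := Real.exp_log hΛ0
    have m1 : a * Real.log ‖cay z‖ ≤ Real.log Λ := by
      have h1 : a * Real.log ‖cay z‖ ≤ a * Real.log Λ := mul_le_mul_of_nonneg_left l1 ha.le
      have h2 : a * Real.log Λ ≤ 1 * Real.log Λ := mul_le_mul_of_nonneg_right (by linarith) lΛ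
      linarith
    have m2 : -Real.log Λ ≤ a * Real.log ‖cay z‖ := by
      have h1 : a * (-Real.log Λ) ≤ a * Real.log ‖cay z‖ := mul_le_mul_of_nonneg_left l2 ha.le
      have h2 : a * Real.log Λ ≤ 1 * Real.log Λ := mul_le_mul_of_nonneg_right (by linarith) lΛ
      linarith
    rw [e3]
    constructor
    · have := Real.exp_le_exp.2 m2
      rw [Real.exp_neg, hΛe] at this
      rw [div_eq_mul_inv]
      linarith
    · have := Real.exp_le_exp.2 m1
      rw [hΛe] at this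
      linarith
  obtain ⟨g, hg⟩ : ∃ g : ℂ → ℂ, g = fun z => G (phi a z) * cexp (-(h : ℂ) * phi a z) := ⟨_, rfl⟩
  have hgn : ∀ z, ‖g z‖ = ‖G (phi a z)‖ * Real.exp (-(h * (phi a z).re)) := by
    intro z
    rw [hg]
    simp only
    rw [norm_mul, Complex.norm_exp]
    congr 2
    simp
  have hsub : ball (5 : ℂ) (5 - η0 / 4) ⊆ ball 5 5 := ball_subset_ball (by linarith)
  have hgd : DifferentiableOn ℂ g (ball 5 (5 - η0 / 4)) := by
    rw [hg]
    have h1 := (phi_diff (a := a)).mono hsub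
    exact (hG.comp_differentiableOn h1).mul ((h1.const_mul _).cexp)
  have R := H h g hh hgd ?_ ?_ ?_
  · -- conclusion
    have hun : 0 < ‖u‖ := by linarith
    have hρu : ρ ≤ Real.exp (Real.log (‖u‖ / 5) / a) := by
      refine hρ2.trans (Real.exp_le_exp.2 ?_)
      apply div_le_div_of_nonneg_right _ ha.le
      apply Real.log_le_log (by positivity)
      linarith
    obtain ⟨z, hz, hzu⟩ := phi_inv ha ha1 hρ0 hu hρu hu1 hus
    have h1 := R z (by
      rw [mem_closedBall, dist_eq_norm, hη0]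
      exact hz)
    rw [hgn, hzu] at h1
    calc ‖G u‖ = ‖G u‖ * Real.exp (-(h * u.re)) * Real.exp (h * u.re) := by
          rw [mul_assoc, ← Real.exp_add, neg_add_cancel, Real.exp_zero, mul_one]
      _ ≤ Real.exp (η * h) * Real.exp (h * u.re) := mul_le_mul_of_nonneg_right h1 (Real.exp_pos _).le
      _ = _ := by rw [← Real.exp_add, add_comm]
  · -- zero-free
    intro z hz
    rw [mem_ball, dist_eq_norm] at hz
    obtain ⟨p1, p2, p3⟩ := phi_cone ha ha1 (z := z) (by linarith)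
    obtain ⟨q1, q2⟩ := hphi z hz
    rw [hg]
    apply mul_ne_zero _ (Complex.exp_ne_zero _)
    apply hz0 _ (by linarith) _ p2.le
    linarith
  · -- upper bound
    intro z hz
    rw [mem_ball, dist_eq_norm] at hz
    obtain ⟨p1, p2, p3⟩ := phi_cone ha ha1 (z := z) (by linarith)
    obtain ⟨q1, q2⟩ := hphi z hz
    rw [hgn]
    have h1 := hup (phi a z) (by linarith)
    calc _ ≤ Real.exp (M1 * h) * 1 := by
          apply mul_le_mul h1 _ (Real.exp_pos _).le (Real.exp_pos _).le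
          rw [Real.exp_le_one_iff]
          have := mul_pos hh p3
          linarith
      _ ≤ _ := by rw [mul_one]
  · -- small ball
    intro z hz
    rw [mem_ball, dist_eq_norm] at hz
    have hl := cay_small hz
    have hx : ‖(a : ℂ) * Complex.log (cay z)‖ ≤ 1 / 10 := by
      rw [norm_mul, Complex.norm_real, Real.norm_eq_abs, abs_of_pos ha]
      calc a * ‖Complex.log (cay z)‖ ≤ 1 / 40 * 4 := mul_le_mul ha1 hl (norm_nonneg _) (by norm_num)
        _ = 1 / 10 := by norm_num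
    obtain ⟨x, hxx⟩ : ∃ x : ℂ, x = (a : ℂ) * Complex.log (cay z) := ⟨_, rfl⟩
    rw [← hxx] at hx
    have h1 := Complex.norm_exp_sub_one_sub_id_le (x := x) (by linarith)
    have h2 : ‖cexp x - 1‖ ≤ 1 / 5 := by
      have e : cexp x - 1 = (cexp x - 1 - x) + x := by ring
      rw [e]
      refine (norm_add_le _ _).trans ?_
      have := norm_nonneg x
      nlinarith
    have e1 : phi a z - 5 = 5 * (cexp x - 1) := by
      unfold phi
      rw [hxx]
      ring
    have h3 : ‖phi a z - 5‖ ≤ 1 := by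
      rw [e1, norm_mul]
      have h5 : ‖(5 : ℂ)‖ = 5 := by simp
      rw [h5]
      linarith
    obtain ⟨u2, u1⟩ := hsm (phi a z) h3
    rw [hgn]
    constructor
    · calc Real.exp (-(ε * h)) = Real.exp (h * (phi a z).re - ε * h) * Real.exp (-(h * (phi a z).re)) := by
            rw [← Real.exp_add]
            congr 1
            ring
        _ ≤ _ := mul_le_mul_of_nonneg_right u2 (Real.exp_pos _).le
    · calc _ ≤ Real.exp (h * (phi a z).re + ε * h) * Real.exp (-(h * (phi a z).re)) :=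
            mul_le_mul_of_nonneg_right u1 (Real.exp_pos _).le
        _ = _ := by
            rw [← Real.exp_add]
            congr 1
            ring

/-- the estimate in the cone, few zeros -/
theorem cone1 (a r η : ℝ) (ha : 0 < a) (ha1 : a ≤ 1 / 40) (hr : 0 < r) (hη : 0 < η) :
    ∃ κ r' R : ℝ, 0 < κ ∧ κ ≤ 1 ∧ 0 < r' ∧ 1 ≤ R ∧ ∀ (h : ℝ) (G : ℂ → ℂ), 0 < h → Differentiable ℂ G →
      (∀ u : ℂ, ‖u‖ ≤ R → ‖G u‖ ≤ Real.exp (h * max |u.re| 3 + κ * h)) →
      (∀ u : ℂ, 3 ≤ u.re → ‖u‖ ≤ R → Real.exp (h * u.re - κ * h) ≤ ‖G u‖) →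
      (∀ S : Finset ℂ, (∀ z ∈ S, G z = 0 ∧ r' ≤ z.re ∧ |z.im| ≤ 4 * a * z.re) →
        ∑ z ∈ S, (analyticOrderNatAt G z : ℝ) ≤ κ * h) →
      ∀ u : ℂ, 0 < u.re → r ≤ ‖u‖ → ‖u‖ ≤ 1 → |u.im| ≤ Real.sin (a * (Real.pi / 4)) * ‖u‖ →
        ‖G u‖ ≤ Real.exp (h * u.re + η * h) := by
  obtain ⟨r', R, hr', hR, H⟩ := cone0 a r η ha ha1 hr hη
  obtain ⟨κ1, hκ1, hκ11, H⟩ := H (2 * R + 4) (by linarith)
  obtain ⟨q, hq⟩ : ∃ q : ℝ, q = Real.log (4 * R) := ⟨_, rfl⟩
  have hR0 : 0 < R := by linarith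
  have hq0 : 0 < q := by
    rw [hq]; apply Real.log_pos
    linarith
  have hqe : Real.exp q = 4 * R := by rw [hq, Real.exp_log (by positivity)]
  obtain ⟨κ, hκ⟩ : ∃ κ : ℝ, κ = κ1 / (1 + q) := ⟨_, rfl⟩
  have hκ0 : 0 < κ := by rw [hκ]; positivity
  have hκq : κ + κ * q = κ1 := by rw [hκ]; field_simp
  have hκle : κ ≤ κ1 := by
    have : 0 < κ * q := by positivity
    linarith
  refine ⟨κ, r', 2 * R, hκ0, by linarith, hr', by linarith, ?_⟩
  intro h G hh hG hup hlo hfew u hu hur hu1 hus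
  have hG5 : G 5 ≠ 0 := by
    have h5 : ‖(5 : ℂ)‖ = 5 := by simp
    have := hlo 5 (by norm_num) (by rw [h5]; linarith)
    rw [← norm_pos_iff]
    exact lt_of_lt_of_le (Real.exp_pos _) this
  obtain ⟨W, hW⟩ : ∃ W : Set ℂ, W = {z : ℂ | r' ≤ z.re ∧ |z.im| ≤ 4 * a * z.re} ∩ closedBall 0 R := ⟨_, rfl⟩
  have hWc : IsCompact W := by
    rw [hW]
    apply IsCompact.inter_left (isCompact_closedBall _ _)
    exact (isClosed_le continuous_const Complex.continuous_re).inter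
      (isClosed_le (Complex.continuous_im.abs) (continuous_const.mul Complex.continuous_re))
  have hfin := zfin hG ⟨5, hG5⟩ hWc
  obtain ⟨Z, hZ⟩ : ∃ Z : Finset ℂ, Z = hfin.toFinset := ⟨_, rfl⟩
  have hZm : ∀ z, z ∈ Z ↔ z ∈ W ∧ G z = 0 := by
    intro z; rw [hZ, Set.Finite.mem_toFinset]; rfl
  have hZp : ∀ z ∈ Z, r' ≤ z.re ∧ |z.im| ≤ 4 * a * z.re ∧ ‖z‖ ≤ R ∧ G z = 0 := by
    intro z hz
    obtain ⟨h1, h2⟩ := (hZm z).1 hz
    rw [hW] at h1
    refine ⟨h1.1.1, h1.1.2, ?_, h2⟩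
    have := h1.2
    rwa [mem_closedBall, dist_zero_right] at this
  obtain ⟨G1, hG1, hGZ, hFG⟩ := fac Z hG ⟨5, hG5⟩
  obtain ⟨N, hN⟩ : ∃ N : ℕ, N = ∑ z ∈ Z, analyticOrderNatAt G z := ⟨_, rfl⟩
  have hNL : (N : ℝ) ≤ κ * h := by
    have := hfew Z (fun z hz => ⟨(hZp z hz).2.2.2, (hZp z hz).1, (hZp z hz).2.1⟩)
    rw [hN]; push_cast; exact this
  have hlow : ∀ (w : ℂ) (b : ℝ), 0 ≤ b → (∀ z ∈ Z, b ≤ ‖w - z‖) →
      b ^ N ≤ ‖∏ z ∈ Z, (w - z) ^ (analyticOrderNatAt G z)‖ := by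
    intro w b hb hw
    rw [norm_prod, hN, ← Finset.prod_pow_eq_pow_sum]
    refine Finset.prod_le_prod (fun z _ => by positivity) fun z hz => ?_
    rw [norm_pow]
    exact pow_le_pow_left₀ hb (hw z hz) _
  have hupp : ∀ (w : ℂ) (b : ℝ), (∀ z ∈ Z, ‖w - z‖ ≤ b) →
      ‖∏ z ∈ Z, (w - z) ^ (analyticOrderNatAt G z)‖ ≤ b ^ N := by
    intro w b hw
    rw [norm_prod, hN, ← Finset.prod_pow_eq_pow_sum]
    refine Finset.prod_le_prod (fun z _ => norm_nonneg _) fun z hz => ?_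
    rw [norm_pow]
    exact pow_le_pow_left₀ (norm_nonneg _) (hw z hz) _
  obtain ⟨A, hA⟩ : ∃ A : ℝ, A = (4 * R) ^ N := ⟨_, rfl⟩
  have hA0 : 0 < A := by rw [hA]; positivity
  have hAe : A = Real.exp (N * q) := by rw [hA, Real.exp_nat_mul, hqe]
  obtain ⟨G2, hG2⟩ : ∃ G2 : ℂ → ℂ, G2 = fun w => (A : ℂ) * G1 w := ⟨_, rfl⟩
  have hG2n : ∀ w, ‖G2 w‖ = A * ‖G1 w‖ := by
    intro w
    rw [hG2]
    simp only
    rw [norm_mul, Complex.norm_real, Real.norm_eq_abs, abs_of_pos hA0]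
  have hG2d : Differentiable ℂ G2 := by rw [hG2]; exact hG1.const_mul _
  -- upper bound for G by G2 in the ball of radius 2 R
  have hle : ∀ w : ℂ, ‖w‖ ≤ 2 * R → ‖G w‖ ≤ ‖G2 w‖ := by
    intro w hw
    have h1 := hupp w (4 * R) (fun z hz => by
      have h2 := (hZp z hz).2.2.1
      have := norm_sub_le w z
      linarith)
    rw [hG2n, hFG w, norm_mul, hA]
    exact mul_le_mul_of_nonneg_right h1 (norm_nonneg _)
  have hge : ∀ (w : ℂ) (b : ℝ), 0 < b → (∀ z ∈ Z, b ≤ ‖w - z‖) → ‖G2 w‖ ≤ (4 * R / b) ^ N * ‖G w‖ := by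
    intro w b hb hw
    have h1 := hlow w b hb.le hw
    rw [hG2n, hFG w, norm_mul, hA, div_pow]
    have h2 : (4 * R) ^ N / b ^ N * (b ^ N * ‖G1 w‖) ≤ (4 * R) ^ N / b ^ N *
        (‖∏ z ∈ Z, (w - z) ^ (analyticOrderNatAt G z)‖ * ‖G1 w‖) := by
      apply mul_le_mul_of_nonneg_left _ (by positivity)
      exact mul_le_mul_of_nonneg_right h1 (norm_nonneg _)
    have h3 : (4 * R) ^ N / b ^ N * (b ^ N * ‖G1 w‖) = (4 * R) ^ N * ‖G1 w‖ := by
      field_simp
    rw [h3] at h2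
    exact h2
  have hNh : (N : ℝ) ≤ h := by
    have : κ * h ≤ 1 * h := mul_le_mul_of_nonneg_right (by linarith) hh.le
    linarith
  have hbig : ∀ w : ℂ, ‖w‖ ≤ 2 * R → ‖G2 w‖ ≤ Real.exp ((2 * R + 4) * h) := by
    intro w hw
    refine Complex.norm_le_of_forall_mem_frontier_norm_le (U := ball (0 : ℂ) (2 * R)) isBounded_ball
      hG2d.diffContOnCl ?_ (by rw [closure_ball _ (by linarith), mem_closedBall, dist_zero_right]; exact hw)
    intro z hz
    rw [frontier_ball _ (by linarith), mem_sphere, dist_zero_right] at hz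
    have h1 := hge z R hR0 (fun y hy => by
      have h2 := (hZp y hy).2.2.1
      have := norm_sub_norm_le z y
      linarith)
    have e4 : 4 * R / R = 4 := by field_simp
    rw [e4] at h1
    have h2 := hup z (by linarith)
    have h3 : max |z.re| 3 ≤ 2 * R := by
      apply max_le
      · have := Complex.abs_re_le_norm z
        linarith
      · linarith
    have h4 : (4 : ℝ) ^ N ≤ Real.exp (2 * h) := by
      have h5 : (4 : ℝ) ≤ Real.exp 2 := by
        have h7 := Real.exp_one_gt_d9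
        have h8 : Real.exp 2 = Real.exp 1 * Real.exp 1 := by rw [← Real.exp_add]; norm_num
        rw [h8]
        nlinarith
      calc (4 : ℝ) ^ N ≤ (Real.exp 2) ^ N := by gcongr
        _ = Real.exp (N * 2) := by rw [← Real.exp_nat_mul]
        _ ≤ _ := by apply Real.exp_le_exp.2; linarith
    calc ‖G2 z‖ ≤ 4 ^ N * ‖G z‖ := h1
      _ ≤ Real.exp (2 * h) * Real.exp (h * max |z.re| 3 + κ * h) :=
          mul_le_mul h4 h2 (norm_nonneg _) (Real.exp_pos _).le
      _ ≤ _ := by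
          rw [← Real.exp_add]
          apply Real.exp_le_exp.2
          have h5 := mul_le_mul_of_nonneg_left h3 hh.le
          have h6 : κ * h ≤ 1 * h := mul_le_mul_of_nonneg_right (by linarith) hh.le
          linarith
  have hfinal := H h G2 hh hG2d (fun w hw => hbig w (by linarith)) ?_ ?_ u hu hur hu1 hus
  · exact (hle u (by linarith)).trans hfinal
  · intro w hw
    have h4 := abs_le.1 ((Complex.abs_re_le_norm (w - 5)).trans hw)
    simp at h4
    have h5 : ‖w‖ ≤ 6 := by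
      have := norm_add_le (w - 5) (5 : ℂ)
      have h6 : ‖(5 : ℂ)‖ = 5 := by simp
      rw [sub_add_cancel, h6] at this
      linarith
    have hre3 : 3 ≤ w.re := by linarith
    have h7 : max |w.re| 3 = w.re := by
      rw [abs_of_nonneg (by linarith), max_eq_left hre3]
    have u1 := hup w (by linarith)
    have u2 := hlo w hre3 (by linarith)
    rw [h7] at u1
    constructor
    · refine (le_trans ?_ u2).trans (hle w (by linarith))
      apply Real.exp_le_exp.2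
      have := mul_le_mul_of_nonneg_right hκle hh.le
      linarith
    · have h8 := hge w 1 one_pos (fun z hz => by
        have h9 : z.re < 3 := by
          by_contra hcon
          have h10 := hlo z (not_lt.1 hcon) (by have := (hZp z hz).2.2.1; linarith)
          rw [(hZp z hz).2.2.2, norm_zero] at h10
          have := Real.exp_pos (h * z.re - κ * h)
          linarith
        have h11 := (le_abs_self _).trans (Complex.abs_re_le_norm (w - z))
        rw [Complex.sub_re] at h11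
        linarith)
      rw [div_one, ← hA, hAe] at h8
      calc ‖G2 w‖ ≤ Real.exp (N * q) * ‖G w‖ := h8
        _ ≤ Real.exp (N * q) * Real.exp (h * w.re + κ * h) :=
            mul_le_mul_of_nonneg_left u1 (Real.exp_pos _).le
        _ ≤ _ := by
            rw [← Real.exp_add]
            apply Real.exp_le_exp.2
            have h9 := mul_le_mul_of_nonneg_right hNL hq0.le
            have h10 : κ * h + κ * h * q = κ1 * h := by rw [← hκq]; ring
            linarith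
  · intro w hw1 hw2 hw3 h0
    have h1 : G1 w = 0 := by
      rw [hG2] at h0
      rcases mul_eq_zero.1 h0 with h2 | h2
      · exfalso
        exact hA0.ne' (by exact_mod_cast h2)
      · exact h2
    have hwG : G w = 0 := by rw [hFG w, h1, mul_zero]
    have hwZ : w ∈ Z := by
      rw [hZm, hW]
      refine ⟨⟨⟨hw2, hw3⟩, ?_⟩, hwG⟩
      rw [mem_closedBall, dist_zero_right]
      exact hw1
    exact hGZ w hwZ h1

end Pool.Agent.TH839.CN
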