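import Pool.Agent.TH839.TU.Cn2

/-!
# Project CN: from the edges of the cone to its apex
-/

set_option autoImplicit false

open Complex Filter Topology Set Metric
open scoped ComplexConjugate

namespace Pool.Agent.TH839.CN

/-- the maximum principle in the complementary sector -/
theorem sector {s M r η h : ℝ} (hs : 0 < s) (hM : 0 ≤ M) (hr : 0 < r) (hη : 0 ≤ η)
    (hh : 0 < h) {G : ℂ → ℂ} (hG : Differentiable ℂ G) (h1 : ∀ u : ℂ, ‖u‖ ≤ 1 → ‖G u‖ ≤ Real.exp (M * h))
    (h2 : ∀ u : ℂ, r ≤ ‖u‖ → ‖u‖ ≤ 1 → |u.im| ≤ s * ‖u‖ → ‖G u‖ ≤ Real.exp (h * ‖u‖ + η * h)) :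
    ∀ u : ℂ, r < ‖u‖ → ‖u‖ < 1 → s * ‖u‖ < u.im →
      ‖G u‖ ≤ Real.exp (h * ((M + 1) / s * ‖u‖ + M * r / s / ‖u‖ + η)) := by
  obtain ⟨A, hA⟩ : ∃ A : ℝ, A = (M + 1) / s := ⟨_, rfl⟩
  obtain ⟨B, hB⟩ : ∃ B : ℝ, B = M * r / s := ⟨_, rfl⟩
  have hA0 : 0 < A := by rw [hA]; positivity
  have hB0 : 0 ≤ B := by rw [hB]; positivity
  have hAs : A * s = M + 1 := by rw [hA]; field_simp
  have hBs : B * s = M * r := by rw [hB]; field_simp
  obtain ⟨U, hU⟩ : ∃ U : Set ℂ, U = {u : ℂ | r < ‖u‖ ∧ ‖u‖ < 1 ∧ s * ‖u‖ < u.im} := ⟨_, rfl⟩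
  obtain ⟨V, hV⟩ : ∃ V : Set ℂ, V = {u : ℂ | r ≤ ‖u‖ ∧ ‖u‖ ≤ 1 ∧ s * ‖u‖ ≤ u.im} := ⟨_, rfl⟩
  have hVc : IsClosed V := by
    rw [hV]
    refine (isClosed_le continuous_const continuous_norm).inter
      ((isClosed_le continuous_norm continuous_const).inter
        (isClosed_le (continuous_const.mul continuous_norm) Complex.continuous_im))
  have hUo : IsOpen U := by
    rw [hU]
    refine (isOpen_lt continuous_const continuous_norm).inter
      ((isOpen_lt continuous_norm continuous_const).inter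
        (isOpen_lt (continuous_const.mul continuous_norm) Complex.continuous_im))
  have hUV : U ⊆ V := by
    rw [hU, hV]
    intro u hu
    exact ⟨hu.1.le, hu.2.1.le, hu.2.2.le⟩
  have hcl : closure U ⊆ V := closure_minimal hUV hVc
  have hUb : Bornology.IsBounded U := by
    refine (Metric.isBounded_closedBall (x := (0 : ℂ)) (r := 1)).subset ?_
    intro u hu
    rw [hU] at hu
    rw [mem_closedBall, dist_zero_right]
    exact hu.2.1.le
  have hV0 : ∀ u ∈ V, u ≠ 0 := by
    intro u hu h0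
    rw [hV] at hu
    have := hu.1
    rw [h0, norm_zero] at this
    linarith
  obtain ⟨F, hF⟩ : ∃ F : ℂ → ℂ, F = fun u => G u * cexp (-(h : ℂ) * ((A : ℂ) * (-I * u) + (B : ℂ) * (I / u) +
    (η : ℂ))) := ⟨_, rfl⟩
  have hFn : ∀ u : ℂ, ‖F u‖ = ‖G u‖ * Real.exp (-(h * (A * u.im + B * (u.im / ‖u‖ ^ 2) + η))) := by
    intro u
    rw [hF]
    simp only
    rw [norm_mul, Complex.norm_exp]
    congr 2
    have e1 : (I / u).re = u.im / ‖u‖ ^ 2 := by
      rw [Complex.div_re, ← Complex.normSq_eq_norm_sq]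
      simp
    have e2 : (-(h : ℂ) * ((A : ℂ) * (-I * u) + (B : ℂ) * (I / u) + (η : ℂ))).re =
        -(h * (A * (-I * u).re + B * (I / u).re + η)) := by
      have e3 : -(h : ℂ) * ((A : ℂ) * (-I * u) + (B : ℂ) * (I / u) + (η : ℂ)) =
        ((-h : ℝ) : ℂ) * (((A : ℝ) : ℂ) * (-I * u) + ((B : ℝ) : ℂ) * (I / u) + ((η : ℝ) : ℂ)) := by
        push_cast
        ring
      rw [e3, Complex.re_ofReal_mul, Complex.add_re, Complex.add_re, Complex.re_ofReal_mul,
        Complex.re_ofReal_mul, Complex.ofReal_re]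
      ring
    rw [e2, e1]
    have e4 : (-I * u).re = u.im := by simp
    rw [e4]
  have hFd : DifferentiableOn ℂ F V := by
    rw [hF]
    intro u hu
    have h0 := hV0 u hu
    have d1 : DifferentiableAt ℂ (fun u : ℂ => (A : ℂ) * (-I * u) + (B : ℂ) * (I / u) + (η : ℂ)) u := by
      have : DifferentiableAt ℂ (fun u : ℂ => I / u) u := (differentiableAt_const _).div differentiableAt_id h0
      fun_prop
    exact ((hG u).mul ((d1.const_mul _).cexp)).differentiableWithinAt
  have hdc : DiffContOnCl ℂ F U :=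
    ⟨hFd.mono hUV, hFd.continuousOn.mono hcl⟩
  have hfr : ∀ u ∈ frontier U, ‖F u‖ ≤ 1 := by
    intro u hu
    rw [hUo.frontier_eq] at hu
    have huV := hcl hu.1
    have huU := hu.2
    have hu0 := hV0 u huV
    have hun : 0 < ‖u‖ := norm_pos_iff.2 hu0
    rw [hV] at huV
    obtain ⟨v1, v2, v3⟩ := huV
    have him : 0 < u.im := lt_of_lt_of_le (by positivity) v3
    rw [hFn]
    have key : ∀ x : ℝ, ‖G u‖ ≤ Real.exp (h * x) → x ≤ A * u.im + B * (u.im / ‖u‖ ^ 2) + η →
        ‖G u‖ * Real.exp (-(h * (A * u.im + B * (u.im / ‖u‖ ^ 2) + η))) ≤ 1 := by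
      intro x hx hx2
      calc _ ≤ Real.exp (h * x) * Real.exp (-(h * (A * u.im + B * (u.im / ‖u‖ ^ 2) + η))) :=
            mul_le_mul_of_nonneg_right hx (Real.exp_pos _).le
        _ ≤ 1 := by
            rw [← Real.exp_add, Real.exp_le_one_iff]
            have := mul_le_mul_of_nonneg_left hx2 hh.le
            linarith
    have t1 : 0 ≤ A * u.im := by positivity
    have t2 : 0 ≤ B * (u.im / ‖u‖ ^ 2) := by positivity
    by_cases c1 : r < ‖u‖
    · by_cases c2 : ‖u‖ < 1
      · -- the edge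
        have c3 : u.im = s * ‖u‖ := by
          apply le_antisymm _ v3
          by_contra hcon
          apply huU
          rw [hU]
          exact ⟨c1, c2, not_le.1 hcon⟩
        apply key (‖u‖ + η)
        · have := h2 u v1 v2 (by rw [abs_of_pos him, c3])
          refine this.trans (Real.exp_le_exp.2 ?_)
          linarith
        · have e : A * u.im = (M + 1) * ‖u‖ := by rw [c3, ← mul_assoc, hAs]
          rw [e]
          have : 0 ≤ M * ‖u‖ := by positivity
          linarith
      · have c3 : ‖u‖ = 1 := le_antisymm v2 (not_lt.1 c2)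
        apply key M
        · have := h1 u v2
          rwa [mul_comm] at this
        · rw [c3, mul_one] at v3
          have := mul_le_mul_of_nonneg_left v3 hA0.le
          rw [hAs] at this
          linarith
    · have c3 : ‖u‖ = r := le_antisymm (not_lt.1 c1) v1
      apply key M
      · have := h1 u v2
        rwa [mul_comm] at this
      · have e : M ≤ B * (u.im / ‖u‖ ^ 2) := by
          rw [c3] at v3 ⊢
          rw [← mul_div_assoc, le_div_iff₀ (by positivity)]
          have h3 := mul_le_mul_of_nonneg_left v3 hB0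
          have h4 : B * (s * r) = M * r ^ 2 := by rw [← mul_assoc, hBs]; ring
          linarith
        linarith
  intro u hu1 hu2 hu3
  have huU : u ∈ U := by rw [hU]; exact ⟨hu1, hu2, hu3⟩
  have h3 := Complex.norm_le_of_forall_mem_frontier_norm_le hUb hdc hfr (subset_closure huU)
  rw [hFn] at h3
  have hun : 0 < ‖u‖ := by linarith
  have him : u.im ≤ ‖u‖ := (le_abs_self _).trans (Complex.abs_im_le_norm u)
  have him0 : 0 < u.im := lt_of_le_of_lt (by positivity) hu3
  rw [← hA, ← hB]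
  have h4 : ‖G u‖ ≤ Real.exp (h * (A * u.im + B * (u.im / ‖u‖ ^ 2) + η)) := by
    have h5 := mul_le_mul_of_nonneg_right h3 (Real.exp_pos (h * (A * u.im + B * (u.im / ‖u‖ ^ 2) + η))).le
    rw [mul_assoc, ← Real.exp_add, neg_add_cancel, Real.exp_zero, mul_one, one_mul] at h5
    exact h5
  refine h4.trans (Real.exp_le_exp.2 ?_)
  apply mul_le_mul_of_nonneg_left _ hh.le
  have h6 : A * u.im ≤ A * ‖u‖ := mul_le_mul_of_nonneg_left him hA0.le
  have h7 : u.im / ‖u‖ ^ 2 ≤ 1 / ‖u‖ := by
    rw [div_le_div_iff₀ (by positivity) hun]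
    nlinarith
  have h8 : B * (u.im / ‖u‖ ^ 2) ≤ B / ‖u‖ := by
    have := mul_le_mul_of_nonneg_left h7 hB0
    rw [mul_one_div] at this
    exact this
  linarith

/-- from the cone to the apex -/
theorem apex {s M r η h : ℝ} (hs : 0 < s) (hs1 : s ≤ 1) (hM : 0 ≤ M) (hr : 0 < r) (hr1 : r < 1)
    (hη : 0 ≤ η) (hh : 0 < h) {G : ℂ → ℂ} (hG : Differentiable ℂ G)
    (h1 : ∀ u : ℂ, ‖u‖ ≤ 1 → ‖G u‖ ≤ Real.exp (M * h))
    (h2 : ∀ u : ℂ, r ≤ ‖u‖ → ‖u‖ ≤ 1 → |u.im| ≤ s * ‖u‖ → ‖G u‖ ≤ Real.exp (h * ‖u‖ + η * h)) :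
    ‖G 0‖ ≤ Real.exp (h * ((2 * M + 1) / s * √r + η)) := by
  obtain ⟨q, hq⟩ : ∃ q : ℝ, q = √r := ⟨_, rfl⟩
  have hq0 : 0 < q := by rw [hq]; exact Real.sqrt_pos.2 hr
  have hqq : q * q = r := by rw [hq]; exact Real.mul_self_sqrt hr.le
  have hq1 : q < 1 := by
    by_contra hcon
    have := not_lt.1 hcon
    nlinarith
  have hrq : r < q := by nlinarith
  rw [← hq]
  have hEq : (M + 1) / s * q + M * r / s / q + η = (2 * M + 1) / s * q + η := by
    rw [← hqq]
    field_simp
    ring
  have hcirc : ∀ u : ℂ, ‖u‖ = q → ‖G u‖ ≤ Real.exp (h * ((2 * M + 1) / s * q + η)) := by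
    intro u hu
    rcases le_or_gt |u.im| (s * ‖u‖) with h3 | h3
    · have h4 := h2 u (by linarith) (by linarith) h3
      refine h4.trans (Real.exp_le_exp.2 ?_)
      rw [hu]
      have h5 : q ≤ (2 * M + 1) / s * q := by
        have : 1 ≤ (2 * M + 1) / s := by
          rw [le_div_iff₀ hs]
          linarith
        have := mul_le_mul_of_nonneg_right this hq0.le
        linarith
      have h6 := mul_le_mul_of_nonneg_left h5 hh.le
      linarith
    · rcases abs_cases u.im with ⟨h4, -⟩ | ⟨h4, -⟩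
      · rw [h4] at h3
        have h5 := sector hs hM hr hη hh hG h1 h2 u (by linarith) (by linarith) h3
        rw [hu, hEq] at h5
        exact h5
      · rw [h4] at h3
        have hG' : Differentiable ℂ fun v : ℂ => G (-v) := hG.comp differentiable_neg
        have h5 := sector (G := fun v : ℂ => G (-v)) hs hM hr hη hh hG'
          (fun v hv => h1 (-v) (by rwa [norm_neg]))
          (fun v v1 v2 v3 => by
            have := h2 (-v) (by rwa [norm_neg]) (by rwa [norm_neg]) (by
              rw [norm_neg, Complex.neg_im, abs_neg]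
              exact v3)
            rwa [norm_neg] at this)
          (-u) (by rw [norm_neg]; linarith) (by rw [norm_neg]; linarith) (by
            rw [norm_neg, Complex.neg_im]
            exact h3)
        simp only [neg_neg, norm_neg] at h5
        rw [hu, hEq] at h5
        exact h5
  have h3 := Complex.norm_le_of_forall_mem_frontier_norm_le (f := G) (U := ball (0 : ℂ) q)
    Metric.isBounded_ball hG.diffContOnCl (C := Real.exp (h * ((2 * M + 1) / s * q + η)))
    (fun u hu => by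
      rw [frontier_ball _ hq0.ne', mem_sphere, dist_zero_right] at hu
      exact hcirc u hu)
    (subset_closure (mem_ball_self hq0))
  exact h3

end Pool.Agent.TH839.CN
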