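import Pool.Agent.TH839.TU.App
import Pool.Agent.TH839.SC.FamM

/-!
# Project TU: families
-/

set_option autoImplicit false

open Complex Filter Topology Set
open scoped ComplexConjugate

namespace Pool.Agent.TH839.TU

open Pool.Agent.W169.HF H353.E Pool.Agent.W355.UN Pool.Agent.TH839.UH Pool.Agent.TH839.UH.EP
open Pool.Agent.TH839.LD Pool.Agent.TH839.SC
open Pool.Agent.TH839.UH.NF (B0 B0_nonneg)

variable {ι : Type}

/-- two-sided bounds to the right of the critical strip -/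
def Rb2 (L : ι → ℂ → ℂ) (C : ι → ℝ → ℝ) : Prop := ∀ a1 : ℝ, 1 / 2 < a1 → a1 ≤ 1 → ∀ κ : ℝ, 0 < κ →
  ∃ K : ℝ, 0 < K ∧ ∀ (i : ι) (T : ℝ), K⁻¹ * C i T ^ (-κ) ≤ ‖L i (1 / 2 + (T : ℂ) * I + (a1 : ℂ))‖ ∧
    ‖L i (1 / 2 + (T : ℂ) * I + (a1 : ℂ))‖ ≤ K * C i T ^ κ

lemma Tur.mono {Φ : ℂ → ℂ} {c x y : ℝ} (h : Tur Φ c x) (hy : y ≤ x) : Tur Φ c y :=
  fun n hn => h n (hn.trans hy)

/-- inequalities of Turan type give small values -/
theorem famT (m : ℕ) (q κ0 ε c : ℝ) (hq0 : 0 ≤ q) (hq2 : q ≤ 2) (hκ0 : 0 < κ0) (hε : 0 < ε) (hc0 : 0 < c)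
    (e : ι → ℕ) (N : ι → ℝ)
    (a : ι → Fin m → ℂ) (α : ι → Nat.Primes → Fin m → ℂ) (X : ι → ℂ → ℂ)
    (h : ∀ i, HW m (e i) (N i) (a i) (α i) (X i)) (ha : ∀ i j, -1 / 2 + c ≤ (a i j).re)
    (hR : Rb2 (fun i s => X i s / gm (e i) (N i) (a i) s) (fun i => cd (N i) (a i))) :
    ∃ X0 : ℝ, ∀ (i : ι) (T : ℝ), X0 ≤ cd (N i) (a i) T →
      (Tur (Sq (X i) T) q ((1 / 4 + κ0) * Real.log (cd (N i) (a i) T)) ∨
        (T = 0 ∧ (∀ s, X i (1 - s) = X i s) ∧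
          Tur (fun u => X i (1 / 2 + u)) q ((1 / 8 + κ0) * Real.log (cd (N i) (a i) T)))) →
      ‖X i (1 / 2 + (T : ℂ) * I) / gm (e i) (N i) (a i) (1 / 2 + (T : ℂ) * I)‖ ≤
        cd (N i) (a i) T ^ ((2 - q) / 8 + ε) := by
  have hB := B0_nonneg
  have hm0 : (0 : ℝ) ≤ m := Nat.cast_nonneg m
  obtain ⟨a1, R, κ, W', h0, ha1, ha1', hR1, hR2, hκ, H⟩ := appT m (4 * B0 + 2) q κ0 ε (by linarith)
    hq0 hq2 hκ0 hε
  obtain ⟨W, hW⟩ : ∃ W : ℝ, W = max W' 0 := ⟨_, rfl⟩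
  have hWW : W' ≤ W := by rw [hW]; exact le_max_left _ _
  have hW0 : 0 ≤ W := by rw [hW]; exact le_max_right _ _
  obtain ⟨h1, H1⟩ := hc_win m W hW0
  obtain ⟨K, hK, HK⟩ := cmp m c hc0
  obtain ⟨K2, hK2, HK2⟩ := cmpt2 m c a1 hc0 (by linarith) (by linarith) (by linarith)
  obtain ⟨K3, hK3, HK3⟩ := hR a1 ha1 (by linarith) (κ / 4) (by positivity)
  obtain ⟨K5, hK5, HK5⟩ := cmpt2 m c R hc0 (by linarith) (by linarith) (by linarith)
  obtain ⟨K6, hK6, HK6⟩ := hR R hR1 (by linarith) (κ / 4) (by positivity)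
  have E : ∀ C k : ℝ, 0 < k → ∀ᶠ h : ℝ in atTop, C ≤ k * h := fun C k hk =>
    (tendsto_id.const_mul_atTop hk).eventually_ge_atTop C
  obtain ⟨y0, hy0⟩ := eventually_atTop.1 (Real.tendsto_log_atTop.eventually
    ((E 2 1 one_pos).and ((E (2 * h0) 1 one_pos).and ((E (2 * h1 + 2 * W) 1 one_pos).and
    ((E (Real.log K) (ε / 2) (by positivity)).and
    ((E (Real.log (K3 * K2)) (κ / 8) (by positivity)).and
    (E (Real.log (K6 * K5)) (κ / 4) (by positivity))))))))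
  refine ⟨max y0 1, ?_⟩
  intro i T hX0 hT
  obtain ⟨l, hl⟩ : ∃ l : ℝ, l = Real.log (cd (N i) (a i) T) := ⟨_, rfl⟩
  have hcd := hc_cd (N i) (a i) T
  obtain ⟨b1, b2, b3, b4, b5, b6⟩ := hy0 _ ((le_max_left _ _).trans hX0)
  rw [← hl] at hcd b1 b2 b3 b4 b5 b6 hT
  rw [one_mul] at b1 b2 b3
  have hl0 : 0 < l := by linarith
  have hwin := fun T' => H1 (N i) (fun j => -a i j) T T' (h i).hN (by rw [hcd]; linarith)
  rw [hcd] at hwin
  have hcp : 0 < cd (N i) (a i) T := lt_of_lt_of_le one_pos (one_le_cd (h i).hN (a i) T)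
  have e1 : ∀ x : ℝ, cd (N i) (a i) T ^ x = Real.exp (x * l) := by
    intro x
    rw [Real.rpow_def_of_pos hcp, ← hl, mul_comm]
  have R0 := H _ (N i) (fun j => -a i j) (X i) _ (h i).ul rfl T
    (by rw [hcd]; linarith) ?_ ?_ ?_
  · obtain ⟨hk, -⟩ := HK (e i) (N i) (a i) (α i) (X i) (h i) (ha i) T _ rfl
    rw [norm_div]
    obtain ⟨g, hg⟩ : ∃ g : ℝ, g = ‖gm (e i) (N i) (a i) (1 / 2 + (T : ℂ) * I)‖ := ⟨_, rfl⟩
    have hgp : 0 < g := by rw [hg]; exact norm_pos_iff.2 (gm_ne (h i) hc0 (ha i) T)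
    have hk' : ‖X i (7 / 2 + (T : ℂ) * I)‖ * Real.exp (-(3 * (l / 2))) ≤ K * g := by
      rw [hg, ← hcd]
      exact hk
    rw [← hg, div_le_iff₀ hgp]
    rw [hcd] at R0
    rw [e1]
    have hKl : K ≤ Real.exp (ε / 2 * l) := by
      rw [← Real.log_le_iff_le_exp hK]
      exact b4
    calc _ ≤ _ := R0
      _ ≤ (Real.exp (ε / 2 * l) * g) * Real.exp (((2 - q) / 4 + ε) * (l / 2)) := by
          refine mul_le_mul_of_nonneg_right (hk'.trans ?_) (Real.exp_pos _).le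
          exact mul_le_mul_of_nonneg_right hKl hgp.le
      _ = Real.exp (ε / 2 * l + ((2 - q) / 4 + ε) * (l / 2)) * g := by
          rw [Real.exp_add]
          ring
      _ = _ := by
          congr 2
          ring
  · intro T' hT'
    have hT'' : |T' - T| ≤ W * (l / 2) := by
      refine hT'.trans (hWW.trans ?_)
      have : W * 1 ≤ W * (l / 2) := mul_le_mul_of_nonneg_left (by linarith) hW0
      linarith
    obtain ⟨w1, w2⟩ := hwin T' hT''
    obtain ⟨-, hk⟩ := HK2 (e i) (N i) (a i) (α i) (X i) (h i) (ha i) T' _ rfl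
    have hs := (HK3 i T').2
    have hcp' : 0 < cd (N i) (a i) T' := lt_of_lt_of_le one_pos (one_le_cd (h i).hN (a i) T')
    have hcd' := hc_cd (N i) (a i) T'
    obtain ⟨g, hg⟩ : ∃ g : ℝ, g = hc (N i) (fun j => -a i j) T' := ⟨_, rfl⟩
    rw [← hg] at w1 w2 hk hcd' ⊢
    have hrp : cd (N i) (a i) T' ^ (κ / 4) = Real.exp (κ / 2 * g) := by
      rw [Real.rpow_def_of_pos hcp', hcd']
      congr 1
      ring
    simp only [hrp] at hs
    obtain ⟨Q, hQ⟩ : ∃ Q : ℝ, Q = ‖X i (7 / 2 + (T' : ℂ) * I)‖ := ⟨_, rfl⟩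
    have hQ0 : 0 < Q := by rw [hQ]; exact norm_pos_iff.2 (prf (h i).ul le_rfl 0 T').1
    rw [← hQ] at hk ⊢
    have hgm0 : gm (e i) (N i) (a i) (1 / 2 + (T' : ℂ) * I + a1) ≠ 0 := by
      intro hz
      obtain ⟨hk2, -⟩ := HK2 (e i) (N i) (a i) (α i) (X i) (h i) (ha i) T' _ rfl
      rw [hz, norm_zero, mul_zero, ← hQ] at hk2
      have := mul_pos hQ0 (Real.exp_pos (-(3 * hc (N i) (fun j => -a i j) T') +
        a1 * hc (N i) (fun j => -a i j) T'))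
      linarith
    have hgp : 0 < ‖gm (e i) (N i) (a i) (1 / 2 + (T' : ℂ) * I + a1)‖ := norm_pos_iff.2 hgm0
    rw [norm_div, div_le_iff₀ hgp] at hs
    have hKe : K3 * K2 ≤ Real.exp (κ / 2 * g) := by
      rw [← Real.log_le_iff_le_exp (by positivity)]
      have : κ / 8 * l ≤ κ / 2 * g := by
        have h5 : l / 4 ≤ g := by linarith
        have h6 := mul_le_mul_of_nonneg_left h5 (by positivity : 0 ≤ κ / 2)
        linarith
      linarith
    calc ‖X i (1 / 2 + (T' : ℂ) * I + a1)‖ ≤ K3 * Real.exp (κ / 2 * g) *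
          ‖gm (e i) (N i) (a i) (1 / 2 + (T' : ℂ) * I + a1)‖ := hs
      _ ≤ K3 * Real.exp (κ / 2 * g) * (K2 * (Q * Real.exp (-(3 * g) + a1 * g))) := by gcongr
      _ = (K3 * K2) * Real.exp (κ / 2 * g) * (Q * Real.exp (-(3 * g) + a1 * g)) := by ring
      _ ≤ Real.exp (κ / 2 * g) * Real.exp (κ / 2 * g) * (Q * Real.exp (-(3 * g) + a1 * g)) := by gcongr
      _ = Q * Real.exp (-(3 * g) + (a1 + κ) * g) := by
          have e2 : Real.exp (-(3 * g) + (a1 + κ) * g) = Real.exp (κ / 2 * g) * Real.exp (κ / 2 * g) *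
            Real.exp (-(3 * g) + a1 * g) := by
            rw [← Real.exp_add, ← Real.exp_add]
            congr 1
            ring
          rw [e2]
          ring
  · obtain ⟨hk, -⟩ := HK5 (e i) (N i) (a i) (α i) (X i) (h i) (ha i) T _ rfl
    have hs := (HK6 i T).1
    simp only [e1] at hs
    rw [hcd] at hk ⊢
    obtain ⟨Q, hQ⟩ : ∃ Q : ℝ, Q = ‖X i (7 / 2 + (T : ℂ) * I)‖ := ⟨_, rfl⟩
    have hQ0 : 0 < Q := by rw [hQ]; exact norm_pos_iff.2 (prf (h i).ul le_rfl 0 T).1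
    rw [← hQ] at hk ⊢
    obtain ⟨G, hG⟩ : ∃ G : ℝ, G = ‖gm (e i) (N i) (a i) (1 / 2 + (T : ℂ) * I + R)‖ := ⟨_, rfl⟩
    rw [← hG] at hk
    have hG0 : 0 < G := by
      by_contra hcon
      have h2 : G ≤ 0 := not_lt.1 hcon
      have h3 := mul_pos hQ0 (Real.exp_pos (-(3 * (l / 2)) + R * (l / 2)))
      have h4 : K5 * G ≤ 0 := mul_nonpos_of_nonneg_of_nonpos hK5.le h2
      linarith
    rw [norm_div, ← hG, le_div_iff₀ hG0] at hs
    have hKe : K6 * K5 ≤ Real.exp (κ / 4 * l) := by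
      rw [← Real.log_le_iff_le_exp (by positivity)]
      exact b6
    refine le_trans ?_ hs
    have h5 : Q * Real.exp (-(3 * (l / 2))) * Real.exp ((R - κ) * (l / 2)) =
        Real.exp (-(κ / 4) * l) * Real.exp (-(κ / 4 * l)) * (Q * Real.exp (-(3 * (l / 2)) + R * (l / 2))) := by
      have h6 : Real.exp (-(3 * (l / 2))) * Real.exp ((R - κ) * (l / 2)) =
          Real.exp (-(κ / 4) * l) * Real.exp (-(κ / 4 * l)) * Real.exp (-(3 * (l / 2)) + R * (l / 2)) := by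
        rw [← Real.exp_add, ← Real.exp_add, ← Real.exp_add]
        congr 1
        ring
      rw [mul_assoc, h6]
      ring
    rw [h5]
    have h7 : Real.exp (-(κ / 4 * l)) * (K6 * K5) ≤ 1 := by
      calc _ ≤ Real.exp (-(κ / 4 * l)) * Real.exp (κ / 4 * l) := by gcongr
        _ = 1 := by rw [← Real.exp_add, neg_add_cancel, Real.exp_zero]
    have h8 : Real.exp (-(κ / 4 * l)) * K5 ≤ K6⁻¹ := by
      rw [le_inv_comm₀ (by positivity) hK6, ← mul_le_mul_iff_of_pos_right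
        (by positivity : 0 < Real.exp (-(κ / 4 * l)) * K5), inv_mul_cancel₀ (by positivity)]
      linarith
    calc _ ≤ Real.exp (-(κ / 4) * l) * Real.exp (-(κ / 4 * l)) * (K5 * G) := by gcongr
      _ = (Real.exp (-(κ / 4 * l)) * K5) * Real.exp (-(κ / 4) * l) * G := by ring
      _ ≤ _ := by gcongr
  · rw [hcd]
    rcases hT with hT | ⟨hT0, hev, hT⟩
    · exact Or.inl (hT.mono (le_of_eq (by ring)))
    · refine Or.inr ⟨hT0, hev, hT.mono ?_⟩
      have : 0 < κ0 * l := by positivity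
      linarith

end Pool.Agent.TH839.TU
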