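import Pool.Agent.TH839.TU.Cn3
import Pool.Agent.TH839.TU.FamT

/-!
# Project CN: families
-/

set_option autoImplicit false

open Complex Filter Topology Set
open scoped ComplexConjugate

namespace Pool.Agent.TH839.CN

open Pool.Agent.W169.HF H353.E Pool.Agent.W355.UN Pool.Agent.TH839.UH Pool.Agent.TH839.UH.EP
open Pool.Agent.TH839.LD Pool.Agent.TH839.SC
open Pool.Agent.TH839.UH.NF (B0 B0_nonneg)

/-- few zeros in a thin cone give the Lindelof bound at its apex -/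
theorem coneF (m : ℕ) (c0 c ε : ℝ) (hc0 : 0 < c0) (hc : 0 < c) (hε : 0 < ε) : ∃ r' κ0 X0 : ℝ,
    0 < r' ∧ 0 < κ0 ∧
    ∀ (e : ℕ) (N : ℝ) (a : Fin m → ℂ) (α : Nat.Primes → Fin m → ℂ) (X : ℂ → ℂ),
      HW m e N a α X → (∀ j, -1 / 2 + c0 ≤ (a j).re) → ∀ T : ℝ, X0 ≤ cd N a T →
      (∀ S : Finset ℂ, (∀ s ∈ S, X s = 0 ∧ 1 / 2 + r' ≤ s.re ∧ |s.im - T| ≤ c * (s.re - 1 / 2)) →
        ∑ s ∈ S, (analyticOrderNatAt X s : ℝ) ≤ κ0 * Real.log (cd N a T)) →
      ‖X (1 / 2 + (T : ℂ) * I) / gm e N a (1 / 2 + (T : ℂ) * I)‖ ≤ cd N a T ^ ε := by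
  have hpi := Real.pi_lt_d2
  have hpi0 := Real.pi_pos
  obtain ⟨a0, ha0⟩ : ∃ a0 : ℝ, a0 = min (1 / 40) (c / 4) := ⟨_, rfl⟩
  have ha00 : 0 < a0 := by rw [ha0]; apply lt_min (by norm_num) (by positivity)
  have ha01 : a0 ≤ 1 / 40 := by rw [ha0]; exact min_le_left _ _
  have ha02 : a0 ≤ c / 4 := by rw [ha0]; exact min_le_right _ _
  obtain ⟨s, hs⟩ : ∃ s : ℝ, s = Real.sin (a0 * (Real.pi / 4)) := ⟨_, rfl⟩
  have hap0 : 0 < a0 * (Real.pi / 4) := by positivity
  have hap1 : a0 * (Real.pi / 4) ≤ 1 / 40 * 1 := by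
    apply mul_le_mul ha01 (by linarith) (by positivity) (by norm_num)
  have hs0 : 0 < s := by
    rw [hs]
    apply Real.sin_pos_of_pos_of_lt_pi hap0
    have := Real.pi_gt_three
    linarith
  have hs1 : s < 1 := by
    rw [hs]
    have := Real.sin_le hap0.le
    linarith
  obtain ⟨q, hq⟩ : ∃ q : ℝ, q = min (ε * s / 18) (1 / 2) := ⟨_, rfl⟩
  have hq0 : 0 < q := by rw [hq]; apply lt_min (by positivity) (by norm_num)
  have hq1 : q ≤ ε * s / 18 := by rw [hq]; exact min_le_left _ _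
  have hq2 : q ≤ 1 / 2 := by rw [hq]; exact min_le_right _ _
  obtain ⟨r, hr⟩ : ∃ r : ℝ, r = q ^ 2 := ⟨_, rfl⟩
  have hr0 : 0 < r := by rw [hr]; positivity
  have hr1 : r < 1 := by rw [hr]; nlinarith
  have hsq : √r = q := by rw [hr]; exact Real.sqrt_sq hq0.le
  obtain ⟨κ, r', R, hκ, hκ1, hr', hR, HC⟩ := cone1 a0 r (ε / 2) ha00 ha01 hr0 (by positivity)
  obtain ⟨K, hK, HK⟩ := cmp m c0 hc0
  obtain ⟨V, hV⟩ : ∃ V : ℝ, V = Kn m (4 * B0 + 2) 0 * (1 + R ^ 2) / κ := ⟨_, rfl⟩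
  have hB := B0_nonneg
  have hKn : 0 ≤ Kn m (4 * B0 + 2) 0 := Kn_nonneg (by linarith) 0
  have hV0 : 0 ≤ V := by rw [hV]; positivity
  refine ⟨r', κ / 2, max (Real.exp (2 * V + 1)) (Real.exp (Real.log K / (ε / 2))), hr', by positivity, ?_⟩
  intro e N a α X h ha T hX0 hz
  obtain ⟨l, hl⟩ : ∃ l : ℝ, l = Real.log (cd N a T) := ⟨_, rfl⟩
  have hcp : 0 < cd N a T := lt_of_lt_of_le one_pos (one_le_cd h.hN a T)
  have hcd := hc_cd N a T
  rw [← hl] at hcd
  have hlV : 2 * V + 1 ≤ l := by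
    rw [hl, Real.le_log_iff_exp_le hcp]
    exact (le_max_left _ _).trans hX0
  have hKl : Real.log K ≤ ε / 2 * l := by
    have h1 : Real.log K / (ε / 2) ≤ l := by
      rw [hl, Real.le_log_iff_exp_le hcp]
      exact (le_max_right _ _).trans hX0
    rw [div_le_iff₀ (by positivity)] at h1
    linarith
  obtain ⟨hh, hhl⟩ : ∃ hh : ℝ, hh = l / 2 := ⟨_, rfl⟩
  have hh0 : 0 < hh := by rw [hhl]; linarith
  rw [← hhl] at hcd
  have hVh : Kn m (4 * B0 + 2) 0 * (1 + R ^ 2) ≤ κ * hh := by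
    have h1 : V ≤ hh := by rw [hhl]; linarith
    rw [hV, div_le_iff₀ hκ] at h1
    linarith
  obtain ⟨Q, hQ⟩ : ∃ Q : ℝ, Q = ‖X (7 / 2 + (T : ℂ) * I)‖ := ⟨_, rfl⟩
  obtain ⟨p1, -, p3, p4⟩ := prf h.ul le_rfl 0 T
  simp only [iteratedDeriv_zero, hcd] at p1 p3 p4
  have hQ0 : 0 < Q := by rw [hQ]; exact norm_pos_iff.2 p1
  rw [← hQ] at p3 p4
  obtain ⟨P, hP⟩ : ∃ P : ℝ, P = Q * Real.exp (-(3 * hh)) := ⟨_, rfl⟩
  have hP0 : 0 < P := by rw [hP]; positivity
  obtain ⟨G, hG⟩ : ∃ G : ℂ → ℂ, G = fun u => X (1 / 2 + (T : ℂ) * I + u) * ((P⁻¹ : ℝ) : ℂ) := ⟨_, rfl⟩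
  have hGn : ∀ u, ‖G u‖ = ‖X (1 / 2 + (T : ℂ) * I + u)‖ / P := by
    intro u
    rw [hG]
    simp only
    rw [norm_mul, Complex.norm_real, Real.norm_eq_abs, abs_of_pos (inv_pos.2 hP0), ← div_eq_mul_inv]
  have hGd : Differentiable ℂ G := by
    rw [hG]
    exact (h.entire.comp (by fun_prop)).mul_const _
  have hQP : ∀ x : ℝ, Q * Real.exp x / P = Real.exp (x + 3 * hh) := by
    intro x
    have h1 : Real.exp x = Real.exp (x + 3 * hh) * Real.exp (-(3 * hh)) := by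
      rw [← Real.exp_add]
      congr 1
      ring
    rw [div_eq_iff hP0.ne', hP, h1]
    ring
  have hKu : ∀ u : ℂ, ‖u‖ ≤ R → Kn m (4 * B0 + 2) 0 * (1 + ‖u‖ ^ 2) ≤ κ * hh := by
    intro u hu
    refine le_trans ?_ hVh
    apply mul_le_mul_of_nonneg_left _ hKn
    have := norm_nonneg u
    nlinarith
  have hup : ∀ u : ℂ, ‖u‖ ≤ R → ‖G u‖ ≤ Real.exp (hh * max |u.re| 3 + κ * hh) := by
    intro u hu
    rw [hGn]
    have h1 := div_le_div_of_nonneg_right (p3 u) hP0.le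
    rw [hQP] at h1
    refine h1.trans (Real.exp_le_exp.2 ?_)
    have := hKu u hu
    linarith
  have hlo : ∀ u : ℂ, 3 ≤ u.re → ‖u‖ ≤ R → Real.exp (hh * u.re - κ * hh) ≤ ‖G u‖ := by
    intro u hu3 hu
    rw [hGn]
    have h1 := div_le_div_of_nonneg_right (p4 u hu3) hP0.le
    rw [hQP] at h1
    refine le_trans (Real.exp_le_exp.2 ?_) h1
    have := hKu u hu
    linarith
  have hPc : ((P⁻¹ : ℝ) : ℂ) ≠ 0 := by
    have : P⁻¹ ≠ 0 := (inv_pos.2 hP0).ne'
    exact_mod_cast this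
  have hord : ∀ z : ℂ, analyticOrderNatAt G z = analyticOrderNatAt X (1 / 2 + (T : ℂ) * I + z) := by
    intro z
    have h1 := ord_tr h.entire ⟨_, p1⟩ one_ne_zero (E := fun _ => ((P⁻¹ : ℝ) : ℂ))
      (b := 1 / 2 + (T : ℂ) * I) (by fun_prop) (fun _ => hPc) z
    have e : (fun u : ℂ => X (1 * u + (1 / 2 + (T : ℂ) * I)) * ((P⁻¹ : ℝ) : ℂ)) = G := by
      rw [hG]
      funext u
      rw [one_mul, add_comm]
    rw [e, one_mul, add_comm] at h1
    exact h1
  have hzf : ∀ S : Finset ℂ, (∀ z ∈ S, G z = 0 ∧ r' ≤ z.re ∧ |z.im| ≤ 4 * a0 * z.re) →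
      ∑ z ∈ S, (analyticOrderNatAt G z : ℝ) ≤ κ * hh := by
    intro S hS
    classical
    have h1 := hz (S.image fun z => 1 / 2 + (T : ℂ) * I + z) (by
      intro s' hs'
      obtain ⟨z, hz1, hz2⟩ := Finset.mem_image.1 hs'
      obtain ⟨g1, g2, g3⟩ := hS z hz1
      have e1 : s'.re = 1 / 2 + z.re := by rw [← hz2]; simp
      have e2 : s'.im = T + z.im := by rw [← hz2]; simp
      refine ⟨?_, by rw [e1]; linarith, ?_⟩
      · rw [← hz2]
        rw [hG] at g1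
        rcases mul_eq_zero.1 g1 with h2 | h2
        · exact h2
        · exact absurd h2 hPc
      · rw [e1, e2]
        have e3 : T + z.im - T = z.im := by ring
        have e4 : 1 / 2 + z.re - 1 / 2 = z.re := by ring
        rw [e3, e4]
        have h4 : 4 * a0 * z.re ≤ c * z.re := mul_le_mul_of_nonneg_right (by linarith) (by linarith)
        linarith)
    rw [Finset.sum_image (fun x _ y _ hxy => add_left_cancel hxy)] at h1
    simp only [← hord] at h1
    rw [← hl] at h1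
    rw [hhl]
    linarith
  have hcone := HC hh G hh0 hGd hup hlo hzf
  have hrefl : ∀ u : ℂ, ‖G (-conj u)‖ = ‖G u‖ := by
    intro u
    obtain ⟨w, hw, hfe⟩ := h.fe
    rw [hGn, hGn, hfe (1 / 2 + (T : ℂ) * I + u), norm_mul, hw, one_mul, Complex.norm_conj]
    congr 3
    simp only [map_add, map_mul, Complex.conj_ofReal, Complex.conj_I, map_div₀, map_one, map_ofNat]
    ring
  have hA := apex (s := s) (M := 4) (r := r) (η := ε / 2) (h := hh) hs0 hs1.le (by norm_num) hr0 hr1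
    (by positivity) hh0 hGd
    (fun u hu => by
      refine (hup u (by linarith)).trans (Real.exp_le_exp.2 ?_)
      have h1 : max |u.re| 3 = 3 := by
        apply max_eq_right
        have := Complex.abs_re_le_norm u
        linarith
      rw [h1]
      have := mul_le_mul_of_nonneg_right hκ1 hh0.le
      linarith)
    (fun u hu1 hu2 hu3 => by
      rw [hs] at hu3
      have hre := Complex.abs_re_le_norm u
      rcases lt_trichotomy u.re 0 with h1 | h1 | h1
      · rw [← hrefl u]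
        have e1 : (-conj u).re = -u.re := by simp
        have e2 : (-conj u).im = u.im := by simp
        have e3 : ‖-conj u‖ = ‖u‖ := by rw [norm_neg, Complex.norm_conj]
        have h2 := hcone (-conj u) (by rw [e1]; linarith) (by rw [e3]; exact hu1) (by rw [e3]; exact hu2)
          (by rw [e2, e3]; exact hu3)
        refine h2.trans (Real.exp_le_exp.2 ?_)
        rw [e1]
        have h3 : -u.re ≤ ‖u‖ := (neg_le_abs _).trans hre
        have := mul_le_mul_of_nonneg_left h3 hh0.le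
        linarith
      · exfalso
        have h2 : ‖u‖ ≤ |u.im| := by
          have := Complex.norm_le_abs_re_add_abs_im u
          rw [h1, abs_zero, zero_add] at this
          exact this
        rw [← hs] at hu3
        have hun : 0 < ‖u‖ := by linarith
        nlinarith
      · have h2 := hcone u h1 hu1 hu2 hu3
        refine h2.trans (Real.exp_le_exp.2 ?_)
        have h3 : u.re ≤ ‖u‖ := (le_abs_self _).trans hre
        have := mul_le_mul_of_nonneg_left h3 hh0.le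
        linarith)
  rw [hsq] at hA
  have hE : (2 * (4 : ℝ) + 1) / s * q + ε / 2 ≤ ε := by
    have h1 : (2 * (4 : ℝ) + 1) / s * q ≤ (2 * (4 : ℝ) + 1) / s * (ε * s / 18) :=
      mul_le_mul_of_nonneg_left hq1 (by positivity)
    have h2 : (2 * (4 : ℝ) + 1) / s * (ε * s / 18) = ε / 2 := by
      field_simp
      norm_num
    linarith
  have hA2 : ‖G 0‖ ≤ Real.exp (ε / 2 * l) := by
    refine hA.trans (Real.exp_le_exp.2 ?_)
    have := mul_le_mul_of_nonneg_left hE hh0.le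
    rw [hhl] at this ⊢
    linarith
  rw [hGn, add_zero, div_le_iff₀ hP0] at hA2
  obtain ⟨hk, -⟩ := HK e N a α X h ha T _ rfl
  obtain ⟨g, hg⟩ : ∃ g : ℝ, g = ‖gm e N a (1 / 2 + (T : ℂ) * I)‖ := ⟨_, rfl⟩
  have hgp : 0 < g := by rw [hg]; exact norm_pos_iff.2 (gm_ne h hc0 ha T)
  have hk' : P ≤ K * g := by
    rw [hP, hg, hQ, ← hcd]
    exact hk
  rw [norm_div, ← hg, div_le_iff₀ hgp, Real.rpow_def_of_pos hcp, ← hl]
  have hKe : K ≤ Real.exp (ε / 2 * l) := by
    rw [← Real.log_le_iff_le_exp hK]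
    exact hKl
  calc _ ≤ Real.exp (ε / 2 * l) * P := hA2
    _ ≤ Real.exp (ε / 2 * l) * (Real.exp (ε / 2 * l) * g) := by
        apply mul_le_mul_of_nonneg_left _ (Real.exp_pos _).le
        exact hk'.trans (mul_le_mul_of_nonneg_right hKe hgp.le)
    _ = Real.exp (l * ε) * g := by
        rw [← mul_assoc, ← Real.exp_add]
        congr 2
        ring

end Pool.Agent.TH839.CN
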