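import Pool.Agent.TH839.TU.Core2

/-!
# Project TU: the extrapolation theorem for even entire functions
-/

set_option autoImplicit false

open Filter Topology Complex

namespace Pool.Agent.TH839.TU

/-- the modulus of the coefficient of `u ^ (2n)` of `Φ` -/
noncomputable def co (Φ : ℂ → ℂ) (n : ℕ) : ℝ := ‖iteratedDeriv (2 * n) Φ 0‖ / ((2 * n).factorial : ℝ)

lemma co_nonneg (Φ : ℂ → ℂ) (n : ℕ) : 0 ≤ co Φ n := by unfold co; positivity

lemma co_le {Φ : ℂ → ℂ} (hd : Differentiable ℂ Φ) {ρ M : ℝ} (hρ : 0 < ρ)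
    (hM : ∀ u : ℂ, ‖u‖ = ρ → ‖Φ u‖ ≤ M) (n : ℕ) : co Φ n * (ρ ^ 2) ^ n ≤ M := by
  have h1 := norm_iteratedDeriv_le_of_forall_mem_sphere_norm_le (2 * n) hρ (c := (0 : ℂ))
    (hd.diffContOnCl) (fun z hz => hM z (by simpa using hz))
  have hf : (0 : ℝ) < ((2 * n).factorial : ℝ) := by exact_mod_cast (2 * n).factorial_pos
  unfold co
  rw [le_div_iff₀ (by positivity)] at h1
  rw [← pow_mul, div_mul_eq_mul_div, div_le_iff₀ hf]
  linarith

lemma odd_zero {Φ : ℂ → ℂ} (hev : ∀ u, Φ (-u) = Φ u) (k : ℕ) (hk : Odd k) : iteratedDeriv k Φ 0 = 0 := by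
  have h1 := iteratedDeriv_comp_neg k Φ (0 : ℂ)
  have h2 : (fun x => Φ (-x)) = Φ := funext hev
  rw [h2, neg_zero, hk.neg_one_pow, neg_one_smul] at h1
  exact self_eq_neg.1 h1

lemma norm_le_tsum {Φ : ℂ → ℂ} (hd : Differentiable ℂ Φ) (hev : ∀ u, Φ (-u) = Φ u) {R : ℝ} :
    ‖Φ R‖ ≤ ∑' n, co Φ n * (R ^ 2) ^ n := by
  have h1 := Complex.hasSum_taylorSeries_of_entire hd 0 (R : ℂ)
  have h2 : Function.Injective fun n : ℕ => 2 * n := fun a b h => by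
    have : 2 * a = 2 * b := h
    omega
  have h3 : HasSum (fun n : ℕ => (((2 * n).factorial : ℂ)⁻¹ • ((R : ℂ) - 0) ^ (2 * n) •
      iteratedDeriv (2 * n) Φ 0)) (Φ R) := by
    refine (h2.hasSum_iff ?_).2 h1
    intro k hk
    have hko : Odd k := by
      rw [← Nat.not_even_iff_odd]
      rintro ⟨j, hj⟩
      exact hk ⟨j, by simp only; omega⟩
    rw [odd_zero hev k hko, smul_zero, smul_zero]
  have h4 : ∀ n : ℕ, ‖(((2 * n).factorial : ℂ)⁻¹ • ((R : ℂ) - 0) ^ (2 * n) •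
      iteratedDeriv (2 * n) Φ 0)‖ = co Φ n * (R ^ 2) ^ n := by
    intro n
    unfold co
    rw [sub_zero, norm_smul, norm_smul, norm_inv, norm_pow, Complex.norm_real, Complex.norm_natCast,
      pow_mul, Real.norm_eq_abs, sq_abs]
    ring
  rw [← h3.tsum_eq]
  refine (norm_tsum_le_tsum_norm h3.summable.norm).trans (le_of_eq ?_)
  exact tsum_congr h4

/-- **Extrapolation** for even entire functions. -/
theorem coreA (c κ ε : ℝ) (hc0 : 0 ≤ c) (hc2 : c ≤ 2) (hκ : 0 < κ) (hε : 0 < ε) :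
    ∃ R ε1 H0 : ℝ, 1 / 2 < R ∧ R ≤ 3 / 4 ∧ 0 < ε1 ∧ ∀ (H Q : ℝ) (Φ : ℂ → ℂ), H0 ≤ H → 0 < Q →
      Differentiable ℂ Φ → (∀ u, Φ (-u) = Φ u) →
      (∀ u : ℂ, ‖u‖ ≤ 3 / 4 → ‖Φ u‖ ≤ Q * Real.exp (H * max ‖u‖ (1 / 2) + ε1 * H)) →
      Q * Real.exp (H * R - ε1 * H) ≤ ‖Φ R‖ →
      (∀ n : ℕ, (n : ℝ) ≤ (1 / 4 + κ) * H → co Φ (n + 1) ≠ 0 ∧
        (((n : ℝ) + 2) / (n + 1)) ^ c * co Φ n * co Φ (n + 2) ≤ co Φ (n + 1) ^ 2) →
      ‖Φ 0‖ ≤ Q * Real.exp (((2 - c) / 4 + ε) * H) := by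
  obtain ⟨R, R', ε1, H0, h1, h2, h3, h4, K⟩ := core c κ ε hc0 hc2 hκ hε
  refine ⟨R, ε1, H0, h1, by linarith, h4, ?_⟩
  intro H Q Φ hH hQ hd hev hU hL hT
  have e0 : co Φ 0 = ‖Φ 0‖ := by unfold co; simp
  rw [← e0]
  refine K H Q (co Φ) hH hQ (co_nonneg Φ) ?_ ?_ (hL.trans (norm_le_tsum hd hev)) ?_
  · intro n
    have := co_le hd (ρ := 1 / 2) (M := Q * Real.exp (H / 2 + ε1 * H)) (by norm_num) (fun u hu => by
      have h5 := hU u (by rw [hu]; norm_num)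
      rw [hu, max_self] at h5
      refine h5.trans (le_of_eq ?_)
      congr 2
      ring) n
    refine le_trans (le_of_eq ?_) this
    norm_num
  · intro n
    refine co_le hd (ρ := R') (by linarith) (fun u hu => ?_) n
    have h5 := hU u (by rw [hu]; exact h3)
    rwa [hu, max_eq_left (by linarith)] at h5
  · intro n hn
    obtain ⟨t1, t2⟩ := hT n hn
    exact ⟨lt_of_le_of_ne (co_nonneg Φ _) (Ne.symm t1), t2⟩

end Pool.Agent.TH839.TU
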