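import Pool.Agent.TH839.SC.Many2
import Pool.Agent.TH839.TU.Core3

/-!
# Project TU: the completed function near a height
-/

set_option autoImplicit false

open Complex MeasureTheory Filter Topology Set
open scoped ComplexConjugate

namespace Pool.Agent.TH839.TU

open Pool.Agent.W169.HF H353.E Pool.Agent.W355.UN Pool.Agent.TH839.UH Pool.Agent.TH839.LD Pool.Agent.TH839.SC

/-- the convexity bound near a height -/
theorem conv (m : ℕ) (b a1 κ2 : ℝ) (hb : 0 ≤ b) (ha1 : 0 ≤ a1) (ha2 : a1 ≤ 1) (hκ2 : 0 < κ2) :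
    ∃ κ R h0 : ℝ, 0 < κ ∧ ∀ (B : ℝ → ℝ) (N : ℝ) (μ : Fin m → ℂ) (X L : ℂ → ℂ),
      UL m B N 1 μ X L → B 1 = b → ∀ T : ℝ, h0 ≤ hc N μ T →
      (∀ T' : ℝ, |T' - T| ≤ R → ‖X (1 / 2 + (T' : ℂ) * I + a1)‖ ≤ ‖X (7 / 2 + (T' : ℂ) * I)‖ *
        Real.exp (-(3 * hc N μ T') + (a1 + κ) * hc N μ T')) →
      ∀ u : ℂ, |u.re| ≤ 3 → |u.im| ≤ 1 → ‖X (1 / 2 + (T : ℂ) * I + u)‖ ≤
        ‖X (7 / 2 + (T : ℂ) * I)‖ * Real.exp (-(3 * hc N μ T)) *
          Real.exp (max |u.re| a1 * hc N μ T + κ2 * hc N μ T) := by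
  have hm0 : (0 : ℝ) ≤ m := Nat.cast_nonneg m
  obtain ⟨κ1, R, ℓC, hκ1, hRW, HC⟩ := Pool.Agent.TH324.LD.cvx a1 4 κ2 1 ha1
    (by linarith) (by norm_num) hκ2 one_pos
  have hR0 : 0 ≤ R := by linarith
  obtain ⟨κ, hκ⟩ : ∃ κ : ℝ, κ = min (κ1 / 2) 1 := ⟨_, rfl⟩
  have hκ0 : 0 < κ := by rw [hκ]; positivity
  have hκκ : κ ≤ κ1 / 2 := by rw [hκ]; exact min_le_left _ _
  have hκo : κ ≤ 1 := by rw [hκ]; exact min_le_right _ _
  obtain ⟨K0, hK0⟩ : ∃ K0 : ℝ, K0 = Kn m b 0 := ⟨_, rfl⟩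
  have hK00 : 0 ≤ K0 := by rw [hK0]; exact Kn_nonneg hb 0
  have E : ∀ C k : ℝ, 0 < k → ∀ᶠ h : ℝ in atTop, C ≤ k * h := fun C k hk =>
    (tendsto_id.const_mul_atTop hk).eventually_ge_atTop C
  obtain ⟨h0, H0⟩ := eventually_atTop.1 ((E 2 1 one_pos).and ((E ℓC 1 one_pos).and
    ((E (K0 * (10 + R ^ 2) + 5 * (m * R)) (κ1 / 2) (by positivity)).and
    (E (K0 * (10 + R ^ 2)) 1 one_pos))))
  refine ⟨κ, R, h0, hκ0, ?_⟩
  intro B N μ X L h hBb T hh0 hsm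
  obtain ⟨h', hh'⟩ : ∃ h' : ℝ, h' = hc N μ T := ⟨_, rfl⟩
  obtain ⟨d1, d3, hK, hK2⟩ := H0 (hc N μ T) hh0
  rw [← hh'] at d1 d3 hK hK2 ⊢
  rw [one_mul] at d1 d3 hK2
  have hh2 : 0 < h' := by linarith
  rw [← hBb] at hK0
  obtain ⟨Q, hQ⟩ : ∃ Q : ℝ, Q = ‖X (7 / 2 + (T : ℂ) * I)‖ := ⟨_, rfl⟩
  have hQ0 : 0 < Q := by rw [hQ]; exact norm_pos_iff.2 (prf h le_rfl 0 T).1
  obtain ⟨P, hP⟩ : ∃ P : ℝ, P = Q * Real.exp (-(3 * h')) := ⟨_, rfl⟩
  have hP0 : 0 < P := by rw [hP]; positivity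
  have hPe : ∀ x : ℝ, Q * Real.exp x = P * Real.exp (x + 3 * h') := by
    intro x
    rw [hP, mul_assoc, ← Real.exp_add]
    congr 2
    ring
  obtain ⟨f, hf⟩ : ∃ f : ℂ → ℂ, f = fun u => X (1 / 2 + (T : ℂ) * I + u) := ⟨_, rfl⟩
  have hfd : Differentiable ℂ f := by
    rw [hf]
    exact h.slow.1.comp (by fun_prop)
  have CV := HC h' P f d3 hP0 hfd (fun u => by rw [hf]; exact sym h T u) ?_ ?_ ?_
  · intro u hu1 hu2
    have h1 := CV u hu1 hu2
    rw [hf] at h1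
    rw [← hQ, ← hP]
    exact h1
  · intro u hu1 hu2
    have p1 := near h le_rfl T hu1 hu2
    rw [← hQ, ← hK0, hPe] at p1
    have e : f u = X (1 / 2 + (T : ℂ) * I + u) := by rw [hf]
    rw [e]
    refine p1.trans (mul_le_mul_of_nonneg_left (Real.exp_le_exp.2 ?_) hP0.le)
    linarith
  · intro u hu1 hu2
    have p1 := hsm (T + u.im) (by rw [add_sub_cancel_left]; exact hu2)
    have e1 : (1 / 2 + ((T + u.im : ℝ) : ℂ) * I + a1 : ℂ) = 1 / 2 + (T : ℂ) * I + u := by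
      have : u = (a1 : ℂ) + (u.im : ℂ) * I := by
        rw [← hu1]
        exact (Complex.re_add_im u).symm
      conv_rhs => rw [this]
      push_cast
      ring
    have e : f u = X (1 / 2 + (T : ℂ) * I + u) := by rw [hf]
    rw [e1] at p1
    rw [e]
    refine p1.trans ?_
    have p2 := near h le_rfl T (R := R) (u := 3 + (u.im : ℂ) * I) (by simp) (by simpa using hu2)
    have e2 : (1 / 2 + (T : ℂ) * I + (3 + (u.im : ℂ) * I) : ℂ) =
        7 / 2 + ((T + u.im : ℝ) : ℂ) * I := by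
      push_cast
      ring
    rw [e2, ← hQ, ← hK0] at p2
    obtain ⟨b1, b2⟩ := hc_near h.hN μ (T := T) (T1 := T + u.im) (R := R) (by
      rw [add_sub_cancel_left]; exact hu2)
    rw [← hh'] at b1 b2
    have e3 : (a1 + κ) * hc N μ (T + u.im) ≤ (a1 + κ) * h' + 2 * (m * R) := by
      have e4 := mul_le_mul_of_nonneg_left b1 (by linarith : 0 ≤ a1 + κ)
      have e5 : (a1 + κ) * (m * R) ≤ 2 * (m * R) :=
        mul_le_mul_of_nonneg_right (by linarith) (by positivity)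
      linarith
    have e6 : κ * h' ≤ κ1 / 2 * h' := mul_le_mul_of_nonneg_right hκκ hh2.le
    calc _ ≤ Q * Real.exp (K0 * (10 + R ^ 2)) *
          Real.exp (-(3 * (h' - m * R)) + ((a1 + κ) * h' + 2 * (m * R))) := by
          have := Real.exp_le_exp.2 (by linarith :
            -(3 * hc N μ (T + u.im)) + (a1 + κ) * hc N μ (T + u.im) ≤
              -(3 * (h' - m * R)) + ((a1 + κ) * h' + 2 * (m * R)))
          gcongr
      _ = P * Real.exp (K0 * (10 + R ^ 2) + (-(3 * (h' - m * R)) + ((a1 + κ) * h' + 2 * (m * R))) +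
            3 * h') := by
          rw [← hPe, mul_assoc, ← Real.exp_add]
      _ ≤ _ := by
          refine mul_le_mul_of_nonneg_left (Real.exp_le_exp.2 ?_) hP0.le
          linarith
  · intro u hu1 hu2
    have p1 := near h le_rfl T (R := R) (u := u) (by rw [hu1]; norm_num) hu2
    rw [← hQ, ← hK0, hPe] at p1
    have e : f u = X (1 / 2 + (T : ℂ) * I + u) := by rw [hf]
    rw [e]
    refine p1.trans (mul_le_mul_of_nonneg_left (Real.exp_le_exp.2 ?_) hP0.le)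
    have e7 : 0 < κ1 * h' := by positivity
    have e8 : 0 ≤ 5 * (m * R) := by positivity
    linarith

end Pool.Agent.TH839.TU
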