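import Mathlib

/-!
# Project TU: extrapolation by inequalities of Turan type
-/

set_option autoImplicit false

open Filter Topology

namespace Pool.Agent.TH839.TU

/-- extrapolation of a concave sequence -/
lemma extrap {g : ℕ → ℝ} {n m : ℕ} (hnm : n < m)
    (hc : ∀ k, k + 2 ≤ m → g k + g (k + 2) ≤ 2 * g (k + 1)) :
    g 0 * (m - n) ≤ m * g n - n * g m := by
  have hd : ∀ j k : ℕ, k ≤ j → j + 1 ≤ m → g (j + 1) - g j ≤ g (k + 1) - g k := by
    intro j k hkj
    induction j, hkj using Nat.le_induction with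
    | base => intro _; exact le_rfl
    | succ j hj ih =>
      intro h
      have h1 := ih (by omega)
      have h2 := hc j (by omega)
      have h3 : g (j + 1 + 1) = g (j + 2) := rfl
      linarith
  have h1 : (n : ℝ) * (g (n + 1) - g n) ≤ g n - g 0 := by
    rw [← Finset.sum_range_sub g n]
    have h2 : ∀ k ∈ Finset.range n, (g (n + 1) - g n) ≤ g (k + 1) - g k := fun k hk =>
      hd n k (Finset.mem_range.1 hk).le hnm
    have h3 := Finset.card_nsmul_le_sum (Finset.range n) _ _ h2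
    rwa [Finset.card_range, nsmul_eq_mul] at h3
  have h2 : g m - g n ≤ (m - n) * (g (n + 1) - g n) := by
    have : ∀ j : ℕ, n ≤ j → j ≤ m → g j - g n ≤ (j - n) * (g (n + 1) - g n) := by
      intro j hj
      induction j, hj using Nat.le_induction with
      | base => intro _; simp
      | succ j hj ih =>
        intro h
        have h3 := ih (by omega)
        have h4 := hd j n hj h
        push_cast
        linarith
    exact this m hnm.le le_rfl
  have hmn : (0 : ℝ) < m - n := by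
    have : (n : ℝ) < m := by exact_mod_cast hnm
    linarith
  have hn0 : (0 : ℝ) ≤ n := Nat.cast_nonneg n
  have h3 := mul_le_mul_of_nonneg_right h1 hmn.le
  have h4 := mul_le_mul_of_nonneg_left h2 hn0
  linarith

lemma log_fact_le (n : ℕ) (hn : 1 ≤ n) :
    Real.log (n.factorial : ℝ) ≤ n * Real.log n - n + 1 + Real.log n := by
  induction n, hn using Nat.le_induction with
  | base => simp
  | succ n hn ih =>
    have hn0 : (0 : ℝ) < n := by exact_mod_cast hn
    have hf : (0 : ℝ) < (n.factorial : ℝ) := by exact_mod_cast n.factorial_pos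
    rw [Nat.factorial_succ]
    push_cast
    rw [Real.log_mul (by positivity) (by positivity)]
    have h1 : 1 / ((n : ℝ) + 1) ≤ Real.log ((n : ℝ) + 1) - Real.log n := by
      rw [← Real.log_div (by positivity) (by positivity)]
      have h2 := Real.one_sub_inv_le_log_of_pos (x := ((n : ℝ) + 1) / n) (by positivity)
      rw [inv_div] at h2
      refine le_trans (le_of_eq ?_) h2
      field_simp
      ring
    have h2 : 1 ≤ ((n : ℝ) + 1) * (Real.log ((n : ℝ) + 1) - Real.log n) := by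
      rw [div_le_iff₀ (by positivity)] at h1
      linarith
    linarith

lemma fact_ratio {n m : ℕ} (hn : 1 ≤ n) (hnm : n ≤ m) :
    ((m : ℝ) - n) * Real.log n ≤ Real.log (m.factorial : ℝ) - Real.log (n.factorial : ℝ) := by
  have hn0 : (0 : ℝ) < n := by exact_mod_cast hn
  have h1 := Nat.factorial_mul_pow_le_factorial (m := n) (n := m - n)
  rw [Nat.add_sub_cancel' hnm] at h1
  have h2 : (n.factorial : ℝ) * ((n : ℝ) + 1) ^ (m - n) ≤ (m.factorial : ℝ) := by exact_mod_cast h1
  have hf : (0 : ℝ) < (n.factorial : ℝ) := by exact_mod_cast n.factorial_pos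
  have h3 := Real.log_le_log (by positivity) h2
  rw [Real.log_mul (by positivity) (by positivity), Real.log_pow, Nat.cast_sub hnm] at h3
  have h4 : Real.log n ≤ Real.log ((n : ℝ) + 1) := Real.log_le_log hn0 (by linarith)
  have h5 : (0 : ℝ) ≤ (m : ℝ) - n := by
    have : (n : ℝ) ≤ m := by exact_mod_cast hnm
    linarith
  have h6 := mul_le_mul_of_nonneg_left h4 h5
  linarith

lemma log_up {d : ℝ} (h0 : 0 < d) (h1 : d ≤ 1 / 40) :
    Real.log (1 + 2 * d) ≤ 2 * d - 2 * d ^ 2 + 16 * d ^ 3 := by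
  have h := Real.abs_log_sub_add_sum_range_le (x := -(2 * d)) (by rw [abs_neg, abs_of_pos (by positivity)]; linarith) 2
  rw [abs_neg, abs_of_pos (by positivity : 0 < 2 * d), Finset.sum_range_succ, Finset.sum_range_succ,
    Finset.sum_range_zero] at h
  have h2 := (abs_le.1 h).2
  have h3 : (2 * d) ^ (2 + 1) / (1 - 2 * d) ≤ 16 * d ^ 3 := by
    rw [div_le_iff₀ (by linarith)]
    have h4 : 0 < d ^ 3 := by positivity
    have h5 : d ^ 3 * d ≤ d ^ 3 * (1 / 40) := mul_le_mul_of_nonneg_left h1 h4.le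
    have h6 : (2 * d) ^ (2 + 1) = 8 * d ^ 3 := by ring
    rw [h6]
    linarith
  have e : (1 : ℝ) - -(2 * d) = 1 + 2 * d := by ring
  have e2 : 0 + (-(2 * d)) ^ (0 + 1) / (((0 : ℕ) : ℝ) + 1) + (-(2 * d)) ^ (1 + 1) / (((1 : ℕ) : ℝ) + 1) =
      -(2 * d) + 2 * d ^ 2 := by
    push_cast
    ring
  rw [e, e2] at h2
  linarith

lemma log_lo {x : ℝ} (h0 : 0 ≤ x) : x - x ^ 2 / 2 ≤ Real.log (1 + x) := by
  have h := Real.le_log_one_add_of_nonneg h0
  refine le_trans ?_ h
  rw [le_div_iff₀ (by linarith)]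
  have h1 : (x - x ^ 2 / 2) * (x + 2) = 2 * x - x ^ 3 / 2 := by ring
  have h2 : 0 ≤ x ^ 3 := by positivity
  rw [h1]
  linarith

/-- the large coefficient -/
lemma large {δ R R' ε1 H Q : ℝ} {a : ℕ → ℝ} (hδ : 0 < δ) (hδ1 : δ ≤ 1 / 40) (hR : R = 1 / 2 + δ)
    (hR' : R' = R * (1 + δ / 2)) (hε1 : 0 < ε1) (hε2 : ε1 ≤ δ ^ 2 / 16) (hQ : 0 < Q) (hH : 0 < H)
    (hE1 : H + 1 ≤ Real.exp (ε1 * H) / 2)
    (hE2 : Real.exp (-(δ ^ 2 / 8 * H)) ≤ (1 - (R / R') ^ 2) / 4)
    (ha : ∀ n, 0 ≤ a n) (hU1 : ∀ n, a n * (1 / 4) ^ n ≤ Q * Real.exp (H / 2 + ε1 * H))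
    (hU2 : ∀ n, a n * (R' ^ 2) ^ n ≤ Q * Real.exp (H * R' + ε1 * H))
    (hL : Q * Real.exp (H * R - ε1 * H) ≤ ∑' n, a n * (R ^ 2) ^ n) :
    ∃ m : ℕ, (1 / 4 + δ / 8) * H < m ∧ m ≤ (1 / 4 + δ) * H ∧
      Q * Real.exp (H * R - 2 * ε1 * H) ≤ a m * (R ^ 2) ^ m := by
  by_contra hcon
  push Not at hcon
  have hR0 : 0 < R := by rw [hR]; linarith
  have hR'0 : 0 < R' := by rw [hR']; positivity
  obtain ⟨q, hq⟩ : ∃ q : ℝ, q = (R / R') ^ 2 := ⟨_, rfl⟩
  have hqR : R ^ 2 = R' ^ 2 * q := by rw [hq]; field_simp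
  have hRR : R / R' = (1 + δ / 2)⁻¹ := by rw [hR']; field_simp
  have hq0 : 0 < q := by rw [hq]; positivity
  have hlog : Real.log q = -(2 * Real.log (1 + δ / 2)) := by
    rw [hq, hRR, Real.log_pow, Real.log_inv]
    push_cast
    ring
  have hll := log_lo (x := δ / 2) (by positivity)
  have hq1 : q < 1 := by
    rw [hq, hRR]
    have : (1 + δ / 2)⁻¹ < 1 := inv_lt_one_of_one_lt₀ (by linarith)
    exact pow_lt_one₀ (by positivity) this two_ne_zero
  rw [← hq] at hE2
  obtain ⟨M, hM⟩ : ∃ M : ℕ, M = ⌊(1 / 4 + δ) * H⌋₊ := ⟨_, rfl⟩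
  have hM1 : (M : ℝ) ≤ (1 / 4 + δ) * H := by rw [hM]; exact Nat.floor_le (by positivity)
  have hM2 : (1 / 4 + δ) * H < M + 1 := by rw [hM]; exact Nat.lt_floor_add_one _
  -- each term
  have hterm : ∀ n : ℕ, n ∈ Finset.range (M + 1) →
      a n * (R ^ 2) ^ n ≤ Q * Real.exp (H * R - 2 * ε1 * H) := by
    intro n hn
    have hnM : (n : ℝ) ≤ M := by exact_mod_cast Nat.lt_succ_iff.1 (Finset.mem_range.1 hn)
    rcases le_or_gt (n : ℝ) ((1 / 4 + δ / 8) * H) with h1 | h1
    · have e1 : (R ^ 2) ^ n = (1 / 4) ^ n * Real.exp (2 * n * Real.log (1 + 2 * δ)) := by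
        have e2 : Real.exp (2 * n * Real.log (1 + 2 * δ)) = ((1 + 2 * δ) ^ 2) ^ n := by
          rw [← pow_mul, ← Real.exp_log (by positivity : (0 : ℝ) < (1 + 2 * δ) ^ (2 * n)), Real.log_pow]
          push_cast
          ring_nf
        rw [e2, ← mul_pow, hR]
        congr 1
        ring
      have h2 : 2 * n * Real.log (1 + 2 * δ) ≤ (δ - δ ^ 2 / 4) * H := by
        have h3 := log_up hδ hδ1
        have h4 : 0 ≤ Real.log (1 + 2 * δ) := Real.log_nonneg (by linarith)
        calc 2 * n * Real.log (1 + 2 * δ) ≤ 2 * ((1 / 4 + δ / 8) * H) * Real.log (1 + 2 * δ) := by gcongr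
          _ ≤ 2 * ((1 / 4 + δ / 8) * H) * (2 * δ - 2 * δ ^ 2 + 16 * δ ^ 3) := by gcongr
          _ = (δ - δ ^ 2 / 2 + 15 / 2 * δ ^ 3 + 4 * δ ^ 4) * H := by ring
          _ ≤ _ := by
              refine mul_le_mul_of_nonneg_right ?_ hH.le
              have h5 : δ ^ 3 ≤ δ ^ 2 * (1 / 40) := by
                rw [pow_succ]
                exact mul_le_mul_of_nonneg_left hδ1 (by positivity)
              have h6 : δ ^ 4 ≤ δ ^ 2 * (1 / 1600) := by
                have h7 : δ ^ 4 = δ ^ 3 * δ := by ring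
                have h8 : δ ^ 3 * δ ≤ δ ^ 3 * (1 / 40) := mul_le_mul_of_nonneg_left hδ1 (by positivity)
                linarith
              have h9 : 0 < δ ^ 2 := by positivity
              linarith
      calc a n * (R ^ 2) ^ n = a n * (1 / 4) ^ n * Real.exp (2 * n * Real.log (1 + 2 * δ)) := by
            rw [e1]; ring
        _ ≤ Q * Real.exp (H / 2 + ε1 * H) * Real.exp ((δ - δ ^ 2 / 4) * H) :=
            mul_le_mul (hU1 n) (Real.exp_le_exp.2 h2) (Real.exp_pos _).le (by positivity)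
        _ = Q * Real.exp (H / 2 + ε1 * H + (δ - δ ^ 2 / 4) * H) := by rw [mul_assoc, ← Real.exp_add]
        _ ≤ _ := by
            refine mul_le_mul_of_nonneg_left (Real.exp_le_exp.2 ?_) hQ.le
            have h3 : 3 * ε1 * H ≤ δ ^ 2 / 4 * H := by
              refine mul_le_mul_of_nonneg_right ?_ hH.le
              have : 0 < δ ^ 2 := by positivity
              linarith
            rw [hR]
            linarith
    · exact (hcon n h1 (by linarith)).le
  -- the tail
  have hgeo : ∀ n : ℕ, a n * (R ^ 2) ^ n ≤ Q * Real.exp (H * R' + ε1 * H) * q ^ n := by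
    intro n
    rw [hqR, mul_pow, ← mul_assoc]
    exact mul_le_mul_of_nonneg_right (hU2 n) (by positivity)
  have hsg : Summable fun n : ℕ => Q * Real.exp (H * R' + ε1 * H) * q ^ n :=
    (summable_geometric_of_lt_one hq0.le hq1).mul_left _
  have hs : Summable fun n : ℕ => a n * (R ^ 2) ^ n :=
    Summable.of_nonneg_of_le (fun n => mul_nonneg (ha n) (by positivity)) hgeo hsg
  have htail : ∑' n, a (n + (M + 1)) * (R ^ 2) ^ (n + (M + 1)) ≤ Q * Real.exp (H * R - ε1 * H) / 4 := by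
    have hs2 : Summable fun n : ℕ => a (n + (M + 1)) * (R ^ 2) ^ (n + (M + 1)) :=
      (summable_nat_add_iff (f := fun n => a n * (R ^ 2) ^ n) (M + 1)).2 hs
    have hs3 : Summable fun n : ℕ => Q * Real.exp (H * R' + ε1 * H) * q ^ (M + 1) * q ^ n :=
      (summable_geometric_of_lt_one hq0.le hq1).mul_left _
    have h1 : ∑' n, a (n + (M + 1)) * (R ^ 2) ^ (n + (M + 1)) ≤
        ∑' n : ℕ, Q * Real.exp (H * R' + ε1 * H) * q ^ (M + 1) * q ^ n := by
      refine Summable.tsum_le_tsum (fun n => ?_) hs2 hs3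
      refine (hgeo _).trans (le_of_eq ?_)
      rw [pow_add]
      ring
    refine h1.trans ?_
    rw [tsum_mul_left, tsum_geometric_of_lt_one hq0.le hq1]
    have h2 : q ^ (M + 1) ≤ Real.exp (-(((1 / 4 + δ) * H) * (2 * (δ / 2 - (δ / 2) ^ 2 / 2)))) := by
      rw [← Real.exp_log (by positivity : (0 : ℝ) < q ^ (M + 1)), Real.log_pow, hlog]
      apply Real.exp_le_exp.2
      have h3 : 0 ≤ δ / 2 - (δ / 2) ^ 2 / 2 := by
        have h30 : δ * δ ≤ δ * (1 / 40) := mul_le_mul_of_nonneg_left hδ1 hδ.le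
        have h31 : δ / 2 - (δ / 2) ^ 2 / 2 = δ / 2 - δ * δ / 8 := by ring
        rw [h31]
        linarith
      have h4 : ((1 / 4 + δ) * H) * (2 * (δ / 2 - (δ / 2) ^ 2 / 2)) ≤
          ((M + 1 : ℕ) : ℝ) * (2 * Real.log (1 + δ / 2)) := by
        push_cast
        exact mul_le_mul hM2.le (mul_le_mul_of_nonneg_left hll (by norm_num)) (mul_nonneg (by norm_num) h3)
          (by positivity)
      linarith
    have hq1' : 0 < 1 - q := by linarith
    rw [← div_eq_mul_inv, div_le_div_iff₀ hq1' (by norm_num)]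
    have h5 : Real.exp (H * R' + ε1 * H) * q ^ (M + 1) ≤
        Real.exp (H * R - ε1 * H) * ((1 - q) / 4) := by
      calc _ ≤ Real.exp (H * R' + ε1 * H) *
            Real.exp (-(((1 / 4 + δ) * H) * (2 * (δ / 2 - (δ / 2) ^ 2 / 2)))) := by gcongr
        _ = Real.exp (H * R' + ε1 * H + -(((1 / 4 + δ) * H) * (2 * (δ / 2 - (δ / 2) ^ 2 / 2)))) :=
            (Real.exp_add _ _).symm
        _ ≤ Real.exp (H * R - ε1 * H + -(δ ^ 2 / 8 * H)) := by
            apply Real.exp_le_exp.2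
            have h6 : R' = R + (δ / 4 + δ ^ 2 / 2) := by rw [hR', hR]; ring
            rw [h6]
            have h7 : 2 * ε1 * H ≤ δ ^ 2 / 8 * H := mul_le_mul_of_nonneg_right (by linarith) hH.le
            have h8 : (δ / 4 + δ ^ 2 / 2 + δ ^ 2 / 4) * H ≤
                ((1 / 4 + δ) * (2 * (δ / 2 - (δ / 2) ^ 2 / 2))) * H := by
              refine mul_le_mul_of_nonneg_right ?_ hH.le
              have h9 : 0 < δ ^ 2 := by positivity
              have h10 : δ ^ 3 ≤ δ ^ 2 * (1 / 40) := by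
                rw [pow_succ]
                exact mul_le_mul_of_nonneg_left hδ1 (by positivity)
              have h11 : (1 / 4 + δ) * (2 * (δ / 2 - (δ / 2) ^ 2 / 2)) =
                  δ / 4 + 15 / 16 * δ ^ 2 - δ ^ 3 / 4 := by ring
              rw [h11]
              linarith
            have h12 : (1 / 4 + δ) * H * (2 * (δ / 2 - (δ / 2) ^ 2 / 2)) =
                ((1 / 4 + δ) * (2 * (δ / 2 - (δ / 2) ^ 2 / 2))) * H := by ring
            have h13 : H * (R + (δ / 4 + δ ^ 2 / 2)) = H * R + (δ / 4 + δ ^ 2 / 2) * H := by ring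
            rw [h12, h13]
            linarith
        _ = Real.exp (H * R - ε1 * H) * Real.exp (-(δ ^ 2 / 8 * H)) := Real.exp_add _ _
        _ ≤ _ := mul_le_mul_of_nonneg_left hE2 (Real.exp_pos _).le
    calc Q * Real.exp (H * R' + ε1 * H) * q ^ (M + 1) * 4 =
          Q * 4 * (Real.exp (H * R' + ε1 * H) * q ^ (M + 1)) := by ring
      _ ≤ Q * 4 * (Real.exp (H * R - ε1 * H) * ((1 - q) / 4)) := by gcongr
      _ = _ := by ring
  have hhead : ∑ n ∈ Finset.range (M + 1), a n * (R ^ 2) ^ n ≤ Q * Real.exp (H * R - ε1 * H) / 2 := by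
    refine (Finset.sum_le_card_nsmul _ _ _ hterm).trans ?_
    rw [Finset.card_range, nsmul_eq_mul]
    have h1 : ((M + 1 : ℕ) : ℝ) ≤ Real.exp (ε1 * H) / 2 := by
      refine le_trans ?_ hE1
      push_cast
      have : (1 / 4 + δ) * H ≤ 1 * H := mul_le_mul_of_nonneg_right (by linarith) hH.le
      linarith
    calc ((M + 1 : ℕ) : ℝ) * (Q * Real.exp (H * R - 2 * ε1 * H)) ≤
          Real.exp (ε1 * H) / 2 * (Q * Real.exp (H * R - 2 * ε1 * H)) := by gcongr
      _ = Q * (Real.exp (ε1 * H) * Real.exp (H * R - 2 * ε1 * H)) / 2 := by ring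
      _ = _ := by
          rw [← Real.exp_add]
          congr 3
          ring
  have hsum := hs.sum_add_tsum_nat_add (M + 1)
  have : 0 < Q * Real.exp (H * R - ε1 * H) := by positivity
  linarith

end Pool.Agent.TH839.TU
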