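import Pool.Agent.TH839.TU.Core

/-!
# Project TU: the extrapolation theorem
-/

set_option autoImplicit false

open Filter Topology

namespace Pool.Agent.TH839.TU

/-- the final inequality -/
lemma final {c δ ε ε1 H Q R : ℝ} {a : ℕ → ℝ} {m n : ℕ} (hc0 : 0 ≤ c) (hc2 : c ≤ 2) (hδ : 0 < δ)
    (hR : R = 1 / 2 + δ) (hQ : 0 < Q) (hε1 : 0 < ε1) (hH : 4 < H)
    (hn1 : (n : ℝ) ≤ H / 4) (hn2 : H / 4 < n + 1) (hm1 : (1 / 4 + δ / 8) * H < m)
    (hδε : δ ≤ ε / 4) (hε1δ : ε1 * (1 + 6 / δ) ≤ ε / 4) (hE : 2 * (2 + Real.log H) ≤ ε / 4 * H)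
    (hpos : ∀ k, k ≤ m → 0 < a k)
    (hT : ∀ k, k + 2 ≤ m → (((k : ℝ) + 2) / (k + 1)) ^ c * a k * a (k + 2) ≤ a (k + 1) ^ 2)
    (hUn : a n * (1 / 4) ^ n ≤ Q * Real.exp (H / 2 + ε1 * H))
    (hLm : Q * Real.exp (H * R - 2 * ε1 * H) ≤ a m * (R ^ 2) ^ m) :
    a 0 ≤ Q * Real.exp (((2 - c) / 4 + ε) * H) := by
  have hH0 : 0 < H := by linarith
  have hR0 : 0 < R := by rw [hR]; linarith
  have hn0 : (0 : ℝ) ≤ n := Nat.cast_nonneg n
  have hn1' : 1 ≤ n := by
    by_contra h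
    have h1 : n = 0 := by omega
    rw [h1, Nat.cast_zero] at hn2
    linarith
  have hn1r : (1 : ℝ) ≤ n := by exact_mod_cast hn1'
  have hδH : 0 < δ * H := by positivity
  have hnm : n < m := by
    have : (n : ℝ) < m := by linarith
    exact_mod_cast this
  have hmn : (0 : ℝ) < (m : ℝ) - n := by
    have : (n : ℝ) < m := by exact_mod_cast hnm
    linarith
  obtain ⟨g, hg⟩ : ∃ g : ℕ → ℝ, g = fun k => c * Real.log (k.factorial : ℝ) + Real.log (a k) := ⟨_, rfl⟩
  have hgk : ∀ k, g k = c * Real.log (k.factorial : ℝ) + Real.log (a k) := fun k => by rw [hg]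
  have hconc : ∀ k, k + 2 ≤ m → g k + g (k + 2) ≤ 2 * g (k + 1) := by
    intro k hk
    have p0 := hpos k (by omega)
    have p1 := hpos (k + 1) (by omega)
    have p2 := hpos (k + 2) hk
    have hk0 : (0 : ℝ) ≤ k := Nat.cast_nonneg k
    have hq : 0 < ((k : ℝ) + 2) / (k + 1) := by positivity
    have h1 := Real.log_le_log (by positivity) (hT k hk)
    rw [Real.log_mul (by positivity) p2.ne', Real.log_mul (by positivity) p0.ne', Real.log_rpow hq,
      Real.log_div (by positivity) (by positivity), Real.log_pow] at h1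
    have f1 : Real.log ((k + 1).factorial : ℝ) = Real.log ((k : ℝ) + 1) + Real.log (k.factorial : ℝ) := by
      rw [Nat.factorial_succ]
      push_cast
      rw [Real.log_mul (by positivity) (by positivity)]
    have f2 : Real.log ((k + 2).factorial : ℝ) =
        Real.log ((k : ℝ) + 2) + Real.log ((k + 1).factorial : ℝ) := by
      rw [Nat.factorial_succ (k + 1)]
      push_cast
      rw [Real.log_mul (by positivity) (by positivity)]
      congr 2
      ring
    rw [hgk, hgk, hgk, f2, f1]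
    push_cast at h1
    linarith
  have hex := extrap hnm hconc
  have hg0 : g 0 = Real.log (a 0) := by
    rw [hgk]
    simp
  rw [hg0, hgk, hgk] at hex
  -- bounds for the logarithms
  have pn := hpos n hnm.le
  have pm := hpos m le_rfl
  have b1 : Real.log (a n) ≤ Real.log Q + (H / 2 + ε1 * H) + n * Real.log 4 := by
    have h1 := Real.log_le_log (by positivity) hUn
    rw [Real.log_mul pn.ne' (by positivity), Real.log_mul hQ.ne' (by positivity), Real.log_exp,
      Real.log_pow, one_div, Real.log_inv] at h1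
    linarith
  have b2 : Real.log Q + (H * R - 2 * ε1 * H) - m * (2 * Real.log R) ≤ Real.log (a m) := by
    have h1 := Real.log_le_log (by positivity) hLm
    rw [Real.log_mul hQ.ne' (by positivity), Real.log_exp, Real.log_mul pm.ne' (by positivity),
      Real.log_pow, Real.log_pow] at h1
    push_cast at h1
    linarith
  have b3 : Real.log 4 + 2 * Real.log R ≤ 4 * δ := by
    have e1 : Real.log 4 + 2 * Real.log R = 2 * Real.log (1 + 2 * δ) := by
      have e2 : Real.log R = Real.log (1 + 2 * δ) - Real.log 2 := by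
        rw [← Real.log_div (by positivity) (by norm_num), hR]
        congr 1
        ring
      have e3 : Real.log 4 = 2 * Real.log 2 := by
        rw [show (4 : ℝ) = 2 ^ 2 by norm_num, Real.log_pow]
        norm_num
      rw [e2, e3]
      ring
    have e4 := Real.log_le_sub_one_of_pos (x := 1 + 2 * δ) (by positivity)
    rw [e1]
    linarith
  have b4 := fact_ratio hn1' hnm.le
  have b5 := log_fact_le n hn1'
  have b6 : Real.log n ≤ Real.log H := Real.log_le_log (by linarith) (by linarith)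
  -- the combination
  have c1 : (m : ℝ) * Real.log (a n) - n * Real.log (a m) ≤
      m * (Real.log Q + (H / 2 + ε1 * H) + n * Real.log 4) -
        n * (Real.log Q + (H * R - 2 * ε1 * H) - m * (2 * Real.log R)) := by
    have h1 := mul_le_mul_of_nonneg_left b1 (Nat.cast_nonneg m : (0 : ℝ) ≤ m)
    have h2 := mul_le_mul_of_nonneg_left b2 hn0
    linarith
  have c2 : m * (Real.log Q + (H / 2 + ε1 * H) + n * Real.log 4) -
        n * (Real.log Q + (H * R - 2 * ε1 * H) - m * (2 * Real.log R)) =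
      ((m : ℝ) - n) * (Real.log Q + H / 2) - n * δ * H + ε1 * H * (m + 2 * n) +
        m * n * (Real.log 4 + 2 * Real.log R) := by
    rw [hR]
    ring
  have c3 : (m : ℝ) * n * (Real.log 4 + 2 * Real.log R) ≤ m * n * (4 * δ) :=
    mul_le_mul_of_nonneg_left b3 (by positivity)
  have c4 : (m : ℝ) * n * (4 * δ) - n * δ * H ≤ ((m : ℝ) - n) * (4 * δ * n) := by
    have h1 : 4 * δ * n * ((m : ℝ) - H / 4) ≤ 4 * δ * n * ((m : ℝ) - n) :=
      mul_le_mul_of_nonneg_left (by linarith) (by positivity)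
    linarith
  have c5 : ε1 * H * (m + 2 * n) ≤ ((m : ℝ) - n) * (ε1 * H * (1 + 6 / δ)) := by
    have h1 : (n : ℝ) ≤ 2 / δ * ((m : ℝ) - n) := by
      have h2 : δ * H / 8 ≤ (m : ℝ) - n := by linarith
      have h3 := mul_le_mul_of_nonneg_left h2 (by positivity : 0 ≤ 2 / δ)
      have h4 : 2 / δ * (δ * H / 8) = H / 4 := by field_simp; norm_num
      linarith
    have h5 : (m : ℝ) + 2 * n ≤ ((m : ℝ) - n) * (1 + 6 / δ) := by
      have h6 : ((m : ℝ) - n) * (1 + 6 / δ) = (m : ℝ) - n + 3 * (2 / δ * ((m : ℝ) - n)) := by ring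
      rw [h6]
      linarith
    have h7 := mul_le_mul_of_nonneg_left h5 (by positivity : 0 ≤ ε1 * H)
    linarith
  have c6 : (m : ℝ) * (c * Real.log (n.factorial : ℝ)) - n * (c * Real.log (m.factorial : ℝ)) ≤
      ((m : ℝ) - n) * (c * (1 - n + Real.log H)) := by
    have h1 : (m : ℝ) * (c * Real.log (n.factorial : ℝ)) - n * (c * Real.log (m.factorial : ℝ)) =
        c * (((m : ℝ) - n) * Real.log (n.factorial : ℝ) -
          n * (Real.log (m.factorial : ℝ) - Real.log (n.factorial : ℝ))) := by ring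
    have h2 := mul_le_mul_of_nonneg_left b4 hn0
    have h3 := mul_le_mul_of_nonneg_left b5 hmn.le
    have h4 := mul_le_mul_of_nonneg_left b6 hmn.le
    have h5 : ((m : ℝ) - n) * Real.log (n.factorial : ℝ) -
          n * (Real.log (m.factorial : ℝ) - Real.log (n.factorial : ℝ)) ≤
        ((m : ℝ) - n) * (1 - n + Real.log H) := by linarith
    have h6 := mul_le_mul_of_nonneg_left h5 hc0
    rw [h1]
    linarith
  have c7 : Real.log (a 0) * ((m : ℝ) - n) ≤ (Real.log Q + H / 2 + 4 * δ * n + ε1 * H * (1 + 6 / δ) +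
      c * (1 - n + Real.log H)) * ((m : ℝ) - n) := by
    have h1 : (m : ℝ) * (c * Real.log (n.factorial : ℝ) + Real.log (a n)) -
        n * (c * Real.log (m.factorial : ℝ) + Real.log (a m)) =
        ((m : ℝ) * (c * Real.log (n.factorial : ℝ)) - n * (c * Real.log (m.factorial : ℝ))) +
        ((m : ℝ) * Real.log (a n) - n * Real.log (a m)) := by ring
    rw [h1] at hex
    linarith
  have c8 := le_of_mul_le_mul_right c7 hmn
  have c9 : 4 * δ * n ≤ ε / 4 * H := by
    have h1 : 4 * δ * n ≤ 4 * δ * (H / 4) := mul_le_mul_of_nonneg_left hn1 (by positivity)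
    have h2 : δ * H ≤ ε / 4 * H := mul_le_mul_of_nonneg_right hδε hH0.le
    linarith
  have c10 : ε1 * H * (1 + 6 / δ) ≤ ε / 4 * H := by
    have h1 := mul_le_mul_of_nonneg_right hε1δ hH0.le
    linarith
  have c11 : c * (1 - n + Real.log H) ≤ -(c * H / 4) + ε / 4 * H := by
    have hlH : 0 ≤ Real.log H := Real.log_nonneg (by linarith)
    have h1 : c * (1 - n + Real.log H) ≤ c * (2 - H / 4 + Real.log H) :=
      mul_le_mul_of_nonneg_left (by linarith) hc0
    have h2 : c * (2 + Real.log H) ≤ 2 * (2 + Real.log H) :=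
      mul_le_mul_of_nonneg_right hc2 (by linarith)
    linarith
  have hε0 : 0 < ε := by linarith
  have hεH : 0 < ε * H := by positivity
  have c12 : Real.log (a 0) ≤ Real.log Q + ((2 - c) / 4 + ε) * H := by linarith
  have p0 := hpos 0 (Nat.zero_le m)
  rw [← Real.exp_log p0, ← Real.exp_log hQ, ← Real.exp_add]
  exact Real.exp_le_exp.2 c12

/-- **Extrapolation.** -/
theorem core (c κ ε : ℝ) (hc0 : 0 ≤ c) (hc2 : c ≤ 2) (hκ : 0 < κ) (hε : 0 < ε) :
    ∃ R R' ε1 H0 : ℝ, 1 / 2 < R ∧ R < R' ∧ R' ≤ 3 / 4 ∧ 0 < ε1 ∧ ∀ (H Q : ℝ) (a : ℕ → ℝ), H0 ≤ H →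
      0 < Q → (∀ n, 0 ≤ a n) → (∀ n, a n * (1 / 4) ^ n ≤ Q * Real.exp (H / 2 + ε1 * H)) →
      (∀ n, a n * (R' ^ 2) ^ n ≤ Q * Real.exp (H * R' + ε1 * H)) →
      (Q * Real.exp (H * R - ε1 * H) ≤ ∑' n, a n * (R ^ 2) ^ n) →
      (∀ n : ℕ, (n : ℝ) ≤ (1 / 4 + κ) * H → 0 < a (n + 1) ∧
        (((n : ℝ) + 2) / (n + 1)) ^ c * a n * a (n + 2) ≤ a (n + 1) ^ 2) →
      a 0 ≤ Q * Real.exp (((2 - c) / 4 + ε) * H) := by
  obtain ⟨δ, hδ⟩ : ∃ δ : ℝ, δ = min (min κ (1 / 40)) (ε / 4) := ⟨_, rfl⟩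
  have hδ0 : 0 < δ := by rw [hδ]; positivity
  have hδκ : δ ≤ κ := by rw [hδ]; exact (min_le_left _ _).trans (min_le_left _ _)
  have hδ1 : δ ≤ 1 / 40 := by rw [hδ]; exact (min_le_left _ _).trans (min_le_right _ _)
  have hδε : δ ≤ ε / 4 := by rw [hδ]; exact min_le_right _ _
  obtain ⟨ε1, hε1⟩ : ∃ ε1 : ℝ, ε1 = min (δ ^ 2 / 16) (ε / 4 / (1 + 6 / δ)) := ⟨_, rfl⟩
  have hε10 : 0 < ε1 := by rw [hε1]; positivity
  have hε11 : ε1 ≤ δ ^ 2 / 16 := by rw [hε1]; exact min_le_left _ _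
  have hε12 : ε1 * (1 + 6 / δ) ≤ ε / 4 := by
    rw [← le_div_iff₀ (by positivity), hε1]
    exact min_le_right _ _
  obtain ⟨R, hR⟩ : ∃ R : ℝ, R = 1 / 2 + δ := ⟨_, rfl⟩
  obtain ⟨R', hR'⟩ : ∃ R' : ℝ, R' = R * (1 + δ / 2) := ⟨_, rfl⟩
  have hR0 : 1 / 2 < R := by rw [hR]; linarith
  have hRR : R < R' := by
    rw [hR']
    have : 0 < R * (δ / 2) := mul_pos (by linarith) (by linarith)
    linarith
  have hR34 : R' ≤ 3 / 4 := by
    rw [hR', hR]
    have h1 : δ * δ ≤ δ * (1 / 40) := mul_le_mul_of_nonneg_left hδ1 hδ0.le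
    have h2 : (1 / 2 + δ) * (1 + δ / 2) = 1 / 2 + 5 / 4 * δ + δ * δ / 2 := by ring
    rw [h2]
    linarith
  obtain ⟨q, hq⟩ : ∃ q : ℝ, q = (1 - (R / R') ^ 2) / 4 := ⟨_, rfl⟩
  have hq0 : 0 < q := by
    rw [hq]
    have h1 : R / R' < 1 := (div_lt_one (by linarith)).2 hRR
    have h2 : 0 < R / R' := div_pos (by linarith) (by linarith)
    have h3 : (R / R') ^ 2 < 1 := pow_lt_one₀ h2.le h1 two_ne_zero
    linarith
  have t1 : ∀ᶠ H : ℝ in atTop, H + 1 ≤ Real.exp (ε1 * H) / 2 := by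
    have h1 : Tendsto (fun H : ℝ => Real.exp (ε1 * H) / H ^ 1) atTop atTop := by
      have := tendsto_exp_mul_div_rpow_atTop (s := 1) (b := ε1) hε10
      simpa using this
    filter_upwards [h1.eventually_ge_atTop 4, eventually_ge_atTop 1] with H h2 h3
    rw [pow_one, le_div_iff₀ (by linarith)] at h2
    linarith
  have t2 : ∀ᶠ H : ℝ in atTop, Real.exp (-(δ ^ 2 / 8 * H)) ≤ q := by
    have h1 : Tendsto (fun H : ℝ => Real.exp (-(δ ^ 2 / 8 * H))) atTop (𝓝 0) :=
      Real.tendsto_exp_neg_atTop_nhds_zero.comp (tendsto_id.const_mul_atTop (by positivity))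
    exact (h1.eventually (gt_mem_nhds hq0)).mono fun H h => le_of_lt h
  have t3 : ∀ᶠ H : ℝ in atTop, 2 * (2 + Real.log H) ≤ ε / 4 * H := by
    have h1 : Tendsto (fun y : ℝ => Real.log y / y) atTop (𝓝 0) := by
      have := Real.tendsto_pow_log_div_mul_add_atTop 1 0 1 one_ne_zero
      simpa using this
    filter_upwards [h1.eventually (gt_mem_nhds (by positivity : (0 : ℝ) < ε / 16)),
      eventually_ge_atTop (32 / ε), eventually_ge_atTop 1] with H h2 h3 h4
    have h5 : Real.log H < ε / 16 * H := by rwa [div_lt_iff₀ (by linarith)] at h2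
    have h6 : 4 ≤ ε / 8 * H := by
      rw [div_le_iff₀ hε] at h3
      linarith
    linarith
  obtain ⟨H0, hH0⟩ := eventually_atTop.1 (t1.and (t2.and (t3.and (eventually_gt_atTop 4))))
  refine ⟨R, R', ε1, H0, hR0, hRR, hR34, hε10, ?_⟩
  intro H Q a hH hQ ha hU1 hU2 hL hT
  obtain ⟨s1, s2, s3, s4⟩ := hH0 H hH
  rw [hq] at s2
  obtain ⟨m, m1, m2, m3⟩ := large hδ0 hδ1 hR hR' hε10 hε11 hQ (by linarith) s1 s2 ha hU1 hU2 hL
  have hHp : 0 < H := by linarith
  rcases (ha 0).eq_or_lt with h0 | h0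
  · rw [← h0]
    positivity
  have hmκ : ∀ k : ℕ, k ≤ m → (k : ℝ) ≤ (1 / 4 + κ) * H := by
    intro k hk
    have h1 : (k : ℝ) ≤ m := by exact_mod_cast hk
    have h2 : (1 / 4 + δ) * H ≤ (1 / 4 + κ) * H := mul_le_mul_of_nonneg_right (by linarith) hHp.le
    linarith
  refine final (n := ⌊H / 4⌋₊) hc0 hc2 hδ0 hR hQ hε10 s4 (Nat.floor_le (by positivity))
    (Nat.lt_floor_add_one _) m1 hδε hε12 s3 (fun k hk => ?_) (fun k hk => (hT k (hmκ k (by omega))).2)
    (hU1 _) m3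
  rcases k with _ | k
  · exact h0
  · exact (hT k (hmκ k (by omega))).1

end Pool.Agent.TH839.TU
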