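import Mathlib

/-!
# Project CN: from the segment to its end
-/

set_option autoImplicit false

open Complex Filter Topology Set Metric
open scoped ComplexConjugate

namespace Pool.Agent.TH839.CN

lemma corner {M h y : ℝ} {n : ℕ} (hM : 0 ≤ M) (hh : 0 < h) (hn1 : h ≤ n) (hn2 : (n : ℝ) ≤ 2 * h) (hy : 0 ≤ y) :
    (4 * y) ^ n * Real.exp (M * h) ≤ Real.exp (h * (8 * Real.exp M * y)) := by
  have h1 : 4 * y ≤ Real.exp (Real.exp M * (4 * y) - 1 - M) := by
    have h2 := Real.add_one_le_exp (Real.exp M * (4 * y) - 1)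
    rw [sub_add_cancel] at h2
    rw [Real.exp_sub, le_div_iff₀ (Real.exp_pos M)]
    linarith
  have h3 : (4 * y) ^ n ≤ Real.exp (n * (Real.exp M * (4 * y) - 1 - M)) := by
    rw [Real.exp_nat_mul]
    exact pow_le_pow_left₀ (by positivity) h1 n
  calc (4 * y) ^ n * Real.exp (M * h) ≤ Real.exp (n * (Real.exp M * (4 * y) - 1 - M)) * Real.exp (M * h) :=
        mul_le_mul_of_nonneg_right h3 (Real.exp_pos _).le
    _ ≤ _ := by
        rw [← Real.exp_add]
        apply Real.exp_le_exp.2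
        have h4 : (n : ℝ) * (Real.exp M * (4 * y)) ≤ 2 * h * (Real.exp M * (4 * y)) :=
          mul_le_mul_of_nonneg_right hn2 (by positivity)
        have h5 : h * (1 + M) ≤ n * (1 + M) := mul_le_mul_of_nonneg_right hn1 (by linarith)
        nlinarith

/-- the maximum principle in the half annulus -/
theorem half {M r δ η h : ℝ} {n : ℕ} (hM : 0 ≤ M) (hr : 0 < r) (hr1 : r < 1) (hδ : 0 < δ) (hη : 0 ≤ η)
    (hh : 0 < h) (hn1 : h ≤ n) (hn2 : (n : ℝ) ≤ 2 * h)
    {G : ℂ → ℂ} (hG : Differentiable ℂ G) (h1 : ∀ u : ℂ, ‖u‖ ≤ 1 → ‖G u‖ ≤ Real.exp (M * h))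
    (h2 : ∀ u : ℂ, r ≤ ‖u‖ → ‖u‖ ≤ 1 → u.im = 0 → ‖G u‖ ≤ Real.exp (h * ‖u‖ + η * h)) :
    ∀ u : ℂ, r < ‖u‖ → ‖u‖ < 1 → 0 < u.im →
      ‖G u‖ * (‖1 - u ^ 2‖ * ‖1 - r ^ 2 / u ^ 2‖) ^ n ≤ Real.exp (h * (8 * Real.exp M * ‖u‖ +
        8 * Real.exp M * r / ‖u‖ + δ / 2 + (‖u‖ ^ 2 + 2 * ‖u‖) / (2 * δ) + η)) := by
  obtain ⟨A, hA⟩ : ∃ A : ℝ, A = 8 * Real.exp M := ⟨_, rfl⟩
  have hA0 : 0 < A := by rw [hA]; positivity
  obtain ⟨U, hU⟩ : ∃ U : Set ℂ, U = {u : ℂ | r < ‖u‖ ∧ ‖u‖ < 1 ∧ 0 < u.im} := ⟨_, rfl⟩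
  obtain ⟨V, hV⟩ : ∃ V : Set ℂ, V = {u : ℂ | r ≤ ‖u‖ ∧ ‖u‖ ≤ 1 ∧ 0 ≤ u.im} := ⟨_, rfl⟩
  have hVc : IsClosed V := by
    rw [hV]
    refine (isClosed_le continuous_const continuous_norm).inter
      ((isClosed_le continuous_norm continuous_const).inter
        (isClosed_le continuous_const Complex.continuous_im))
  have hUo : IsOpen U := by
    rw [hU]
    refine (isOpen_lt continuous_const continuous_norm).inter
      ((isOpen_lt continuous_norm continuous_const).inter
        (isOpen_lt continuous_const Complex.continuous_im))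
  have hUV : U ⊆ V := by
    rw [hU, hV]
    intro u hu
    exact ⟨hu.1.le, hu.2.1.le, hu.2.2.le⟩
  have hcl : closure U ⊆ V := closure_minimal hUV hVc
  have hUb : Bornology.IsBounded U := by
    refine (Metric.isBounded_closedBall (x := (0 : ℂ)) (r := 1)).subset ?_
    intro u hu
    rw [hU] at hu
    rw [mem_closedBall, dist_zero_right]
    exact hu.2.1.le
  have hV0 : ∀ u ∈ V, u ≠ 0 := by
    intro u hu h0
    rw [hV] at hu
    have := hu.1
    rw [h0, norm_zero] at this
    linarith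
  obtain ⟨E, hE⟩ : ∃ E : ℂ → ℂ, E = fun u => (A : ℂ) * (-I * u) + ((A * r : ℝ) : ℂ) * (I / u) +
    ((δ / 2 + η : ℝ) : ℂ) + ((1 / (2 * δ) : ℝ) : ℂ) * (u ^ 2 + 2 * (-I * u)) := ⟨_, rfl⟩
  have hEre : ∀ u : ℂ, (E u).re = A * u.im + A * r * (u.im / ‖u‖ ^ 2) + (δ / 2 + η) +
      1 / (2 * δ) * (u.re ^ 2 - u.im ^ 2 + 2 * u.im) := by
    intro u
    rw [hE]
    simp only
    have e1 : (I / u).re = u.im / ‖u‖ ^ 2 := by
      rw [Complex.div_re, ← Complex.normSq_eq_norm_sq]
      simp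
    have e4 : (-I * u).re = u.im := by simp
    have e5 : (u ^ 2 + 2 * (-I * u)).re = u.re ^ 2 - u.im ^ 2 + 2 * u.im := by
      rw [sq]
      simp
      ring
    rw [Complex.add_re, Complex.add_re, Complex.add_re, Complex.re_ofReal_mul, Complex.re_ofReal_mul,
      Complex.re_ofReal_mul, Complex.ofReal_re, e1, e4, e5]
  obtain ⟨F, hF⟩ : ∃ F : ℂ → ℂ, F = fun u => G u * ((1 - u ^ 2) * (1 - (r : ℂ) ^ 2 / u ^ 2)) ^ n *
    cexp (-(h : ℂ) * E u) := ⟨_, rfl⟩
  have hFn : ∀ u : ℂ, ‖F u‖ = ‖G u‖ * (‖1 - u ^ 2‖ * ‖1 - (r : ℂ) ^ 2 / u ^ 2‖) ^ n *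
      Real.exp (-(h * (E u).re)) := by
    intro u
    rw [hF]
    simp only
    rw [norm_mul, norm_mul, norm_pow, norm_mul, Complex.norm_exp]
    congr 2
    have e3 : -(h : ℂ) * E u = ((-h : ℝ) : ℂ) * E u := by push_cast; ring
    rw [e3, Complex.re_ofReal_mul]
    ring
  have hFd : DifferentiableOn ℂ F V := by
    intro u hu
    have h0 := hV0 u hu
    have d1 : DifferentiableAt ℂ E u := by
      have : DifferentiableAt ℂ (fun u : ℂ => I / u) u := (differentiableAt_const _).div differentiableAt_id h0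
      rw [hE]
      fun_prop
    have d2 : DifferentiableAt ℂ (fun u : ℂ => (r : ℂ) ^ 2 / u ^ 2) u :=
      (differentiableAt_const _).div (differentiableAt_id.pow 2) (pow_ne_zero 2 h0)
    rw [hF]
    exact (((hG u).mul ((((differentiableAt_const _).sub (differentiableAt_id.pow 2)).mul
      ((differentiableAt_const _).sub d2)).pow n)).mul ((d1.const_mul _).cexp)).differentiableWithinAt
  have hdc : DiffContOnCl ℂ F U := ⟨hFd.mono hUV, hFd.continuousOn.mono hcl⟩
  have hr2 : ‖(r : ℂ) ^ 2‖ = r ^ 2 := by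
    rw [norm_pow, Complex.norm_real, Real.norm_eq_abs, abs_of_pos hr]
  have hfr : ∀ u ∈ frontier U, ‖F u‖ ≤ 1 := by
    intro u hu
    rw [hUo.frontier_eq] at hu
    have huV := hcl hu.1
    have huU := hu.2
    have hu0 := hV0 u huV
    have hun : 0 < ‖u‖ := norm_pos_iff.2 hu0
    rw [hV] at huV
    obtain ⟨v1, v2, v3⟩ := huV
    have him1 : u.im ≤ 1 := ((le_abs_self _).trans (Complex.abs_im_le_norm u)).trans v2
    have hH : 0 ≤ 1 / (2 * δ) * (u.re ^ 2 - u.im ^ 2 + 2 * u.im) := by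
      apply mul_nonneg (by positivity)
      nlinarith [sq_nonneg u.re]
    have t1 : 0 ≤ A * u.im := by positivity
    have t2 : 0 ≤ A * r * (u.im / ‖u‖ ^ 2) := by positivity
    have hsq : ∀ v : ℂ, ‖v - conj v‖ = 2 * |v.im| := by
      intro v
      have e : v - conj v = ((2 * v.im : ℝ) : ℂ) * I := by
        apply Complex.ext <;> simp
        ring
      rw [e, norm_mul, Complex.norm_I, mul_one, Complex.norm_real, Real.norm_eq_abs, abs_mul]
      norm_num
    have hcc : u * conj u = ((‖u‖ ^ 2 : ℝ) : ℂ) := by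
      rw [Complex.mul_conj, Complex.normSq_eq_norm_sq]
    have key : ∀ y : ℝ, 0 ≤ y → ‖1 - u ^ 2‖ * ‖1 - (r : ℂ) ^ 2 / u ^ 2‖ ≤ 4 * y → A * y ≤ (E u).re →
        ‖F u‖ ≤ 1 := by
      intro y hy hy1 hy2
      rw [hFn]
      have h3 : ‖G u‖ * (‖1 - u ^ 2‖ * ‖1 - (r : ℂ) ^ 2 / u ^ 2‖) ^ n ≤ Real.exp (h * (A * y)) := by
        have h4 := corner hM hh hn1 hn2 hy
        rw [← hA] at h4
        refine le_trans ?_ h4
        rw [mul_comm]
        exact mul_le_mul (pow_le_pow_left₀ (by positivity) hy1 n) (h1 u v2) (norm_nonneg _) (by positivity)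
      calc _ ≤ Real.exp (h * (A * y)) * Real.exp (-(h * (E u).re)) :=
            mul_le_mul_of_nonneg_right h3 (Real.exp_pos _).le
        _ ≤ 1 := by
            rw [← Real.exp_add, Real.exp_le_one_iff]
            have := mul_le_mul_of_nonneg_left hy2 hh.le
            linarith
    by_cases c1 : r < ‖u‖
    · by_cases c2 : ‖u‖ < 1
      · -- the real axis
        have c3 : u.im = 0 := by
          apply le_antisymm _ v3
          by_contra hcon
          apply huU
          rw [hU]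
          exact ⟨c1, c2, not_le.1 hcon⟩
        have hure : u = (u.re : ℂ) := by
          apply Complex.ext <;> simp [c3]
        have hn2' : ‖u‖ ^ 2 = u.re ^ 2 := by
          rw [← Complex.normSq_eq_norm_sq, Complex.normSq_apply, c3]
          ring
        have g1 : ‖1 - u ^ 2‖ ≤ 1 := by
          have e : (1 : ℂ) - u ^ 2 = ((1 - u.re ^ 2 : ℝ) : ℂ) := by
            rw [hure]; push_cast; simp
          rw [e, Complex.norm_real, Real.norm_eq_abs, abs_le]
          have : ‖u‖ ^ 2 ≤ 1 := by nlinarith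
          constructor <;> nlinarith [sq_nonneg u.re]
        have g2 : ‖1 - (r : ℂ) ^ 2 / u ^ 2‖ ≤ 1 := by
          have e : (1 : ℂ) - (r : ℂ) ^ 2 / u ^ 2 = ((1 - r ^ 2 / u.re ^ 2 : ℝ) : ℂ) := by
            rw [hure]; push_cast; simp
          have hq : 0 ≤ r ^ 2 / u.re ^ 2 := by positivity
          have hq1 : r ^ 2 / u.re ^ 2 ≤ 1 := by
            rw [← hn2', div_le_one (by positivity)]
            nlinarith
          rw [e, Complex.norm_real, Real.norm_eq_abs, abs_le]
          constructor <;> linarith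
        rw [hFn]
        have h3 : (‖1 - u ^ 2‖ * ‖1 - (r : ℂ) ^ 2 / u ^ 2‖) ^ n ≤ 1 := by
          apply pow_le_one₀ (by positivity)
          exact mul_le_one₀ g1 (norm_nonneg _) g2
        have h4 := h2 u v1 v2 c3
        calc _ ≤ Real.exp (h * ‖u‖ + η * h) * 1 * Real.exp (-(h * (E u).re)) := by
              gcongr
          _ ≤ 1 := by
              rw [mul_one, ← Real.exp_add, Real.exp_le_one_iff, hEre, c3]
              have h5 : ‖u‖ ≤ δ / 2 + 1 / (2 * δ) * ‖u‖ ^ 2 := by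
                have h6 : 0 ≤ 1 / (2 * δ) * (δ - ‖u‖) ^ 2 := by positivity
                have h7 : 1 / (2 * δ) * (δ - ‖u‖) ^ 2 = δ / 2 + 1 / (2 * δ) * ‖u‖ ^ 2 - ‖u‖ := by
                  field_simp
                  ring
                linarith
              have h8 := mul_le_mul_of_nonneg_left h5 hh.le
              rw [hn2'] at h8
              simp only [mul_zero, zero_div, add_zero, zero_add]
              nlinarith
      · have c3 : ‖u‖ = 1 := le_antisymm v2 (not_lt.1 c2)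
        apply key u.im v3
        · have e1 : (1 : ℂ) - u ^ 2 = -(u * (u - conj u)) := by
            have : u * conj u = 1 := by rw [hcc, c3]; simp
            linear_combination -this
          rw [e1, norm_neg, norm_mul, hsq, c3, one_mul, abs_of_nonneg v3]
          have h3 : ‖1 - (r : ℂ) ^ 2 / u ^ 2‖ ≤ 2 := by
            refine (norm_sub_le _ _).trans ?_
            rw [norm_div, hr2, norm_pow, c3, norm_one]
            norm_num
            nlinarith
          have := mul_le_mul_of_nonneg_left h3 (by positivity : 0 ≤ 2 * u.im)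
          linarith
        · rw [hEre]
          linarith
    · have c3 : ‖u‖ = r := le_antisymm (not_lt.1 c1) v1
      apply key (u.im / r) (by positivity)
      · have e1 : (1 : ℂ) - (r : ℂ) ^ 2 / u ^ 2 = (u - conj u) / u := by
          have h3 : (r : ℂ) ^ 2 = u * conj u := by rw [hcc, c3]; push_cast; ring
          rw [h3]
          field_simp
        rw [e1, norm_div, hsq, c3, abs_of_nonneg v3]
        have h3 : ‖1 - u ^ 2‖ ≤ 2 := by
          refine (norm_sub_le _ _).trans ?_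
          rw [norm_pow, c3, norm_one]
          nlinarith
        have := mul_le_mul_of_nonneg_right h3 (by positivity : 0 ≤ 2 * u.im / r)
        have e4 : 4 * (u.im / r) = 2 * (2 * u.im / r) := by ring
        linarith
      · rw [hEre]
        have e : A * r * (u.im / ‖u‖ ^ 2) = A * (u.im / r) := by
          rw [c3]
          field_simp
        rw [e]
        linarith
  intro u hu1 hu2 hu3
  have huU : u ∈ U := by rw [hU]; exact ⟨hu1, hu2, hu3⟩
  have h3 := Complex.norm_le_of_forall_mem_frontier_norm_le hUb hdc hfr (subset_closure huU)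
  rw [hFn] at h3
  have hun : 0 < ‖u‖ := by linarith
  have him : u.im ≤ ‖u‖ := (le_abs_self _).trans (Complex.abs_im_le_norm u)
  rw [← hA]
  have h4 : ‖G u‖ * (‖1 - u ^ 2‖ * ‖1 - (r : ℂ) ^ 2 / u ^ 2‖) ^ n ≤ Real.exp (h * (E u).re) := by
    have h5 := mul_le_mul_of_nonneg_right h3 (Real.exp_pos (h * (E u).re)).le
    rw [mul_assoc, ← Real.exp_add, neg_add_cancel, Real.exp_zero, mul_one, one_mul] at h5
    exact h5
  refine h4.trans (Real.exp_le_exp.2 ?_)
  apply mul_le_mul_of_nonneg_left _ hh.le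
  rw [hEre]
  have h6 : A * u.im ≤ A * ‖u‖ := mul_le_mul_of_nonneg_left him hA0.le
  have h7 : u.im / ‖u‖ ^ 2 ≤ 1 / ‖u‖ := by
    rw [div_le_div_iff₀ (by positivity) hun]
    nlinarith
  have h8 : A * r * (u.im / ‖u‖ ^ 2) ≤ A * r / ‖u‖ := by
    have := mul_le_mul_of_nonneg_left h7 (by positivity : 0 ≤ A * r)
    rw [mul_one_div] at this
    exact this
  have h9 : 1 / (2 * δ) * (u.re ^ 2 - u.im ^ 2 + 2 * u.im) ≤ (‖u‖ ^ 2 + 2 * ‖u‖) / (2 * δ) := by
    rw [div_mul_eq_mul_div, one_mul]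
    apply div_le_div_of_nonneg_right _ (by positivity)
    have h10 : ‖u‖ ^ 2 = u.re ^ 2 + u.im ^ 2 := by
      rw [← Complex.normSq_eq_norm_sq, Complex.normSq_apply]
      ring
    nlinarith [sq_nonneg u.im]
  linarith

end Pool.Agent.TH839.CN
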