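import Pool.Agent.TH839.TU.Cs1
import Pool.Agent.TH839.TU.Cs2
import Pool.Agent.TH839.TU.FamT

/-!
# Project CN: families, the strip
-/

set_option autoImplicit false

open Complex Filter Topology Set Metric
open scoped ComplexConjugate

namespace Pool.Agent.TH839.CN

open Pool.Agent.W169.HF H353.E Pool.Agent.W355.UN Pool.Agent.TH839.UH Pool.Agent.TH839.UH.EP
open Pool.Agent.TH839.LD Pool.Agent.TH839.SC
open Pool.Agent.TH839.UH.NF (B0 B0_nonneg)

/-- from the segment to its end -/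
theorem endp {M p η h : ℝ} (hM : 0 ≤ M) (hp : 0 < p) (hp1 : p ≤ 1 / 2) (hη : 0 ≤ η) (hh : 1 ≤ h)
    {G : ℂ → ℂ} (hG : Differentiable ℂ G) (h1 : ∀ u : ℂ, ‖u‖ ≤ 1 → ‖G u‖ ≤ Real.exp (M * h))
    (h2 : ∀ u : ℂ, p ^ 4 ≤ ‖u‖ → ‖u‖ ≤ 1 → u.im = 0 → ‖G u‖ ≤ Real.exp (h * ‖u‖ + η * h)) :
    ‖G 0‖ ≤ Real.exp (h * ((16 * Real.exp M + 10) * p + η)) := by
  obtain ⟨A, hA⟩ : ∃ A : ℝ, A = 8 * Real.exp M := ⟨_, rfl⟩
  have hA0 : 0 < A := by rw [hA]; positivity
  have hh0 : 0 < h := by linarith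
  obtain ⟨n, hn⟩ : ∃ n : ℕ, n = ⌈h⌉₊ := ⟨_, rfl⟩
  have hn1 : h ≤ n := by rw [hn]; exact Nat.le_ceil h
  have hn2 : (n : ℝ) ≤ 2 * h := by
    have := Nat.ceil_lt_add_one hh0.le
    rw [← hn] at this
    linarith
  have hp2 : p ^ 2 ≤ 1 / 4 := by nlinarith
  have hp20 : 0 < p ^ 2 := by positivity
  have hp4 : p ^ 4 = p ^ 2 * p ^ 2 := by ring
  have hp4l : p ^ 4 < p ^ 2 := by rw [hp4]; nlinarith
  have hp41 : p ^ 4 < 1 := by linarith
  have hp2p : p ^ 2 ≤ p * (1 / 2) := by nlinarith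
  have hEx : 0 ≤ Real.exp M * p := by positivity
  have hfin : ∀ G' : ℂ → ℂ, Differentiable ℂ G' → (∀ u : ℂ, ‖u‖ ≤ 1 → ‖G' u‖ ≤ Real.exp (M * h)) →
      (∀ u : ℂ, p ^ 4 ≤ ‖u‖ → ‖u‖ ≤ 1 → u.im = 0 → ‖G' u‖ ≤ Real.exp (h * ‖u‖ + η * h)) →
      ∀ u : ℂ, ‖u‖ = p ^ 2 → 0 < u.im → ‖G' u‖ ≤ Real.exp (h * ((16 * Real.exp M + 10) * p + η)) := by
    intro G' hG' h1' h2' u hu hui
    have h3 := half hM (by positivity : 0 < p ^ 4) hp41 hp hη hh0 hn1 hn2 hG' h1' h2' u (by rw [hu]; exact hp4l)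
      (by rw [hu]; linarith) hui
    rw [hu, ← hA] at h3
    have g1 : 1 - p ^ 4 ≤ ‖1 - u ^ 2‖ := by
      have := norm_sub_norm_le (1 : ℂ) (u ^ 2)
      rw [norm_one, norm_pow, hu] at this
      have e : (p ^ 2) ^ 2 = p ^ 4 := by ring
      rw [e] at this
      exact this
    have g2 : 1 - p ^ 4 ≤ ‖1 - ((p ^ 4 : ℝ) : ℂ) ^ 2 / u ^ 2‖ := by
      have := norm_sub_norm_le (1 : ℂ) (((p ^ 4 : ℝ) : ℂ) ^ 2 / u ^ 2)
      rw [norm_one, norm_div, norm_pow, norm_pow, hu, Complex.norm_real, Real.norm_eq_abs,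
        abs_of_pos (by positivity : 0 < p ^ 4)] at this
      have e : (p ^ 4) ^ 2 / (p ^ 2) ^ 2 = p ^ 4 := by
        field_simp
      rw [e] at this
      exact this
    have hb : Real.exp (-(2 * p ^ 2)) ≤ 1 - p ^ 4 := by
      have h4 := Real.add_one_le_exp (2 * p ^ 2)
      rw [Real.exp_neg, inv_le_comm₀ (Real.exp_pos _) (by linarith)]
      refine le_trans ?_ h4
      rw [inv_le_comm₀ (by linarith) (by positivity), inv_le_iff_one_le_mul₀ (by positivity)]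
      nlinarith
    have hprod : Real.exp (-(4 * p ^ 2)) ≤ ‖1 - u ^ 2‖ * ‖1 - ((p ^ 4 : ℝ) : ℂ) ^ 2 / u ^ 2‖ := by
      have e : Real.exp (-(4 * p ^ 2)) = Real.exp (-(2 * p ^ 2)) * Real.exp (-(2 * p ^ 2)) := by
        rw [← Real.exp_add]
        congr 1
        ring
      rw [e]
      exact mul_le_mul (hb.trans g1) (hb.trans g2) (Real.exp_pos _).le (norm_nonneg _)
    have hpow : Real.exp (-(8 * h * p ^ 2)) ≤
        (‖1 - u ^ 2‖ * ‖1 - ((p ^ 4 : ℝ) : ℂ) ^ 2 / u ^ 2‖) ^ n := by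
      refine le_trans ?_ (pow_le_pow_left₀ (Real.exp_pos _).le hprod n)
      rw [← Real.exp_nat_mul]
      apply Real.exp_le_exp.2
      have := mul_le_mul_of_nonneg_right hn2 (by positivity : 0 ≤ 4 * p ^ 2)
      linarith
    have h5 : ‖G' u‖ * Real.exp (-(8 * h * p ^ 2)) ≤ Real.exp (h * (A * p ^ 2 + A * p ^ 4 / p ^ 2 + p / 2 +
        ((p ^ 2) ^ 2 + 2 * p ^ 2) / (2 * p) + η)) :=
      (mul_le_mul_of_nonneg_left hpow (norm_nonneg _)).trans h3
    have h6 := mul_le_mul_of_nonneg_right h5 (Real.exp_pos (8 * h * p ^ 2)).le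
    rw [mul_assoc, ← Real.exp_add, neg_add_cancel, Real.exp_zero, mul_one, ← Real.exp_add] at h6
    refine h6.trans (Real.exp_le_exp.2 ?_)
    have e1 : A * p ^ 4 / p ^ 2 = A * p ^ 2 := by field_simp
    have e2 : ((p ^ 2) ^ 2 + 2 * p ^ 2) / (2 * p) = p ^ 3 / 2 + p := by field_simp
    rw [e1, e2]
    have e3 : p ^ 3 ≤ p := by nlinarith
    have e4 : A * p ^ 2 ≤ A * (p * (1 / 2)) := mul_le_mul_of_nonneg_left hp2p hA0.le
    have e5 : A * p ^ 2 + A * p ^ 2 + p / 2 + (p ^ 3 / 2 + p) + η + 8 * p ^ 2 ≤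
        (16 * Real.exp M + 10) * p + η := by
      rw [hA] at e4 ⊢
      nlinarith
    have e6 := mul_le_mul_of_nonneg_left e5 hh0.le
    linarith
  have hcirc : ∀ u : ℂ, ‖u‖ = p ^ 2 → ‖G u‖ ≤ Real.exp (h * ((16 * Real.exp M + 10) * p + η)) := by
    intro u hu
    rcases lt_trichotomy u.im 0 with h3 | h3 | h3
    · have hG' : Differentiable ℂ fun v : ℂ => G (-v) := hG.comp differentiable_neg
      have h5 := hfin (fun v : ℂ => G (-v)) hG' (fun v hv => h1 (-v) (by rwa [norm_neg]))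
        (fun v v1 v2 v3 => by
          have := h2 (-v) (by rwa [norm_neg]) (by rwa [norm_neg]) (by rw [Complex.neg_im, v3, neg_zero])
          rwa [norm_neg] at this) (-u) (by rw [norm_neg]; exact hu) (by rw [Complex.neg_im]; linarith)
      simp only [neg_neg] at h5
      exact h5
    · refine (h2 u (by rw [hu]; exact hp4l.le) (by rw [hu]; linarith) h3).trans (Real.exp_le_exp.2 ?_)
      rw [hu]
      have e5 : p ^ 2 + η ≤ (16 * Real.exp M + 10) * p + η := by nlinarith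
      have e6 := mul_le_mul_of_nonneg_left e5 hh0.le
      linarith
    · exact hfin G hG h1 h2 u hu h3
  exact Complex.norm_le_of_forall_mem_frontier_norm_le (f := G) (U := ball (0 : ℂ) (p ^ 2))
    Metric.isBounded_ball hG.diffContOnCl (C := Real.exp (h * ((16 * Real.exp M + 10) * p + η)))
    (fun u hu => by
      rw [frontier_ball _ hp20.ne', mem_sphere, dist_zero_right] at hu
      exact hcirc u hu)
    (subset_closure (mem_ball_self hp20))

/-- few zeros in a thin strip give the Lindelof bound at its end -/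
theorem stripF (m : ℕ) (c0 ε : ℝ) (hc0 : 0 < c0) (hε : 0 < ε) : ∃ r' : ℝ, 0 < r' ∧ ∀ w0 : ℝ, 0 < w0 →
    ∃ κ0 X0 : ℝ, 0 < κ0 ∧
    ∀ (e : ℕ) (N : ℝ) (a : Fin m → ℂ) (α : Nat.Primes → Fin m → ℂ) (X : ℂ → ℂ),
      HW m e N a α X → (∀ j, -1 / 2 + c0 ≤ (a j).re) → ∀ T : ℝ, X0 ≤ cd N a T →
      (∀ S : Finset ℂ, (∀ s ∈ S, X s = 0 ∧ 1 / 2 + r' ≤ s.re ∧ |s.im - T| ≤ w0) →
        ∑ s ∈ S, (analyticOrderNatAt X s : ℝ) ≤ κ0 * Real.log (cd N a T)) →
      ‖X (1 / 2 + (T : ℂ) * I) / gm e N a (1 / 2 + (T : ℂ) * I)‖ ≤ cd N a T ^ ε := by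
  obtain ⟨B1, hB1⟩ : ∃ B1 : ℝ, B1 = 16 * Real.exp 4 + 10 := ⟨_, rfl⟩
  have hB10 : 0 < B1 := by rw [hB1]; positivity
  obtain ⟨p, hp⟩ : ∃ p : ℝ, p = min (ε / (2 * B1)) (1 / 2) := ⟨_, rfl⟩
  have hp0 : 0 < p := by rw [hp]; apply lt_min (by positivity) (by norm_num)
  have hp1 : p ≤ 1 / 2 := by rw [hp]; exact min_le_right _ _
  have hpB : B1 * p ≤ ε / 2 := by
    have : p ≤ ε / (2 * B1) := by rw [hp]; exact min_le_left _ _
    have h1 := mul_le_mul_of_nonneg_left this hB10.le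
    have h2 : B1 * (ε / (2 * B1)) = ε / 2 := by field_simp
    linarith
  obtain ⟨r, hr⟩ : ∃ r : ℝ, r = p ^ 4 := ⟨_, rfl⟩
  have hr0 : 0 < r := by rw [hr]; positivity
  have hr1 : r ≤ 1 := by rw [hr]; exact pow_le_one₀ hp0.le (by linarith)
  refine ⟨r / 6, by positivity, ?_⟩
  intro w0 hw0
  obtain ⟨κ, R, hκ, hκ1, hR, HC⟩ := seg1 w0 r (ε / 2) hw0 hr0 hr1 (by positivity)
  obtain ⟨K, hK, HK⟩ := cmp m c0 hc0
  obtain ⟨V, hV⟩ : ∃ V : ℝ, V = Kn m (4 * B0 + 2) 0 * (1 + R ^ 2) / κ := ⟨_, rfl⟩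
  have hB := B0_nonneg
  have hKn : 0 ≤ Kn m (4 * B0 + 2) 0 := Kn_nonneg (by linarith) 0
  have hV0 : 0 ≤ V := by rw [hV]; positivity
  refine ⟨κ / 2, max (Real.exp (2 * V + 2)) (Real.exp (Real.log K / (ε / 2))), by positivity, ?_⟩
  intro e N a α X h ha T hX0 hz
  obtain ⟨l, hl⟩ : ∃ l : ℝ, l = Real.log (cd N a T) := ⟨_, rfl⟩
  have hcp : 0 < cd N a T := lt_of_lt_of_le one_pos (one_le_cd h.hN a T)
  have hcd := hc_cd N a T
  rw [← hl] at hcd
  have hlV : 2 * V + 2 ≤ l := by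
    rw [hl, Real.le_log_iff_exp_le hcp]
    exact (le_max_left _ _).trans hX0
  have hKl : Real.log K ≤ ε / 2 * l := by
    have h1 : Real.log K / (ε / 2) ≤ l := by
      rw [hl, Real.le_log_iff_exp_le hcp]
      exact (le_max_right _ _).trans hX0
    rw [div_le_iff₀ (by positivity)] at h1
    linarith
  obtain ⟨hh, hhl⟩ : ∃ hh : ℝ, hh = l / 2 := ⟨_, rfl⟩
  have hh1 : 1 ≤ hh := by rw [hhl]; linarith
  have hh0 : 0 < hh := by linarith
  rw [← hhl] at hcd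
  have hVh : Kn m (4 * B0 + 2) 0 * (1 + R ^ 2) ≤ κ * hh := by
    have h1 : V ≤ hh := by rw [hhl]; linarith
    rw [hV, div_le_iff₀ hκ] at h1
    linarith
  obtain ⟨Q, hQ⟩ : ∃ Q : ℝ, Q = ‖X (7 / 2 + (T : ℂ) * I)‖ := ⟨_, rfl⟩
  obtain ⟨p1, -, p3, p4⟩ := prf h.ul le_rfl 0 T
  simp only [iteratedDeriv_zero, hcd] at p1 p3 p4
  have hQ0 : 0 < Q := by rw [hQ]; exact norm_pos_iff.2 p1
  rw [← hQ] at p3 p4
  obtain ⟨P, hP⟩ : ∃ P : ℝ, P = Q * Real.exp (-(3 * hh)) := ⟨_, rfl⟩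
  have hP0 : 0 < P := by rw [hP]; positivity
  obtain ⟨G, hG⟩ : ∃ G : ℂ → ℂ, G = fun u => X (1 / 2 + (T : ℂ) * I + u) * ((P⁻¹ : ℝ) : ℂ) := ⟨_, rfl⟩
  have hGn : ∀ u, ‖G u‖ = ‖X (1 / 2 + (T : ℂ) * I + u)‖ / P := by
    intro u
    rw [hG]
    simp only
    rw [norm_mul, Complex.norm_real, Real.norm_eq_abs, abs_of_pos (inv_pos.2 hP0), ← div_eq_mul_inv]
  have hGd : Differentiable ℂ G := by
    rw [hG]
    exact (h.entire.comp (by fun_prop)).mul_const _
  have hQP : ∀ x : ℝ, Q * Real.exp x / P = Real.exp (x + 3 * hh) := by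
    intro x
    have h1 : Real.exp x = Real.exp (x + 3 * hh) * Real.exp (-(3 * hh)) := by
      rw [← Real.exp_add]
      congr 1
      ring
    rw [div_eq_iff hP0.ne', hP, h1]
    ring
  have hKu : ∀ u : ℂ, ‖u‖ ≤ R → Kn m (4 * B0 + 2) 0 * (1 + ‖u‖ ^ 2) ≤ κ * hh := by
    intro u hu
    refine le_trans ?_ hVh
    apply mul_le_mul_of_nonneg_left _ hKn
    have := norm_nonneg u
    nlinarith
  have hup : ∀ u : ℂ, ‖u‖ ≤ R → ‖G u‖ ≤ Real.exp (hh * max |u.re| 3 + κ * hh) := by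
    intro u hu
    rw [hGn]
    have h1 := div_le_div_of_nonneg_right (p3 u) hP0.le
    rw [hQP] at h1
    refine h1.trans (Real.exp_le_exp.2 ?_)
    have := hKu u hu
    linarith
  have hlo : ∀ u : ℂ, 3 ≤ u.re → ‖u‖ ≤ R → Real.exp (hh * u.re - κ * hh) ≤ ‖G u‖ := by
    intro u hu3 hu
    rw [hGn]
    have h1 := div_le_div_of_nonneg_right (p4 u hu3) hP0.le
    rw [hQP] at h1
    refine le_trans (Real.exp_le_exp.2 ?_) h1
    have := hKu u hu
    linarith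
  have hPc : ((P⁻¹ : ℝ) : ℂ) ≠ 0 := by
    have : P⁻¹ ≠ 0 := (inv_pos.2 hP0).ne'
    exact_mod_cast this
  have hord : ∀ z : ℂ, analyticOrderNatAt G z = analyticOrderNatAt X (1 / 2 + (T : ℂ) * I + z) := by
    intro z
    have h1 := ord_tr h.entire ⟨_, p1⟩ one_ne_zero (E := fun _ => ((P⁻¹ : ℝ) : ℂ))
      (b := 1 / 2 + (T : ℂ) * I) (by fun_prop) (fun _ => hPc) z
    have e : (fun u : ℂ => X (1 * u + (1 / 2 + (T : ℂ) * I)) * ((P⁻¹ : ℝ) : ℂ)) = G := by
      rw [hG]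
      funext u
      rw [one_mul, add_comm]
    rw [e, one_mul, add_comm] at h1
    exact h1
  have hzf : ∀ S : Finset ℂ, (∀ z ∈ S, G z = 0 ∧ r / 6 ≤ z.re ∧ |z.im| ≤ w0) →
      ∑ z ∈ S, (analyticOrderNatAt G z : ℝ) ≤ κ * hh := by
    intro S hS
    classical
    have h1 := hz (S.image fun z => 1 / 2 + (T : ℂ) * I + z) (by
      intro s' hs'
      obtain ⟨z, hz1, hz2⟩ := Finset.mem_image.1 hs'
      obtain ⟨g1, g2, g3⟩ := hS z hz1
      have e1 : s'.re = 1 / 2 + z.re := by rw [← hz2]; simp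
      have e2 : s'.im = T + z.im := by rw [← hz2]; simp
      refine ⟨?_, by rw [e1]; linarith, ?_⟩
      · rw [← hz2]
        rw [hG] at g1
        rcases mul_eq_zero.1 g1 with h2 | h2
        · exact h2
        · exact absurd h2 hPc
      · rw [e2]
        have e3 : T + z.im - T = z.im := by ring
        rw [e3]
        exact g3)
    rw [Finset.sum_image (fun x _ y _ hxy => add_left_cancel hxy)] at h1
    simp only [← hord] at h1
    rw [← hl] at h1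
    rw [hhl]
    linarith
  have hseg := HC hh G hh0 hGd hup hlo hzf
  have hrefl : ∀ u : ℂ, ‖G (-conj u)‖ = ‖G u‖ := by
    intro u
    obtain ⟨w, hw, hfe⟩ := h.fe
    rw [hGn, hGn, hfe (1 / 2 + (T : ℂ) * I + u), norm_mul, hw, one_mul, Complex.norm_conj]
    congr 3
    simp only [map_add, map_mul, Complex.conj_ofReal, Complex.conj_I, map_div₀, map_one, map_ofNat]
    ring
  have hA := endp (M := 4) (p := p) (η := ε / 2) (h := hh) (by norm_num) hp0 hp1 (by positivity) hh1 hGd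
    (fun u hu => by
      refine (hup u (by linarith)).trans (Real.exp_le_exp.2 ?_)
      have h1 : max |u.re| 3 = 3 := by
        apply max_eq_right
        have := Complex.abs_re_le_norm u
        linarith
      rw [h1]
      have := mul_le_mul_of_nonneg_right hκ1 hh0.le
      linarith)
    (fun u hu1 hu2 hu3 => by
      rw [← hr] at hu1
      have hre := Complex.abs_re_le_norm u
      rcases lt_trichotomy u.re 0 with h1 | h1 | h1
      · rw [← hrefl u]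
        have e1 : (-conj u).re = -u.re := by simp
        have e2 : (-conj u).im = u.im := by simp
        have e3 : ‖-conj u‖ = ‖u‖ := by rw [norm_neg, Complex.norm_conj]
        have h2 := hseg (-conj u) (by rw [e1]; linarith) (by rw [e3]; exact hu1) (by rw [e3]; exact hu2)
          (by rw [e2]; exact hu3)
        refine h2.trans (Real.exp_le_exp.2 ?_)
        rw [e1]
        have h3 : -u.re ≤ ‖u‖ := (neg_le_abs _).trans hre
        have := mul_le_mul_of_nonneg_left h3 hh0.le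
        linarith
      · exfalso
        have h2 : u = 0 := Complex.ext h1 hu3
        rw [h2, norm_zero] at hu1
        linarith
      · have h2 := hseg u h1 hu1 hu2 hu3
        refine h2.trans (Real.exp_le_exp.2 ?_)
        have h3 : u.re ≤ ‖u‖ := (le_abs_self _).trans hre
        have := mul_le_mul_of_nonneg_left h3 hh0.le
        linarith)
  rw [← hB1] at hA
  have hA2 : ‖G 0‖ ≤ Real.exp (ε / 2 * l) := by
    refine hA.trans (Real.exp_le_exp.2 ?_)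
    have := mul_le_mul_of_nonneg_left (by linarith : B1 * p + ε / 2 ≤ ε) hh0.le
    rw [hhl] at this ⊢
    linarith
  rw [hGn, add_zero, div_le_iff₀ hP0] at hA2
  obtain ⟨hk, -⟩ := HK e N a α X h ha T _ rfl
  obtain ⟨g, hg⟩ : ∃ g : ℝ, g = ‖gm e N a (1 / 2 + (T : ℂ) * I)‖ := ⟨_, rfl⟩
  have hgp : 0 < g := by rw [hg]; exact norm_pos_iff.2 (gm_ne h hc0 ha T)
  have hk' : P ≤ K * g := by
    rw [hP, hg, hQ, ← hcd]
    exact hk
  rw [norm_div, ← hg, div_le_iff₀ hgp, Real.rpow_def_of_pos hcp, ← hl]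
  have hKe : K ≤ Real.exp (ε / 2 * l) := by
    rw [← Real.log_le_iff_le_exp hK]
    exact hKl
  calc _ ≤ Real.exp (ε / 2 * l) * P := hA2
    _ ≤ Real.exp (ε / 2 * l) * (Real.exp (ε / 2 * l) * g) := by
        apply mul_le_mul_of_nonneg_left _ (Real.exp_pos _).le
        exact hk'.trans (mul_le_mul_of_nonneg_right hKe hgp.le)
    _ = Real.exp (l * ε) * g := by
        rw [← mul_assoc, ← Real.exp_add]
        congr 2
        ring

end Pool.Agent.TH839.CN
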