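import Pool.Agent.TH839.TU.Sd3
import Pool.Agent.TH839.TU.FamT

/-!
# Project TU: a derivative of constant sign on the horizontal segment gives small values
-/

set_option autoImplicit false

open Complex Filter Topology Set
open scoped ComplexConjugate

namespace Pool.Agent.TH839.TU

open Pool.Agent.W169.HF H353.E Pool.Agent.W355.UN Pool.Agent.TH839.UH Pool.Agent.TH839.UH.EP
open Pool.Agent.TH839.LD Pool.Agent.TH839.SC

variable {ι : Type}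

/-- `x ↦ log |X(1/2 + iT + √x)|²` -/
noncomputable def lg (X : ℂ → ℂ) (T x : ℝ) : ℝ :=
  Real.log (‖X (1 / 2 + (T : ℂ) * I + ((√x : ℝ) : ℂ))‖ ^ 2)

lemma lg_contDiff {X : ℂ → ℂ} (hX : Differentiable ℂ X) {T b : ℝ} {n : ℕ}
    (h0 : ∀ x ∈ Ioo 0 b, X (1 / 2 + (T : ℂ) * I + ((√x : ℝ) : ℂ)) ≠ 0) :
    ContDiffOn ℝ n (lg X T) (Ioo 0 b) := by
  intro x hx
  apply ContDiffAt.contDiffWithinAt
  have h1 : ContDiffAt ℝ n (fun x : ℝ => (1 / 2 + (T : ℂ) * I + ((√x : ℝ) : ℂ))) x := by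
    apply contDiffAt_const.add
    exact Complex.ofRealCLM.contDiff.contDiffAt.comp x (Real.contDiffAt_sqrt hx.1.ne')
  have h2 : ContDiffAt ℝ n (fun x : ℝ => X (1 / 2 + (T : ℂ) * I + ((√x : ℝ) : ℂ))) x :=
    ((hX.contDiff (n := n)).restrict_scalars ℝ).contDiffAt.comp x h1
  have h3 := h2.norm_sq ℝ
  exact h3.log (pow_ne_zero 2 (norm_ne_zero_iff.2 (h0 x hx)))

lemma lg_cont {X : ℂ → ℂ} (hX : Differentiable ℂ X) {T : ℝ} (h0 : X (1 / 2 + (T : ℂ) * I) ≠ 0) :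
    ContinuousWithinAt (lg X T) (Ioi 0) 0 := by
  apply ContinuousAt.continuousWithinAt
  have h1 : Continuous fun x : ℝ => ‖X (1 / 2 + (T : ℂ) * I + ((√x : ℝ) : ℂ))‖ ^ 2 :=
    ((hX.continuous.comp (by fun_prop)).norm).pow 2
  refine h1.continuousAt.log ?_
  simp only [Real.sqrt_zero, Complex.ofReal_zero, add_zero]
  exact pow_ne_zero 2 (norm_ne_zero_iff.2 h0)

/-- the values at the nodes -/
lemma node (m : ℕ) (c θ ε2 : ℝ) (hc0 : 0 < c) (hθ0 : 1 / 2 < θ) (hθ1 : θ ≤ 1) (hε2 : 0 < ε2)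
    (e : ι → ℕ) (N : ι → ℝ)
    (a : ι → Fin m → ℂ) (α : ι → Nat.Primes → Fin m → ℂ) (X : ι → ℂ → ℂ)
    (h : ∀ i, HW m (e i) (N i) (a i) (α i) (X i)) (ha : ∀ i j, -1 / 2 + c ≤ (a i j).re)
    (hR : Rb2 (fun i s => X i s / gm (e i) (N i) (a i) s) (fun i => cd (N i) (a i))) :
    ∃ X0 : ℝ, ∀ (i : ι) (T : ℝ), X0 ≤ cd (N i) (a i) T → ∀ l : ℝ, l = Real.log (cd (N i) (a i) T) →
      X i (1 / 2 + (T : ℂ) * I + (θ : ℂ)) ≠ 0 ∧
      |Real.log ‖X i (1 / 2 + (T : ℂ) * I + (θ : ℂ))‖ -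
        (Real.log ‖X i (7 / 2 + (T : ℂ) * I)‖ - 3 * (l / 2) + θ * (l / 2))| ≤ ε2 * l := by
  obtain ⟨K2, hK2, HK2⟩ := cmpt2 m c θ hc0 (by linarith) hθ1 (by linarith)
  obtain ⟨K3, hK3, HK3⟩ := hR θ hθ0 hθ1 (ε2 / 2) (by positivity)
  obtain ⟨C, hC⟩ : ∃ C : ℝ, C = Real.log K2 + Real.log K3 := ⟨_, rfl⟩
  refine ⟨Real.exp (C / (ε2 / 2)), ?_⟩
  intro i T hX0 l hl
  have hcp : 0 < cd (N i) (a i) T := lt_of_lt_of_le one_pos (one_le_cd (h i).hN (a i) T)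
  have hCl : C ≤ ε2 / 2 * l := by
    have h1 : C / (ε2 / 2) ≤ l := by
      rw [hl, Real.le_log_iff_exp_le hcp]
      exact hX0
    rw [div_le_iff₀ (by positivity)] at h1
    linarith
  have hcd := hc_cd (N i) (a i) T
  rw [← hl] at hcd
  obtain ⟨k1, k2⟩ := HK2 (e i) (N i) (a i) (α i) (X i) (h i) (ha i) T _ rfl
  rw [hcd] at k1 k2
  obtain ⟨s1, s2⟩ := HK3 i T
  obtain ⟨Q, hQ⟩ : ∃ Q : ℝ, Q = ‖X i (7 / 2 + (T : ℂ) * I)‖ := ⟨_, rfl⟩
  have hQ0 : 0 < Q := by rw [hQ]; exact norm_pos_iff.2 (prf (h i).ul le_rfl 0 T).1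
  rw [← hQ] at k1 k2 ⊢
  obtain ⟨G, hG⟩ : ∃ G : ℝ, G = ‖gm (e i) (N i) (a i) (1 / 2 + (T : ℂ) * I + θ)‖ := ⟨_, rfl⟩
  obtain ⟨Y, hY⟩ : ∃ Y : ℝ, Y = ‖X i (1 / 2 + (T : ℂ) * I + θ)‖ := ⟨_, rfl⟩
  have e1 : ∀ x : ℝ, cd (N i) (a i) T ^ x = Real.exp (x * l) := by
    intro x
    rw [Real.rpow_def_of_pos hcp, ← hl, mul_comm]
  have hG0 : 0 < G := by
    by_contra hcon
    have h2 : G ≤ 0 := not_lt.1 hcon
    have h3 := mul_pos hQ0 (Real.exp_pos (-(3 * (l / 2)) + θ * (l / 2)))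
    have h4 : K2 * G ≤ 0 := mul_nonpos_of_nonneg_of_nonpos hK2.le h2
    rw [← hG] at k1
    linarith
  simp only [e1, norm_div] at s1 s2
  rw [← hG] at k1 k2 s1 s2
  rw [← hY] at s1 s2 ⊢
  have hY0 : 0 < Y := by
    rw [le_div_iff₀ hG0] at s1
    have : 0 < K3⁻¹ * Real.exp (-(ε2 / 2) * l) * G := by positivity
    linarith
  have hXn : X i (1 / 2 + (T : ℂ) * I + (θ : ℂ)) ≠ 0 := by
    rw [← norm_pos_iff, ← hY]
    exact hY0
  refine ⟨hXn, ?_⟩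
  have l1 := Real.log_le_log (by positivity) k1
  have l2 := Real.log_le_log hG0 k2
  have l3 := Real.log_le_log (by positivity) s1
  have l4 := Real.log_le_log (by positivity) s2
  rw [Real.log_mul hQ0.ne' (Real.exp_pos _).ne', Real.log_exp, Real.log_mul hK2.ne' hG0.ne'] at l1
  rw [Real.log_mul hK2.ne' (by positivity), Real.log_mul hQ0.ne' (Real.exp_pos _).ne', Real.log_exp] at l2
  rw [Real.log_mul (by positivity) (Real.exp_pos _).ne', Real.log_inv, Real.log_exp,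
    Real.log_div hY0.ne' hG0.ne'] at l3
  rw [Real.log_mul hK3.ne' (Real.exp_pos _).ne', Real.log_exp, Real.log_div hY0.ne' hG0.ne'] at l4
  rw [abs_le]
  constructor <;> linarith

/-- a derivative of constant sign on the horizontal segment gives small values -/
theorem famC (m k : ℕ) (δ ε c : ℝ) (hδ : 0 < δ) (hε : 0 < ε) (hc0 : 0 < c)
    (e : ι → ℕ) (N : ι → ℝ)
    (a : ι → Fin m → ℂ) (α : ι → Nat.Primes → Fin m → ℂ) (X : ι → ℂ → ℂ)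
    (h : ∀ i, HW m (e i) (N i) (a i) (α i) (X i)) (ha : ∀ i j, -1 / 2 + c ≤ (a i j).re)
    (hR : Rb2 (fun i s => X i s / gm (e i) (N i) (a i) s) (fun i => cd (N i) (a i))) :
    ∃ κ X0 : ℝ, 0 < κ ∧ ∀ (i : ι) (T : ℝ), X0 ≤ cd (N i) (a i) T →
      (∀ x : ℝ, 0 < x → x < 1 / 4 + δ → X i (1 / 2 + (T : ℂ) * I + ((√x : ℝ) : ℂ)) ≠ 0 ∧
        -(κ * Real.log (cd (N i) (a i) T)) ≤ (-1) ^ k * iteratedDeriv (k + 1) (lg (X i) T) x) →
      ‖X i (1 / 2 + (T : ℂ) * I) / gm (e i) (N i) (a i) (1 / 2 + (T : ℂ) * I)‖ ≤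
        cd (N i) (a i) T ^ (ck k / 4 + ε) := by
  obtain ⟨x0, η, ε1, hx0, hη, hxη, hxη1, hε1, HC⟩ := cmon_abs k (2 * ε) δ (by positivity) hδ
  have hj : ∀ j : ℕ, ∃ X0 : ℝ, j ≤ k → ∀ (i : ι) (T : ℝ), X0 ≤ cd (N i) (a i) T →
      ∀ l : ℝ, l = Real.log (cd (N i) (a i) T) →
      X i (1 / 2 + (T : ℂ) * I + ((√(x0 + j * η) : ℝ) : ℂ)) ≠ 0 ∧
      |Real.log ‖X i (1 / 2 + (T : ℂ) * I + ((√(x0 + j * η) : ℝ) : ℂ))‖ -
        (Real.log ‖X i (7 / 2 + (T : ℂ) * I)‖ - 3 * (l / 2) + √(x0 + j * η) * (l / 2))| ≤ ε1 / 4 * l := by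
    intro j
    by_cases hjk : j ≤ k
    · have hj0 : 0 ≤ (j : ℝ) * η := by positivity
      have hj1 : (j : ℝ) * η ≤ k * η := by
        have : (j : ℝ) ≤ k := by exact_mod_cast hjk
        exact mul_le_mul_of_nonneg_right this hη.le
      have ht1 : 1 / 2 < √(x0 + j * η) := by
        rw [show (1 / 2 : ℝ) = √((1 / 2) ^ 2) by rw [Real.sqrt_sq (by norm_num)]]
        exact Real.sqrt_lt_sqrt (by norm_num) (by norm_num; linarith)
      have ht2 : √(x0 + j * η) ≤ 1 := by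
        rw [Real.sqrt_le_one]
        linarith
      obtain ⟨X0, H⟩ := node m c (√(x0 + j * η)) (ε1 / 4) hc0 ht1 ht2 (by positivity) e N a α X h ha hR
      exact ⟨X0, fun _ => H⟩
    · exact ⟨0, fun h' => absurd h' hjk⟩
  choose X1 HX1 using hj
  obtain ⟨K, hK, HK⟩ := cmp m c hc0
  obtain ⟨Y, hY⟩ : ∃ Y : ℝ, Y = ∑ j ∈ Finset.range (k + 1), |X1 j| := ⟨_, rfl⟩
  have hYj : ∀ j : ℕ, j ≤ k → X1 j ≤ Y := by
    intro j hjk
    rw [hY]
    exact (le_abs_self _).trans (Finset.single_le_sum (f := fun j => |X1 j|) (fun _ _ => abs_nonneg _)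
      (Finset.mem_range.2 (by omega)))
  refine ⟨ε1 / 2, max Y (Real.exp (Real.log K / (ε / 2))), by positivity, ?_⟩
  intro i T hX0 hyp
  have hcp : 0 < cd (N i) (a i) T := lt_of_lt_of_le one_pos (one_le_cd (h i).hN (a i) T)
  obtain ⟨l, hl⟩ : ∃ l : ℝ, l = Real.log (cd (N i) (a i) T) := ⟨_, rfl⟩
  have hl0 : 0 ≤ l := by rw [hl]; exact Real.log_nonneg (one_le_cd (h i).hN (a i) T)
  rw [← hl] at hyp
  by_cases hz : X i (1 / 2 + (T : ℂ) * I) = 0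
  · rw [hz, zero_div, norm_zero]
    exact Real.rpow_nonneg hcp.le _
  have hXd : Differentiable ℂ (X i) := (h i).entire
  obtain ⟨Q, hQ⟩ : ∃ Q : ℝ, Q = ‖X i (7 / 2 + (T : ℂ) * I)‖ := ⟨_, rfl⟩
  have hQ0 : 0 < Q := by rw [hQ]; exact norm_pos_iff.2 (prf (h i).ul le_rfl 0 T).1
  have hF := HC (lg (X i) T) (2 * (Real.log Q - 3 * (l / 2))) (l / 2) (by positivity)
    (lg_contDiff hXd (fun x hx => (hyp x hx.1 hx.2).1))
    (fun y hy => by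
      have := (hyp y hy.1 hy.2).2
      linarith)
    (lg_cont hXd hz) ?_
  · have h1 : lg (X i) T 0 = 2 * Real.log ‖X i (1 / 2 + (T : ℂ) * I)‖ := by
      unfold lg
      simp only [Real.sqrt_zero, Complex.ofReal_zero, add_zero]
      rw [Real.log_pow]
      norm_num
    rw [h1] at hF
    obtain ⟨hk, -⟩ := HK (e i) (N i) (a i) (α i) (X i) (h i) (ha i) T _ rfl
    have hcd := hc_cd (N i) (a i) T
    rw [← hl] at hcd
    obtain ⟨g, hg⟩ : ∃ g : ℝ, g = ‖gm (e i) (N i) (a i) (1 / 2 + (T : ℂ) * I)‖ := ⟨_, rfl⟩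
    have hgp : 0 < g := by rw [hg]; exact norm_pos_iff.2 (gm_ne (h i) hc0 (ha i) T)
    have hk' : Q * Real.exp (-(3 * (l / 2))) ≤ K * g := by
      rw [hg, hQ, ← hcd]
      exact hk
    have hk2 := Real.log_le_log (by positivity) hk'
    rw [Real.log_mul hQ0.ne' (Real.exp_pos _).ne', Real.log_exp, Real.log_mul hK.ne' hgp.ne'] at hk2
    have hKl : Real.log K ≤ ε / 2 * l := by
      have h1 : Real.log K / (ε / 2) ≤ l := by
        rw [hl, Real.le_log_iff_exp_le hcp]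
        exact (le_max_right _ _).trans hX0
      rw [div_le_iff₀ (by positivity)] at h1
      linarith
    obtain ⟨Z, hZ⟩ : ∃ Z : ℝ, Z = ‖X i (1 / 2 + (T : ℂ) * I)‖ := ⟨_, rfl⟩
    have hZ0 : 0 < Z := by rw [hZ]; exact norm_pos_iff.2 hz
    rw [← hZ] at hF
    rw [norm_div, ← hg, ← hZ, div_le_iff₀ hgp, Real.rpow_def_of_pos hcp, ← hl,
      ← Real.log_le_log_iff hZ0 (by positivity), Real.log_mul (Real.exp_pos _).ne' hgp.ne', Real.log_exp]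
    linarith
  · intro j hjk
    have h1 := (HX1 j hjk i T ((hYj j hjk).trans ((le_max_left _ _).trans hX0)) l hl).2
    rw [← hQ] at h1
    unfold lg
    rw [Real.log_pow]
    obtain ⟨u, hu⟩ : ∃ u : ℝ, u = Real.log ‖X i (1 / 2 + (T : ℂ) * I + ((√(x0 + j * η) : ℝ) : ℂ))‖ := ⟨_, rfl⟩
    rw [← hu] at h1 ⊢
    rw [abs_le] at h1 ⊢
    push_cast
    constructor <;> linarith [h1.1, h1.2]

end Pool.Agent.TH839.TU
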