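import Mathlib

/-!
# Project TU: signed differences
-/

set_option autoImplicit false

open Filter Topology Set MeasureTheory

namespace Pool.Agent.TH839.TU

/-- the signed difference `∑ (-1)^i binom(k, i) g(x + i η)` -/
noncomputable def sd : ℕ → (ℝ → ℝ) → ℝ → ℝ → ℝ
  | 0, g, x, _ => g x
  | k + 1, g, x, η => sd k (fun y => g y - g (y + η)) x η

lemma sd_succ (k : ℕ) (g : ℝ → ℝ) (x η : ℝ) : sd (k + 1) g x η = sd k (fun y => g y - g (y + η)) x η := rfl

lemma sd_congr {k : ℕ} : ∀ {g g' : ℝ → ℝ} {x η : ℝ}, (∀ i : ℕ, i ≤ k → g (x + i * η) = g' (x + i * η)) →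
    sd k g x η = sd k g' x η := by
  induction k with
  | zero =>
    intro g g' x η h
    have := h 0 le_rfl
    simpa [sd] using this
  | succ k ih =>
    intro g g' x η h
    rw [sd_succ, sd_succ]
    apply ih
    intro i hi
    have h1 := h i (by omega)
    have h2 := h (i + 1) (by omega)
    have e : x + ((i + 1 : ℕ) : ℝ) * η = x + i * η + η := by push_cast; ring
    rw [e] at h2
    simp only [h1, h2]

lemma sd_add {k : ℕ} : ∀ {g g' : ℝ → ℝ} {x η : ℝ}, sd k (fun y => g y + g' y) x η = sd k g x η + sd k g' x η := by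
  induction k with
  | zero => intro g g' x η; rfl
  | succ k ih =>
    intro g g' x η
    rw [sd_succ, sd_succ, sd_succ, ← ih]
    congr 1
    funext y
    ring

lemma sd_mul {k : ℕ} : ∀ {g : ℝ → ℝ} {c x η : ℝ}, sd k (fun y => c * g y) x η = c * sd k g x η := by
  induction k with
  | zero => intro g c x η; rfl
  | succ k ih =>
    intro g c x η
    rw [sd_succ, sd_succ, ← ih]
    congr 1
    funext y
    ring

lemma sd_abs {k : ℕ} : ∀ {g : ℝ → ℝ} {M x η : ℝ}, (∀ i : ℕ, i ≤ k → |g (x + i * η)| ≤ M) →
    |sd k g x η| ≤ 2 ^ k * M := by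
  induction k with
  | zero =>
    intro g M x η h
    have := h 0 le_rfl
    simpa [sd] using this
  | succ k ih =>
    intro g M x η h
    rw [sd_succ, pow_succ, mul_assoc]
    apply ih
    intro i hi
    have h1 := h i (by omega)
    have h2 := h (i + 1) (by omega)
    have e : x + ((i + 1 : ℕ) : ℝ) * η = x + i * η + η := by push_cast; ring
    rw [e] at h2
    have h3 := abs_sub (g (x + i * η)) (g (x + i * η + η))
    linarith

lemma sd_affine {k : ℕ} : ∀ {g : ℝ → ℝ} {α s x η : ℝ},
    sd k (fun t => g (α + s * t)) x η = sd k g (α + s * x) (s * η) := by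
  induction k with
  | zero => intro g α s x η; rfl
  | succ k ih =>
    intro g α s x η
    rw [sd_succ, sd_succ, ← ih]
    congr 1
    funext y
    congr 2
    ring

lemma sd_tendsto {k : ℕ} {l : Filter ℝ} : ∀ {p : ℝ → ℝ → ℝ} {q : ℝ → ℝ} {x η : ℝ},
    (∀ i : ℕ, i ≤ k → Tendsto (fun τ => p τ (x + i * η)) l (𝓝 (q (x + i * η)))) →
    Tendsto (fun τ => sd k (p τ) x η) l (𝓝 (sd k q x η)) := by
  induction k with
  | zero =>
    intro p q x η h
    have := h 0 le_rfl
    simpa [sd] using this
  | succ k ih =>
    intro p q x η h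
    have h4 := ih (p := fun τ y => p τ y - p τ (y + η)) (q := fun y => q y - q (y + η)) (x := x) (η := η)
      (fun i hi => by
        have h1 := h i (by omega)
        have h2 := h (i + 1) (by omega)
        have e : x + ((i + 1 : ℕ) : ℝ) * η = x + i * η + η := by push_cast; ring
        rw [e] at h2
        exact h1.sub h2)
    exact h4

lemma sd_integral {k : ℕ} : ∀ {p : ℝ → ℝ → ℝ} {x η : ℝ},
    (∀ i : ℕ, i ≤ k → IntervalIntegrable (fun s => p s (x + i * η)) volume 0 1) →
    sd k (fun y => ∫ s in (0 : ℝ)..1, p s y) x η = ∫ s in (0 : ℝ)..1, sd k (p s) x η := by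
  induction k with
  | zero => intro p x η h; rfl
  | succ k ih =>
    intro p x η h
    rw [sd_succ]
    have hi : ∀ i : ℕ, i ≤ k → IntervalIntegrable (fun s => p s (x + i * η)) volume 0 1 ∧
        IntervalIntegrable (fun s => p s (x + i * η + η)) volume 0 1 := by
      intro i hi
      have h1 := h i (by omega)
      have h2 := h (i + 1) (by omega)
      have e : x + ((i + 1 : ℕ) : ℝ) * η = x + i * η + η := by push_cast; ring
      rw [e] at h2
      exact ⟨h1, h2⟩
    have h3 := ih (p := fun s y => p s y - p s (y + η)) (x := x) (η := η) (fun i hk =>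
      (hi i hk).1.sub (hi i hk).2)
    refine Eq.trans (sd_congr (fun i hk => ?_)) h3
    exact (intervalIntegral.integral_sub (hi i hk).1 (hi i hk).2).symm

/-- lower bound for the signed difference -/
lemma sd_lower {k : ℕ} : ∀ {g : ℝ → ℝ} {a b M x η : ℝ}, ContDiffOn ℝ k g (Ioo a b) →
    (∀ y ∈ Ioo a b, M ≤ (-1) ^ k * iteratedDeriv k g y) → a < x → 0 ≤ η → x + k * η < b →
    M * η ^ k ≤ sd k g x η := by
  induction k with
  | zero =>
    intro g a b M x η hg hM hax hη hb
    have hx : x < b := by simpa using hb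
    have := hM x ⟨hax, hx⟩
    simpa [sd] using this
  | succ k ih =>
    intro g a b M x η hg hM hax hη hb
    have hcd : ∀ y ∈ Ioo a b, ContDiffAt ℝ (k + 1 : ℕ) g y := fun y hy =>
      hg.contDiffAt (Ioo_mem_nhds hy.1 hy.2)
    rw [sd_succ, pow_succ', ← mul_assoc]
    have hb' : x + k * η < b - η := by
      push_cast at hb
      linarith
    refine ih (a := a) (b := b - η) ?_ ?_ hax hη hb'
    · have h1 : ContDiffOn ℝ k g (Ioo a b) := hg.of_le (by exact_mod_cast Nat.le_succ k)
      refine (h1.mono (Ioo_subset_Ioo le_rfl (by linarith))).sub ?_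
      refine h1.comp (by fun_prop) ?_
      intro y hy
      exact ⟨by linarith [hy.1], by linarith [hy.2]⟩
    · intro y hy
      have hy1 : y ∈ Ioo a b := ⟨hy.1, by linarith [hy.2]⟩
      have hy2 : y + η ∈ Ioo a b := ⟨by linarith [hy.1], by linarith [hy.2]⟩
      have c1 : ContDiffAt ℝ (k : ℕ) g y := (hcd y hy1).of_le (by exact_mod_cast Nat.le_succ k)
      have c2 : ContDiffAt ℝ (k : ℕ) g (y + η) := (hcd _ hy2).of_le (by exact_mod_cast Nat.le_succ k)
      have e1 : iteratedDeriv k (fun z => g z - g (z + η)) y =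
          iteratedDeriv k g y - iteratedDeriv k g (y + η) := by
        have c3 : ContDiffAt ℝ (k : ℕ) (fun z => g (z + η)) y :=
          ContDiffAt.comp y c2 (by fun_prop)
        have h2 := iteratedDeriv_sub c1 c3
        have h3 := congrFun (iteratedDeriv_comp_add_const k g η) y
        rw [h3] at h2
        exact h2
      rw [e1]
      -- mean value inequality for ψ = (-1)^k g^(k)
      have hder : ∀ z ∈ Ioo a b, HasDerivAt (iteratedDeriv k g) (iteratedDeriv (k + 1) g z) z := by
        intro z hz
        have hd0 := hg.differentiableOn_iteratedDerivWithin (m := k) (by exact_mod_cast Nat.lt_succ_self k)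
          isOpen_Ioo.uniqueDiffOn
        have hd1 : DifferentiableOn ℝ (iteratedDeriv k g) (Ioo a b) :=
          hd0.congr (fun y hy => (iteratedDerivWithin_of_isOpen isOpen_Ioo hy).symm)
        have hd : DifferentiableAt ℝ (iteratedDeriv k g) z := hd1.differentiableAt (Ioo_mem_nhds hz.1 hz.2)
        rw [iteratedDeriv_succ]
        exact hd.hasDerivAt
      have hmono : MonotoneOn (fun z => -((-1) ^ k * iteratedDeriv k g z) - M * z) (Ioo a b) := by
        refine monotoneOn_of_deriv_nonneg (convex_Ioo a b) ?_ ?_ ?_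
        · intro z hz
          exact (((hder z hz).const_mul ((-1) ^ k)).neg.sub ((hasDerivAt_id z).const_mul M)).continuousAt.continuousWithinAt
        · rw [interior_Ioo]
          intro z hz
          exact (((hder z hz).const_mul ((-1) ^ k)).neg.sub ((hasDerivAt_id z).const_mul M)).differentiableAt.differentiableWithinAt
        · rw [interior_Ioo]
          intro z hz
          have h5 := (((hder z hz).const_mul ((-1) ^ k)).neg.sub ((hasDerivAt_id z).const_mul M)).deriv
          have h6 := hM z hz
          have h7 : deriv (fun z => -((-1) ^ k * iteratedDeriv k g z) - M * z) z =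
              -((-1) ^ k * iteratedDeriv (k + 1) g z) - M * 1 := h5
          rw [h7]
          have h8 : (-1 : ℝ) ^ (k + 1) * iteratedDeriv (k + 1) g z =
              -((-1) ^ k * iteratedDeriv (k + 1) g z) := by ring
          rw [h8] at h6
          linarith
      have h9 := hmono hy1 hy2 (by linarith)
      simp only at h9
      linarith

end Pool.Agent.TH839.TU
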