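import Pool.Agent.TH839.TU.Sd

/-!
# Project TU: functions with a derivative of constant sign, values at the end of the interval
-/

set_option autoImplicit false

open Filter Topology Set MeasureTheory

namespace Pool.Agent.TH839.TU

lemma sd_contOn {k : ℕ} {S : Set ℝ} : ∀ {p : ℝ → ℝ → ℝ} {x η : ℝ},
    (∀ i : ℕ, i ≤ k → ContinuousOn (fun s => p s (x + i * η)) S) →
    ContinuousOn (fun s => sd k (p s) x η) S := by
  induction k with
  | zero =>
    intro p x η h
    have := h 0 le_rfl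
    simpa [sd] using this
  | succ k ih =>
    intro p x η h
    exact ih (p := fun s y => p s y - p s (y + η)) (x := x) (η := η) (fun i hi => by
      have h1 := h i (by omega)
      have h2 := h (i + 1) (by omega)
      have e : x + ((i + 1 : ℕ) : ℝ) * η = x + i * η + η := by push_cast; ring
      rw [e] at h2
      exact h1.sub h2)

/-- signed differences of difference quotients -/
lemma sd_quot_lower {k : ℕ} {F : ℝ → ℝ} {M b τ x0 η : ℝ} (hM : 0 ≤ M)
    (hF : ContDiffOn ℝ (k + 1 : ℕ) F (Ioo 0 b))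
    (hs : ∀ y ∈ Ioo 0 b, -M ≤ (-1) ^ k * iteratedDeriv (k + 1) F y) (hτ : 0 < τ) (hτx : τ < x0) (hη : 0 ≤ η)
    (hb : x0 + k * η < b) : -(M * η ^ k) ≤ sd k (fun t => (F t - F τ) / (t - τ)) x0 η := by
  have hb0 : ∀ i : ℕ, i ≤ k → x0 + i * η < b ∧ τ < x0 + i * η := by
    intro i hi
    have h1 : (i : ℝ) ≤ k := by exact_mod_cast hi
    have h2 := mul_le_mul_of_nonneg_right h1 hη
    have h3 : 0 ≤ (i : ℝ) * η := by positivity
    exact ⟨by linarith, by linarith⟩
  have hcd : ContinuousOn (deriv F) (Ioo 0 b) :=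
    hF.continuousOn_deriv_of_isOpen isOpen_Ioo (by exact_mod_cast Nat.succ_le_succ (Nat.zero_le k))
  have hdF : ∀ y ∈ Ioo 0 b, HasDerivAt F (deriv F y) y := fun y hy =>
    ((hF.contDiffAt (Ioo_mem_nhds hy.1 hy.2)).differentiableAt (by simp)).hasDerivAt
  have hmem : ∀ t : ℝ, τ < t → t < b → ∀ s ∈ uIcc (0 : ℝ) 1, τ + s * (t - τ) ∈ Ioo 0 b := by
    intro t h1 h2 s hs
    rw [uIcc_of_le zero_le_one] at hs
    constructor
    · have : 0 ≤ s * (t - τ) := mul_nonneg hs.1 (by linarith)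
      linarith
    · have : s * (t - τ) ≤ 1 * (t - τ) := mul_le_mul_of_nonneg_right hs.2 (by linarith)
      linarith
  have hcont : ∀ t : ℝ, τ < t → t < b → ContinuousOn (fun s : ℝ => deriv F (τ + s * (t - τ))) (uIcc 0 1) := by
    intro t h1 h2
    exact hcd.comp (by fun_prop) (hmem t h1 h2)
  have hint : ∀ t : ℝ, τ < t → t < b →
      (F t - F τ) / (t - τ) = ∫ s in (0 : ℝ)..1, deriv F (τ + s * (t - τ)) := by
    intro t h1 h2
    have h3 : ∀ s ∈ uIcc (0 : ℝ) 1, HasDerivAt (fun s => F (τ + s * (t - τ)))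
        (deriv F (τ + s * (t - τ)) * (t - τ)) s := by
      intro s hs
      have h4 : HasDerivAt (fun s : ℝ => τ + s * (t - τ)) (t - τ) s := by
        simpa using ((hasDerivAt_id s).mul_const (t - τ)).const_add τ
      exact (hdF _ (hmem t h1 h2 s hs)).comp s h4
    have h5 := intervalIntegral.integral_eq_sub_of_hasDerivAt h3
      (((hcont t h1 h2).mul continuousOn_const).intervalIntegrable)
    rw [intervalIntegral.integral_mul_const] at h5
    have h6 : t - τ ≠ 0 := by linarith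
    rw [div_eq_iff h6, h5]
    congr 2 <;> ring
  have e1 : sd k (fun t => (F t - F τ) / (t - τ)) x0 η =
      sd k (fun t => ∫ s in (0 : ℝ)..1, deriv F (τ + s * (t - τ))) x0 η := by
    apply sd_congr
    intro i hi
    exact hint _ (hb0 i hi).2 (hb0 i hi).1
  rw [e1, sd_integral (p := fun s t => deriv F (τ + s * (t - τ)))]
  · have hcs : ∀ i : ℕ, i ≤ k → ContinuousOn (fun s : ℝ => deriv F (τ + s * (x0 + i * η - τ))) (uIcc 0 1) :=
      fun i hi => hcont _ (hb0 i hi).2 (hb0 i hi).1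
    have hc1 : ContinuousOn (fun s : ℝ => sd k (fun t => deriv F (τ + s * (t - τ))) x0 η) (uIcc 0 1) :=
      sd_contOn (p := fun s t => deriv F (τ + s * (t - τ))) hcs
    have h0 : ∫ _s in (0 : ℝ)..1, -(M * η ^ k) = -(M * η ^ k) := by simp
    rw [← h0]
    refine intervalIntegral.integral_mono_on zero_le_one (by simp) hc1.intervalIntegrable ?_
    intro s hs01
    have e2 : sd k (fun t => deriv F (τ + s * (t - τ))) x0 η =
        sd k (deriv F) ((1 - s) * τ + s * x0) (s * η) := by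
      rw [← sd_affine (g := deriv F) (α := (1 - s) * τ) (s := s)]
      apply sd_congr
      intro i hi
      congr 1
      ring
    rw [e2]
    have h7 : ContDiffOn ℝ k (deriv F) (Ioo 0 b) :=
      hF.deriv_of_isOpen isOpen_Ioo (by exact_mod_cast le_rfl)
    have h8 := sd_lower (k := k) (g := deriv F) (a := 0) (b := b) (M := -M) (x := (1 - s) * τ + s * x0)
      (η := s * η) h7 (fun y hy => by rw [← iteratedDeriv_succ']; exact hs y hy) ?_
      (mul_nonneg hs01.1 hη) ?_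
    · refine le_trans ?_ h8
      have h11 : (s * η) ^ k ≤ η ^ k := by
        apply pow_le_pow_left₀ (mul_nonneg hs01.1 hη)
        have := mul_le_mul_of_nonneg_right hs01.2 hη
        linarith
      have h12 := mul_le_mul_of_nonneg_left h11 hM
      linarith
    · have h9 : 0 ≤ s * (x0 - τ) := mul_nonneg hs01.1 (by linarith)
      have : (1 - s) * τ + s * x0 = τ + s * (x0 - τ) := by ring
      linarith
    · have h9 : 0 ≤ (k : ℝ) * η := by positivity
      have h10 : s * (x0 - τ + k * η) ≤ 1 * (x0 - τ + k * η) :=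
        mul_le_mul_of_nonneg_right hs01.2 (by linarith)
      have : (1 - s) * τ + s * x0 + k * (s * η) = τ + s * (x0 - τ + k * η) := by ring
      linarith
  · intro i hi
    exact (hcont _ (hb0 i hi).2 (hb0 i hi).1).intervalIntegrable

/-- the value at the end of the interval -/
lemma sd_end {k : ℕ} {F : ℝ → ℝ} {M b x0 η : ℝ} (hM : 0 ≤ M) (hF : ContDiffOn ℝ (k + 1 : ℕ) F (Ioo 0 b))
    (hs : ∀ y ∈ Ioo 0 b, -M ≤ (-1) ^ k * iteratedDeriv (k + 1) F y) (hc : ContinuousWithinAt F (Ioi 0) 0)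
    (hx : 0 < x0) (hη : 0 ≤ η) (hb : x0 + k * η < b) :
    F 0 * sd k (fun t => t ^ (-1 : ℝ)) x0 η ≤ sd k (fun t => F t * t ^ (-1 : ℝ)) x0 η + M * η ^ k := by
  have h1 : Tendsto (fun τ => sd k (fun t => (F t - F τ) / (t - τ)) x0 η) (𝓝[>] 0)
      (𝓝 (sd k (fun t => (F t - F 0) * t ^ (-1 : ℝ)) x0 η)) := by
    apply sd_tendsto (p := fun τ t => (F t - F τ) / (t - τ)) (q := fun t => (F t - F 0) * t ^ (-1 : ℝ))
    intro i hi
    have hpos : 0 < x0 + i * η := by positivity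
    obtain ⟨t, ht⟩ : ∃ t : ℝ, t = x0 + i * η := ⟨_, rfl⟩
    rw [← ht] at hpos ⊢
    have h2 : Tendsto (fun τ => F t - F τ) (𝓝[>] 0) (𝓝 (F t - F 0)) := tendsto_const_nhds.sub hc
    have h3 : Tendsto (fun τ : ℝ => t - τ) (𝓝[>] 0) (𝓝 (t - 0)) :=
      tendsto_const_nhds.sub (tendsto_id.mono_left nhdsWithin_le_nhds)
    rw [sub_zero] at h3
    have h4 := h2.div h3 hpos.ne'
    rw [Real.rpow_neg_one, ← div_eq_mul_inv]
    exact h4
  have h2 : -(M * η ^ k) ≤ sd k (fun t => (F t - F 0) * t ^ (-1 : ℝ)) x0 η := by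
    refine ge_of_tendsto h1 ?_
    have h3 : ∀ᶠ τ : ℝ in 𝓝[>] 0, τ ∈ Ioo 0 x0 := Ioo_mem_nhdsGT hx
    filter_upwards [h3] with τ hτ
    exact sd_quot_lower hM hF hs hτ.1 hτ.2 hη hb
  have h3 : sd k (fun t => (F t - F 0) * t ^ (-1 : ℝ)) x0 η =
      sd k (fun t => F t * t ^ (-1 : ℝ)) x0 η + (-F 0) * sd k (fun t => t ^ (-1 : ℝ)) x0 η := by
    rw [← sd_mul, ← sd_add]
    congr 1
    funext t
    ring
  rw [h3] at h2
  linarith

/-- the derivatives of powers -/
lemma itd_rpow (a y : ℝ) (k : ℕ) : (-1) ^ k * iteratedDeriv k (fun x : ℝ => x ^ (-a)) y =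
    (∏ j ∈ Finset.range k, (a + j)) * y ^ (-a - k) := by
  rw [iteratedDeriv_eq_iterate, Real.iter_deriv_rpow_const, descPochhammer_eval_eq_prod_range, ← mul_assoc]
  congr 1
  have h1 : ∀ n : ℕ, (-1 : ℝ) ^ n = ∏ _j ∈ Finset.range n, (-1 : ℝ) := by
    intro n
    simp
  rw [h1, ← Finset.prod_mul_distrib]
  apply Finset.prod_congr rfl
  intro j hj
  ring

lemma prod_pos' {a : ℝ} (ha : 0 < a) (k : ℕ) : 0 < ∏ j ∈ Finset.range k, (a + (j : ℝ)) := by
  apply Finset.prod_pos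
  intro j hj
  positivity

lemma sd_one_lower {k : ℕ} {b x0 η : ℝ} (hx : 0 < x0) (hη : 0 ≤ η) (hb : x0 + k * η < b) :
    (∏ j ∈ Finset.range k, (1 + (j : ℝ))) * b ^ (-1 - k : ℝ) * η ^ k ≤ sd k (fun t => t ^ (-1 : ℝ)) x0 η := by
  refine sd_lower (a := 0) (b := b) ?_ ?_ hx hη hb
  · intro y hy
    exact (Real.contDiffAt_rpow_const (Or.inl hy.1.ne')).contDiffWithinAt
  · intro y hy
    rw [itd_rpow 1 y k]
    refine mul_le_mul_of_nonneg_left ?_ (prod_pos' one_pos k).le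
    apply Real.rpow_le_rpow_of_nonpos hy.1 hy.2.le
    have : (0 : ℝ) ≤ k := Nat.cast_nonneg k
    linarith

lemma sd_half_upper {k : ℕ} {a x0 η : ℝ} (ha : 0 < a) (hx : a < x0) (hη : 0 ≤ η) :
    sd k (fun t => t ^ (-(1 / 2) : ℝ)) x0 η ≤
      (∏ j ∈ Finset.range k, (1 / 2 + (j : ℝ))) * a ^ (-(1 / 2) - k : ℝ) * η ^ k := by
  have h1 := sd_lower (k := k) (g := fun t => (-1) * t ^ (-(1 / 2) : ℝ)) (a := a) (b := x0 + k * η + 1)
    (M := -((∏ j ∈ Finset.range k, (1 / 2 + (j : ℝ))) * a ^ (-(1 / 2) - k : ℝ))) (x := x0) (η := η) ?_ ?_ hx hη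
    (by linarith)
  · rw [sd_mul] at h1
    linarith
  · intro y hy
    have : ContDiffAt ℝ k (fun t : ℝ => t ^ (-(1 / 2) : ℝ)) y :=
      Real.contDiffAt_rpow_const (Or.inl (ha.trans hy.1).ne')
    exact (contDiffAt_const.mul this).contDiffWithinAt
  · intro y hy
    have h2 : iteratedDeriv k (fun t : ℝ => (-1) * t ^ (-(1 / 2) : ℝ)) y =
        (-1) * iteratedDeriv k (fun t : ℝ => t ^ (-(1 / 2) : ℝ)) y := by
      rw [iteratedDeriv_const_mul_field]
    rw [h2]
    have h3 := itd_rpow (1 / 2) y k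
    have h4 : (-1) ^ k * ((-1) * iteratedDeriv k (fun t : ℝ => t ^ (-(1 / 2) : ℝ)) y) =
        -((∏ j ∈ Finset.range k, (1 / 2 + (j : ℝ))) * y ^ (-(1 / 2) - k : ℝ)) := by
      rw [← h3]
      ring
    rw [h4]
    apply neg_le_neg
    refine mul_le_mul_of_nonneg_left ?_ (prod_pos' (by norm_num) k).le
    apply Real.rpow_le_rpow_of_nonpos ha hy.1.le
    have : (0 : ℝ) ≤ k := Nat.cast_nonneg k
    linarith

/-- `c_k = binom(2k, k) / 4^k` -/
noncomputable def ck (k : ℕ) : ℝ := (Nat.centralBinom k : ℝ) / 4 ^ k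

lemma ck_pos (k : ℕ) : 0 < ck k := by
  unfold ck
  have := Nat.centralBinom_pos k
  positivity

lemma ck_prod (k : ℕ) : (∏ j ∈ Finset.range k, (1 / 2 + (j : ℝ))) = ck k * ∏ j ∈ Finset.range k, (1 + (j : ℝ)) := by
  induction k with
  | zero => simp [ck]
  | succ k ih =>
    rw [Finset.prod_range_succ, Finset.prod_range_succ, ih]
    have h1 : ((k + 1 : ℕ) : ℝ) * (Nat.centralBinom (k + 1) : ℝ) = 2 * (2 * k + 1) * Nat.centralBinom k := by
      exact_mod_cast Nat.succ_mul_centralBinom_succ k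
    have h2 : ck (k + 1) * (1 + (k : ℝ)) = ck k * (1 / 2 + k) := by
      unfold ck
      push_cast at h1
      rw [pow_succ]
      field_simp
      linear_combination 2 * h1
    rw [show ck (k + 1) * ((∏ j ∈ Finset.range k, (1 + (j : ℝ))) * (1 + (k : ℝ))) =
      (∏ j ∈ Finset.range k, (1 + (j : ℝ))) * (ck (k + 1) * (1 + (k : ℝ))) by ring, h2]
    ring

end Pool.Agent.TH839.TU
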