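import Pool.Agent.TH839.TU.Sd2

/-!
# Project TU: the abstract theorem for functions with a derivative of constant sign
-/

set_option autoImplicit false

open Filter Topology Set MeasureTheory

namespace Pool.Agent.TH839.TU

theorem cmon_abs (k : ℕ) (ε δ : ℝ) (hε : 0 < ε) (hδ : 0 < δ) : ∃ x0 η ε1 : ℝ, 1 / 4 < x0 ∧ 0 < η ∧
    x0 + k * η < 1 / 4 + δ ∧ x0 + k * η ≤ 1 ∧ 0 < ε1 ∧
    ∀ (F : ℝ → ℝ) (L0 h : ℝ), 0 ≤ h → ContDiffOn ℝ (k + 1 : ℕ) F (Ioo 0 (1 / 4 + δ)) →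
      (∀ y ∈ Ioo 0 (1 / 4 + δ), -(ε1 * h) ≤ (-1) ^ k * iteratedDeriv (k + 1) F y) →
      ContinuousWithinAt F (Ioi 0) 0 →
      (∀ i : ℕ, i ≤ k → |F (x0 + i * η) - L0 - 2 * h * √(x0 + i * η)| ≤ ε1 * h) →
      F 0 ≤ L0 + (ck k + ε) * h := by
  -- choice of b
  have hcont : Tendsto (fun b : ℝ => 4 ^ (k + 1) * b ^ (k + 1) * ck k) (𝓝[>] (1 / 4))
      (𝓝 (4 ^ (k + 1) * (1 / 4) ^ (k + 1) * ck k)) := by
    have : Continuous fun b : ℝ => 4 ^ (k + 1) * b ^ (k + 1) * ck k := by fun_prop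
    exact (this.tendsto (1 / 4)).mono_left nhdsWithin_le_nhds
  have e0 : (4 : ℝ) ^ (k + 1) * (1 / 4) ^ (k + 1) * ck k = ck k := by
    rw [← mul_pow]
    norm_num
  rw [e0] at hcont
  have h1 : ∀ᶠ b : ℝ in 𝓝[>] (1 / 4), 4 ^ (k + 1) * b ^ (k + 1) * ck k < ck k + ε / 2 :=
    hcont.eventually_lt_const (by linarith)
  have h2 : ∀ᶠ b : ℝ in 𝓝[>] (1 / 4), b ∈ Ioo (1 / 4 : ℝ) (min (1 / 4 + δ) 1) :=
    Ioo_mem_nhdsGT (by apply lt_min <;> linarith)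
  obtain ⟨b, hb1, hb2⟩ := (h1.and h2).exists
  have hb3 : b < 1 / 4 + δ := hb2.2.trans_le (min_le_left _ _)
  have hb4 : b < 1 := hb2.2.trans_le (min_le_right _ _)
  have hb5 : 1 / 4 < b := hb2.1
  have hb0 : 0 < b := by linarith
  obtain ⟨x0, hx0⟩ : ∃ x0 : ℝ, x0 = (1 / 4 + b) / 2 := ⟨_, rfl⟩
  obtain ⟨η, hη⟩ : ∃ η : ℝ, η = (b - x0) / (k + 1) := ⟨_, rfl⟩
  have hk1 : (0 : ℝ) < k + 1 := by positivity
  have hx1 : 1 / 4 < x0 := by rw [hx0]; linarith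
  have hxb : x0 < b := by rw [hx0]; linarith
  have hη0 : 0 < η := by rw [hη]; apply div_pos <;> linarith
  have hkη : x0 + k * η < b := by
    have h3 : (k + 1) * η = b - x0 := by
      rw [hη]
      field_simp
    linarith
  obtain ⟨P, hP⟩ : ∃ P : ℝ, P = ∏ j ∈ Finset.range k, (1 + (j : ℝ)) := ⟨_, rfl⟩
  have hP0 : 0 < P := by rw [hP]; exact prod_pos' one_pos k
  have er : b ^ (-1 - k : ℝ) = (b ^ (k + 1))⁻¹ := by
    rw [show (-1 - k : ℝ) = -((k + 1 : ℕ) : ℝ) by push_cast; ring, Real.rpow_neg hb0.le, Real.rpow_natCast]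
  have hq : ((1 : ℝ) / 4) ^ (-(1 / 2) - k : ℝ) = 2 * 4 ^ k := by
    rw [Real.rpow_sub (by norm_num), Real.rpow_neg (by norm_num), ← Real.sqrt_eq_rpow, Real.rpow_natCast,
      show (1 / 4 : ℝ) = (1 / 2) ^ 2 by norm_num, Real.sqrt_sq (by norm_num)]
    rw [show ((1 / 2 : ℝ) ^ 2) ^ k = (4 ^ k)⁻¹ by rw [← inv_pow]; norm_num]
    simp
  obtain ⟨A, hA⟩ : ∃ A : ℝ, A = P * (b ^ (k + 1))⁻¹ * η ^ k := ⟨_, rfl⟩
  have hA0 : 0 < A := by rw [hA]; positivity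
  obtain ⟨e1, he1⟩ : ∃ e1 : ℝ, e1 = min (ε / 4 * A / (2 ^ k * 4)) (ε / 4 * A / η ^ k) := ⟨_, rfl⟩
  have he0 : 0 < e1 := by rw [he1]; apply lt_min <;> positivity
  have hea : e1 * (2 ^ k * 4) ≤ ε / 4 * A := by
    rw [← le_div_iff₀ (by positivity), he1]
    exact min_le_left _ _
  have heb : e1 * η ^ k ≤ ε / 4 * A := by
    rw [← le_div_iff₀ (by positivity), he1]
    exact min_le_right _ _
  refine ⟨x0, η, e1, hx1, hη0, by linarith, by linarith, he0, ?_⟩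
  intro F L0 h hh hF hs hc hn
  have hs1 := sd_end (mul_nonneg he0.le hh) hF hs hc (by linarith : 0 < x0) hη0.le
    (by linarith : x0 + k * η < 1 / 4 + δ)
  have hs2 := sd_one_lower (k := k) (b := b) (by linarith : 0 < x0) hη0.le hkη
  have hs3 := sd_half_upper (k := k) (a := 1 / 4) (by norm_num) hx1 hη0.le
  rw [← hP, er, ← hA] at hs2
  rw [ck_prod, ← hP, hq] at hs3
  have e2 : sd k (fun t => F t * t ^ (-1 : ℝ)) x0 η =
      L0 * sd k (fun t => t ^ (-1 : ℝ)) x0 η + (2 * h) * sd k (fun t => t ^ (-(1 / 2) : ℝ)) x0 η +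
        sd k (fun t => (F t - L0 - 2 * h * √t) * t ^ (-1 : ℝ)) x0 η := by
    rw [← sd_mul, ← sd_mul, ← sd_add, ← sd_add]
    apply sd_congr
    intro i hi
    have hpos : 0 < x0 + i * η := by positivity
    obtain ⟨t, ht⟩ : ∃ t : ℝ, t = x0 + i * η := ⟨_, rfl⟩
    rw [← ht] at hpos ⊢
    have h5 : t ^ (-(1 / 2) : ℝ) = √t * t ^ (-1 : ℝ) := by
      rw [Real.sqrt_eq_rpow, ← Real.rpow_add hpos]
      norm_num
    rw [h5]
    ring
  have h6 : |sd k (fun t => (F t - L0 - 2 * h * √t) * t ^ (-1 : ℝ)) x0 η| ≤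
      2 ^ k * (e1 * h * 4) := by
    apply sd_abs
    intro i hi
    have hpos : 1 / 4 < x0 + i * η := by
      have : 0 ≤ (i : ℝ) * η := by positivity
      linarith
    have h7 := hn i hi
    obtain ⟨t, ht⟩ : ∃ t : ℝ, t = x0 + i * η := ⟨_, rfl⟩
    rw [← ht] at hpos h7 ⊢
    rw [abs_mul]
    have h8 : |t ^ (-1 : ℝ)| ≤ 4 := by
      rw [Real.rpow_neg_one, abs_of_pos (by positivity)]
      rw [inv_le_comm₀ (by linarith) (by norm_num)]
      linarith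
    exact mul_le_mul h7 h8 (abs_nonneg _) (by positivity)
  have h9 : 2 ^ k * (e1 * h * 4) ≤ ε / 4 * A * h := by
    have := mul_le_mul_of_nonneg_right hea hh
    linarith
  have h9' : e1 * h * η ^ k ≤ ε / 4 * A * h := by
    have := mul_le_mul_of_nonneg_right heb hh
    linarith
  have h10 := (abs_le.1 (h6.trans h9)).2
  by_cases h0 : F 0 ≤ L0
  · have : 0 ≤ (ck k + ε) * h := mul_nonneg (by linarith [ck_pos k]) hh
    linarith
  · have h0' : 0 ≤ F 0 - L0 := by linarith [not_le.1 h0]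
    have h11 := mul_le_mul_of_nonneg_left hs2 h0'
    have h12 := mul_le_mul_of_nonneg_left hs3 (by linarith : 0 ≤ 2 * h)
    have h13 : 2 * h * (ck k * P * (2 * 4 ^ k) * η ^ k) ≤ (ck k + ε / 2) * A * h := by
      have h14 : 2 * h * (ck k * P * (2 * 4 ^ k) * η ^ k) = (4 ^ (k + 1) * b ^ (k + 1) * ck k) * A * h := by
        rw [hA, pow_succ]
        field_simp
        ring
      rw [h14]
      have := mul_le_mul_of_nonneg_right hb1.le (by positivity : 0 ≤ A * h)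
      linarith
    have h15 : (F 0 - L0) * A ≤ (ck k + ε) * h * A := by
      linarith
    have h16 := le_of_mul_le_mul_right h15 hA0
    linarith

end Pool.Agent.TH839.TU
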